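import Pool.Agent.Lib.MP_641cb6_lc.KG.Rel

/-!
# The symbolic execution of a tree with gates agrees with the run
-/

set_option autoImplicit false

namespace Pool.Agent.Lib.MP_641cb6_lc.KG

open Finset

variable {K : Type} [Field K] {n : ℕ}

/-! ### evaluation -/

/-- the evaluation at a point -/
noncomputable def pfHom (x : (Fin n → K) × K) : Pol K n →+* K :=
  (Polynomial.evalRingHom x.2).comp (Polynomial.mapRingHom (MvPolynomial.eval x.1))

theorem pfHom_apply (x : (Fin n → K) × K) (P : Pol K n) : pfHom x P = pf P x := by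
  simp [pfHom, pf]

theorem pf_mul (P Q : Pol K n) (x : (Fin n → K) × K) : pf (P * Q) x = pf P x * pf Q x := by
  simp only [← pfHom_apply, map_mul]

theorem pf_cc (c : K) (x : (Fin n → K) × K) : pf (cc K n c) x = c := by
  simp [pf, cc]

theorem pf_mono (x : (Fin n → K) × K) (s : SSt K n) (e : ℕ → ℕ) :
    pf (s.mono e) x = ∏ l ∈ range (n + 1 + s.atoms.length), s.ev x l ^ e l := by
  unfold SSt.mono SSt.ev
  simp only [← pfHom_apply, map_prod, map_pow]

theorem pf_eval₂ (x : (Fin n → K) × K) {r : ℕ} (g : Fin r → Pol K n)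
    (F : MvPolynomial (Fin r) K) :
    pf (MvPolynomial.eval₂ (cc K n) g F) x = MvPolynomial.eval (fun k => pf (g k) x) F := by
  rw [← pfHom_apply, MvPolynomial.hom_eval₂]
  have e1 : (pfHom x).comp (cc K n) = RingHom.id K := by
    ext c
    rw [RingHom.comp_apply, pfHom_apply, pf_cc]
    rfl
  rw [e1]
  simp only [pfHom_apply]
  rfl

/-- an input atom -/
theorem ev_lt (s : SSt K n) (x : (Fin n → K) × K) {l : ℕ} (h : l < n) :
    s.ev x l = x.1 ⟨l, h⟩ := by
  unfold SSt.ev SSt.atom
  rw [dif_pos h]
  simp [pf]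

theorem ev_eq (s : SSt K n) (x : (Fin n → K) × K) : s.ev x n = x.2 := by
  unfold SSt.ev SSt.atom
  rw [dif_neg (lt_irrefl _), if_pos rfl]
  simp [pf]

/-- powers of a number that is only raised to negative powers if it is not zero -/
theorem zpow_add' {a : K} {p q : ℤ} (hp : p < 0 → a ≠ 0) (hq : q < 0 → a ≠ 0) :
    a ^ (p + q) = a ^ p * a ^ q := by
  by_cases ha : a = 0
  · have hp' : 0 ≤ p := by
      by_contra h
      exact hp (not_le.1 h) ha
    have hq' : 0 ≤ q := by
      by_contra h
      exact hq (not_le.1 h) ha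
    obtain ⟨p', rfl⟩ := Int.eq_ofNat_of_zero_le hp'
    obtain ⟨q', rfl⟩ := Int.eq_ofNat_of_zero_le hq'
    have : ((p' : ℤ) + (q' : ℤ)) = ((p' + q' : ℕ) : ℤ) := by push_cast; rfl
    rw [this, zpow_natCast, zpow_natCast, zpow_natCast, pow_add]
  · exact zpow_add₀ ha p q

/-- evaluation of the homogenization -/
theorem eval_homg {r : ℕ} (F : MvPolynomial (Fin r) K) (c : Fin r → K) (Q : K) (M : Fin r → K) :
    MvPolynomial.eval (Fin.cons Q fun k => Q * M k) (homg F c) =
      Q ^ F.totalDegree * MvPolynomial.eval (fun k => c k * M k) F := by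
  classical
  unfold homg
  rw [map_sum, MvPolynomial.eval_eq', Finset.mul_sum]
  refine Finset.sum_congr rfl fun ν hν => ?_
  have h1 : (ν.sum fun _ e => e) ≤ F.totalDegree := MvPolynomial.le_totalDegree hν
  rw [Finsupp.sum_fintype _ _ (fun _ => rfl)] at h1
  rw [MvPolynomial.eval_monomial, Finsupp.prod_fintype _ _ (fun _ => pow_zero _),
    Fin.prod_univ_succ]
  simp only [Finsupp.cons_zero, Finsupp.cons_succ, Fin.cons_zero, Fin.cons_succ]
  have h2 : ∏ k, (Q * M k) ^ ν k = Q ^ (∑ k, ν k) * ∏ k, M k ^ ν k := by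
    simp only [mul_pow, Finset.prod_mul_distrib, Finset.prod_pow_eq_pow_sum]
  have h3 : ∏ k, (c k * M k) ^ ν k = (∏ k, c k ^ ν k) * ∏ k, M k ^ ν k := by
    simp only [mul_pow, Finset.prod_mul_distrib]
  have h4 : Q ^ F.totalDegree = Q ^ (F.totalDegree - ∑ k, ν k) * Q ^ (∑ k, ν k) := by
    rw [← pow_add]
    congr 1
    omega
  rw [h2, h3, h4]
  ring

/-- the polynomial of a gate -/
theorem pf_gpol (x : (Fin n → K) × K) (s : SSt K n) {r : ℕ} (F : MvPolynomial (Fin r) K)
    (c : Fin r → K) (e : Fin r → (ℕ →₀ ℤ)) (he : ∀ k l, e k l < 0 → s.ev x l ≠ 0) :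
    pf (gpol s F c e) x =
      (∏ l ∈ range (n + 1 + s.atoms.length), s.ev x l ^ (negs e l).toNat) ^ F.totalDegree *
        MvPolynomial.eval
          (fun k => c k * ∏ l ∈ range (n + 1 + s.atoms.length), s.ev x l ^ e k l) F := by
  unfold gpol
  rw [pf_eval₂, ← eval_homg]
  congr 1
  congr 1
  funext i
  refine Fin.cases ?_ (fun k => ?_) i
  · simp only [Fin.cons_zero]
    exact pf_mono _ _ _
  · simp only [Fin.cons_succ]
    rw [pf_mono, ← Finset.prod_mul_distrib]
    refine Finset.prod_congr rfl fun l _ => ?_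
    rw [← zpow_natCast, ← zpow_natCast, Int.toNat_of_nonneg (negs_ge e k l),
      Int.toNat_of_nonneg (negs_nonneg e l), add_comm, zpow_add' (fun h => ?_) (he k l)]
    exact absurd h (not_lt.2 (negs_nonneg e l))

/-! ### the invariant -/

namespace Sim

/-- the invariant that relates a state and a symbolic state -/
structure Inv (x : (Fin n → K) × K) (s : St K) (σ : SSt K n) : Prop where
  len : s.vals.length = σ.vals.length
  supp : ∀ i l, (σ.val i).2 l ≠ 0 → l < n + 1 + σ.atoms.length
  val : ∀ i, s.val i = (σ.val i).1 *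
    ∏ l ∈ range (n + 1 + σ.atoms.length), σ.ev x l ^ (σ.val i).2 l
  neg : ∀ i l, (σ.val i).2 l < 0 → σ.ev x l ≠ 0

variable {x : (Fin n → K) × K} {s : St K} {σ : SSt K n}

/-- append a value -/
theorem Inv.append (H : Inv x s σ)
    (h' : List Bool) (v c : K) (e : ℕ →₀ ℤ)
    (he : ∀ l, e l ≠ 0 → l < n + 1 + σ.atoms.length)
    (hv : v = c * ∏ l ∈ range (n + 1 + σ.atoms.length), σ.ev x l ^ e l)
    (hneg : ∀ l, e l < 0 → σ.ev x l ≠ 0) :
    Inv x ⟨h', s.vals ++ [v]⟩ (⟨σ.atoms, σ.vals ++ [(c, e)]⟩ : SSt K n) := by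
  have hval : ∀ i, (i < σ.vals.length ∧
      (⟨σ.atoms, σ.vals ++ [(c, e)]⟩ : SSt K n).val i = σ.val i ∧
      (⟨h', s.vals ++ [v]⟩ : St K).val i = s.val i) ∨
      (i = σ.vals.length ∧ (⟨σ.atoms, σ.vals ++ [(c, e)]⟩ : SSt K n).val i = (c, e) ∧
      (⟨h', s.vals ++ [v]⟩ : St K).val i = v) ∨
      (σ.vals.length < i ∧ (⟨σ.atoms, σ.vals ++ [(c, e)]⟩ : SSt K n).val i = (0, 0) ∧
      (⟨h', s.vals ++ [v]⟩ : St K).val i = 0) := by
    intro i
    have e1 : (⟨σ.atoms, σ.vals ++ [(c, e)]⟩ : SSt K n).val i =
        (σ.vals ++ [(c, e)]).getD i (0, 0) := rfl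
    have e2 : (⟨h', s.vals ++ [v]⟩ : St K).val i = (s.vals ++ [v]).getD i 0 := rfl
    rw [e1, e2, getD_app, getD_app, H.len]
    rcases lt_trichotomy i σ.vals.length with hi | hi | hi
    · left
      rw [if_pos hi, if_pos hi]
      exact ⟨hi, rfl, rfl⟩
    · right
      left
      have hlt : ¬ i < σ.vals.length := by omega
      rw [if_neg hlt, if_neg hlt, if_pos hi, if_pos hi]
      exact ⟨hi, rfl, rfl⟩
    · right
      right
      have hlt : ¬ i < σ.vals.length := by omega
      have hne : ¬ i = σ.vals.length := by omega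
      rw [if_neg hlt, if_neg hlt, if_neg hne, if_neg hne]
      exact ⟨hi, rfl, rfl⟩
  refine ⟨by simp [H.len], ?_, ?_, ?_⟩
  · intro i l
    rcases hval i with ⟨-, h1, -⟩ | ⟨-, h1, -⟩ | ⟨-, h1, -⟩
    · rw [h1]; exact H.supp i l
    · rw [h1]; exact he l
    · rw [h1]; intro h; exact absurd rfl h
  · intro i
    rcases hval i with ⟨-, h1, h2⟩ | ⟨-, h1, h2⟩ | ⟨-, h1, h2⟩
    · rw [h1, h2]; exact H.val i
    · rw [h1, h2]; exact hv
    · rw [h1, h2]; simp
  · intro i l
    rcases hval i with ⟨-, h1, -⟩ | ⟨-, h1, -⟩ | ⟨-, h1, -⟩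
    · rw [h1]; exact H.neg i l
    · rw [h1]; exact hneg l
    · rw [h1]; intro h; exact absurd h (lt_irrefl _)

/-- only the values matter -/
theorem Inv.hist (H : Inv x s σ) (h' : List Bool) : Inv x ⟨h', s.vals⟩ σ :=
  ⟨H.len, H.supp, H.val, H.neg⟩

theorem ev_new (x : (Fin n → K) × K) (σ : SSt K n) (p : Pol K n) :
    (⟨σ.atoms ++ [p], σ.vals⟩ : SSt K n).ev x (n + 1 + σ.atoms.length) = pf p x := by
  unfold SSt.ev SSt.atom
  have h3 : n + 1 + σ.atoms.length - n - 1 = σ.atoms.length := by omega
  rw [dif_neg (by omega), if_neg (by omega), h3, getD_app, if_neg (lt_irrefl _), if_pos rfl]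

theorem ev_old (x : (Fin n → K) × K) (σ : SSt K n) (p : Pol K n) (l : ℕ)
    (hl : l < n + 1 + σ.atoms.length) :
    (⟨σ.atoms ++ [p], σ.vals⟩ : SSt K n).ev x l = σ.ev x l := by
  have h1 := atom_of_prefix (S := σ) (S' := (⟨σ.atoms ++ [p], σ.vals⟩ : SSt K n))
    (List.prefix_append _ _) l hl
  unfold SSt.ev
  rw [h1]

/-- append an atom -/
theorem Inv.atom (H : Inv x s σ) (p : Pol K n) :
    Inv x s (⟨σ.atoms ++ [p], σ.vals⟩ : SSt K n) := by
  have hlen : (σ.atoms ++ [p]).length = σ.atoms.length + 1 := by simp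
  refine ⟨H.len, ?_, ?_, ?_⟩
  · intro i l hl
    have h1 : l < n + 1 + σ.atoms.length := H.supp i l hl
    show l < n + 1 + (σ.atoms ++ [p]).length
    omega
  · intro i
    have h0 := H.val i
    have h2 : n + 1 + (σ.atoms ++ [p]).length = (n + 1 + σ.atoms.length) + 1 := by omega
    show s.val i = (σ.val i).1 * ∏ l ∈ range (n + 1 + (σ.atoms ++ [p]).length),
      (⟨σ.atoms ++ [p], σ.vals⟩ : SSt K n).ev x l ^ (σ.val i).2 l
    rw [h2, Finset.prod_range_succ]
    have h3 : (σ.val i).2 (n + 1 + σ.atoms.length) = 0 := by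
      by_contra h
      exact absurd (H.supp i _ h) (lt_irrefl _)
    rw [h3, zpow_zero, mul_one, h0]
    congr 1
    refine Finset.prod_congr rfl fun l hl => ?_
    rw [ev_old x σ p l (Finset.mem_range.1 hl)]
  · intro i l hl
    have h1 : l < n + 1 + σ.atoms.length := H.supp i l (ne_of_lt hl)
    rw [ev_old x σ p l h1]
    exact H.neg i l hl

/-- one step -/
theorem Inv.step (H : Inv x s σ) (P : K → Prop) (T : GTree K) (hσ : σ = sym n T s.hist) :
    Inv x (T.step P s) (sym n T (T.step P s).hist) := by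
  classical
  cases hins : T s.hist with
  | const c =>
    have h1 : T.step P s = ⟨true :: s.hist, s.vals ++ [c]⟩ := by
      unfold GTree.step
      rw [hins]
    have h2 : sym n T (true :: s.hist) = ⟨σ.atoms, σ.vals ++ [(c, 0)]⟩ := by
      rw [hσ]
      show sstep (T s.hist) true (sym n T s.hist) = _
      rw [hins]
      rfl
    rw [h1]
    show Inv x _ (sym n T (true :: s.hist))
    rw [h2]
    exact H.append _ _ _ _ (fun l h => absurd rfl h) (by simp)
      (fun l h => absurd h (lt_irrefl _))
  | mul i j =>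
    have h1 : T.step P s = ⟨true :: s.hist, s.vals ++ [s.val i * s.val j]⟩ := by
      unfold GTree.step
      rw [hins]
    have h2 : sym n T (true :: s.hist) = ⟨σ.atoms, σ.vals ++
        [((σ.val i).1 * (σ.val j).1, (σ.val i).2 + (σ.val j).2)]⟩ := by
      rw [hσ]
      show sstep (T s.hist) true (sym n T s.hist) = _
      rw [hins]
      rfl
    rw [h1]
    show Inv x _ (sym n T (true :: s.hist))
    rw [h2]
    refine H.append _ _ _ _ ?_ ?_ ?_
    · intro l hl
      by_cases h3 : (σ.val i).2 l = 0
      · refine H.supp j l fun h4 => hl ?_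
        simp [h3, h4]
      · exact H.supp i l h3
    · rw [H.val i, H.val j]
      have h3 : ∏ l ∈ range (n + 1 + σ.atoms.length),
          σ.ev x l ^ ((σ.val i).2 + (σ.val j).2) l =
          (∏ l ∈ range (n + 1 + σ.atoms.length), σ.ev x l ^ (σ.val i).2 l) *
          ∏ l ∈ range (n + 1 + σ.atoms.length), σ.ev x l ^ (σ.val j).2 l := by
        rw [← Finset.prod_mul_distrib]
        refine Finset.prod_congr rfl fun l _ => ?_
        rw [Finsupp.add_apply]
        exact zpow_add' (H.neg i l) (H.neg j l)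
      rw [h3]
      ring
    · intro l hl
      rw [Finsupp.add_apply] at hl
      by_cases h3 : (σ.val i).2 l < 0
      · exact H.neg i l h3
      · exact H.neg j l (by omega)
  | div i j =>
    have h1 : T.step P s = ⟨decide (s.val j = 0) :: s.hist, s.vals ++ [s.val i / s.val j]⟩ := by
      unfold GTree.step
      rw [hins]
    have h2 : ∀ o : Bool, sym n T (o :: s.hist) = ⟨σ.atoms, σ.vals ++ [if o then (0, 0) else
        ((σ.val i).1 / (σ.val j).1, (σ.val i).2 - (σ.val j).2)]⟩ := by
      intro o
      rw [hσ]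
      show sstep (T s.hist) o (sym n T s.hist) = _
      rw [hins]
      rfl
    rw [h1]
    show Inv x _ (sym n T (decide (s.val j = 0) :: s.hist))
    rw [h2]
    by_cases hj : s.val j = 0
    · rw [if_pos (by simp [hj])]
      exact H.append _ _ _ _ (fun l h => absurd rfl h) (by simp [hj])
        (fun l h => absurd h (lt_irrefl _))
    · rw [if_neg (by simp [hj])]
      have hj2 := H.val j
      have hc : (σ.val j).1 ≠ 0 := by
        intro h
        rw [h, zero_mul] at hj2
        exact hj hj2
      have hp : ∏ l ∈ range (n + 1 + σ.atoms.length), σ.ev x l ^ (σ.val j).2 l ≠ 0 := by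
        intro h
        rw [h, mul_zero] at hj2
        exact hj hj2
      have hpos : ∀ l, (σ.val j).2 l ≠ 0 → σ.ev x l ≠ 0 := by
        intro l hl h0
        have h3 := Finset.prod_ne_zero_iff.1 hp l (Finset.mem_range.2 (H.supp j l hl))
        rw [h0, zero_zpow _ hl] at h3
        exact h3 rfl
      refine H.append _ _ _ _ ?_ ?_ ?_
      · intro l hl
        by_cases h3 : (σ.val i).2 l = 0
        · refine H.supp j l fun h4 => hl ?_
          simp [h3, h4]
        · exact H.supp i l h3
      · have h3 : ∏ l ∈ range (n + 1 + σ.atoms.length),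
            σ.ev x l ^ ((σ.val i).2 - (σ.val j).2) l =
            (∏ l ∈ range (n + 1 + σ.atoms.length), σ.ev x l ^ (σ.val i).2 l) /
            ∏ l ∈ range (n + 1 + σ.atoms.length), σ.ev x l ^ (σ.val j).2 l := by
          rw [← Finset.prod_div_distrib]
          refine Finset.prod_congr rfl fun l _ => ?_
          rw [Finsupp.sub_apply]
          by_cases h4 : (σ.val j).2 l = 0
          · simp [h4]
          · exact zpow_sub₀ (hpos l h4) _ _
        rw [h3, H.val i, H.val j]
        field_simp
      · intro l hl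
        rw [Finsupp.sub_apply] at hl
        by_cases h3 : (σ.val i).2 l < 0
        · exact H.neg i l h3
        · exact hpos l (by omega)
  | gate r F i =>
    set γ : ℕ →₀ ℤ := negs (fun k => (σ.val (i k)).2) with hγ
    set p : Pol K n := gpol σ F (fun k => (σ.val (i k)).1) (fun k => (σ.val (i k)).2) with hp
    have h1 : T.step P s = ⟨true :: s.hist,
        s.vals ++ [MvPolynomial.eval (fun k => s.val (i k)) F]⟩ := by
      unfold GTree.step
      rw [hins]
    have h2 : sym n T (true :: s.hist) = ⟨σ.atoms ++ [p], σ.vals ++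
        [(1, Finsupp.single (n + 1 + σ.atoms.length) 1 - F.totalDegree • γ)]⟩ := by
      rw [hp, hγ, hσ]
      show sstep (T s.hist) true (sym n T s.hist) = _
      rw [hins]
      rfl
    rw [h1]
    show Inv x _ (sym n T (true :: s.hist))
    rw [h2]
    -- the exponents of the denominators
    have hγ0 : ∀ l, γ l ≠ 0 → ∃ k, (σ.val (i k)).2 l < 0 := fun l hl => negs_ne hl
    have hγs : ∀ l, γ l ≠ 0 → l < n + 1 + σ.atoms.length := by
      intro l hl
      obtain ⟨k, hk⟩ := hγ0 l hl
      exact H.supp (i k) l (ne_of_lt hk)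
    have hγe : ∀ l, γ l ≠ 0 → σ.ev x l ≠ 0 := by
      intro l hl
      obtain ⟨k, hk⟩ := hγ0 l hl
      exact H.neg (i k) l hk
    have hγN : γ (n + 1 + σ.atoms.length) = 0 := by
      by_contra h
      exact absurd (hγs _ h) (lt_irrefl _)
    have hlen : (σ.atoms ++ [p]).length = σ.atoms.length + 1 := by simp
    refine (H.atom p).append _ _ _ _ ?_ ?_ ?_
    · intro l hl
      show l < n + 1 + (σ.atoms ++ [p]).length
      by_cases h3 : l = n + 1 + σ.atoms.length
      · omega
      · rw [Finsupp.sub_apply, Finsupp.single_eq_of_ne h3, Finsupp.smul_apply, zero_sub,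
          neg_ne_zero] at hl
        have h4 : γ l ≠ 0 := by
          intro h4
          rw [h4, smul_zero] at hl
          exact hl rfl
        have := hγs l h4
        omega
    · show MvPolynomial.eval (fun k => s.val (i k)) F = 1 *
        ∏ l ∈ range (n + 1 + (σ.atoms ++ [p]).length),
          (⟨σ.atoms ++ [p], σ.vals⟩ : SSt K n).ev x l ^
            (Finsupp.single (n + 1 + σ.atoms.length) (1 : ℤ) - F.totalDegree • γ) l
      have h3 : n + 1 + (σ.atoms ++ [p]).length = (n + 1 + σ.atoms.length) + 1 := by omega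
      rw [h3, Finset.prod_range_succ, ev_new, Finsupp.sub_apply, Finsupp.smul_apply, hγN,
        Finsupp.single_eq_same, smul_zero, sub_zero, zpow_one, one_mul]
      have h4 : ∏ l ∈ range (n + 1 + σ.atoms.length),
          (⟨σ.atoms ++ [p], σ.vals⟩ : SSt K n).ev x l ^
            (Finsupp.single (n + 1 + σ.atoms.length) (1 : ℤ) - F.totalDegree • γ) l =
          ((∏ l ∈ range (n + 1 + σ.atoms.length), σ.ev x l ^ (γ l).toNat) ^
            F.totalDegree)⁻¹ := by
        rw [← Finset.prod_pow, ← Finset.prod_inv_distrib]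
        refine Finset.prod_congr rfl fun l hl => ?_
        have h5 := Finset.mem_range.1 hl
        rw [ev_old x σ p l h5, Finsupp.sub_apply, Finsupp.single_eq_of_ne (by omega), zero_sub,
          Finsupp.smul_apply, zpow_neg, nsmul_eq_mul, ← pow_mul, ← zpow_natCast]
        congr 2
        rw [Nat.cast_mul, Int.toNat_of_nonneg (by rw [hγ]; exact negs_nonneg _ l), mul_comm]
      have h5 : (∏ l ∈ range (n + 1 + σ.atoms.length), σ.ev x l ^ (γ l).toNat) ^
          F.totalDegree ≠ 0 := by
        refine pow_ne_zero _ (Finset.prod_ne_zero_iff.2 fun l _ => ?_)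
        by_cases h6 : γ l = 0
        · rw [h6]
          simp
        · exact pow_ne_zero _ (hγe l h6)
      have h6 : pf p x = (∏ l ∈ range (n + 1 + σ.atoms.length), σ.ev x l ^ (γ l).toNat) ^
          F.totalDegree * MvPolynomial.eval (fun k => s.val (i k)) F := by
        rw [hp, pf_gpol x σ F _ _ (fun k l => H.neg (i k) l)]
        congr 1
        congr 1
        congr 1
        funext k
        rw [H.val (i k)]
      rw [h4, h6]
      field_simp
    · intro l hl
      rw [Finsupp.sub_apply, Finsupp.smul_apply] at hl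
      by_cases h3 : l = n + 1 + σ.atoms.length
      · rw [h3, hγN, Finsupp.single_eq_same, smul_zero] at hl
        omega
      · rw [Finsupp.single_eq_of_ne h3, zero_sub] at hl
        have h4 : γ l ≠ 0 := by
          intro h4
          rw [h4, smul_zero, neg_zero] at hl
          exact lt_irrefl _ hl
        rw [ev_old x σ p l (hγs l h4)]
        exact hγe l h4
  | test i =>
    have h1 : T.step P s = ⟨decide (P (s.val i)) :: s.hist, s.vals⟩ := by
      unfold GTree.step
      rw [hins]
    have h2 : ∀ o : Bool, sym n T (o :: s.hist) = σ := by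
      intro o
      rw [hσ]
      show sstep (T s.hist) o (sym n T s.hist) = _
      rw [hins]
      rfl
    rw [h1]
    show Inv x _ (sym n T (decide (P (s.val i)) :: s.hist))
    rw [h2]
    exact H.hist _
  | answer b =>
    have h1 : T.step P s = s := by
      unfold GTree.step
      rw [hins]
    rw [h1, ← hσ]
    exact H

/-- the start -/
theorem start (P : K → Prop) (T : GTree K) (x : (Fin n → K) × K) :
    Inv x (T.run P x 0) (sym n T (T.run P x 0).hist) := by
  have h0 : T.run P x 0 = ⟨[], List.ofFn x.1 ++ [x.2]⟩ := rfl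
  rw [h0]
  show Inv x _ (sym n T [])
  set σ : SSt K n := sym n T [] with hσ
  have hatoms : σ.atoms = [] := rfl
  have hvals : σ.vals = List.ofFn (fun i : Fin n => ((1 : K), Finsupp.single (i : ℕ) (1 : ℤ))) ++
      [((1 : K), Finsupp.single n (1 : ℤ))] := rfl
  have hv : ∀ i, (i ≤ n ∧ σ.val i = (1, Finsupp.single i 1)) ∨ (n < i ∧ σ.val i = (0, 0)) := by
    intro i
    unfold SSt.val
    rw [hvals, getD_app, List.length_ofFn]
    rcases lt_trichotomy i n with hi | hi | hi
    · left
      refine ⟨hi.le, ?_⟩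
      rw [if_pos hi, List.getD_eq_getElem _ _ (by simpa using hi)]
      simp
    · left
      refine ⟨hi.le, ?_⟩
      rw [if_neg (by omega), if_pos hi, hi]
    · right
      refine ⟨hi, ?_⟩
      rw [if_neg (by omega), if_neg (by omega)]
  have hsv : ∀ i, (⟨[], List.ofFn x.1 ++ [x.2]⟩ : St K).val i =
      if i ≤ n then σ.ev x i else 0 := by
    intro i
    show (List.ofFn x.1 ++ [x.2]).getD i 0 = _
    rw [getD_app, List.length_ofFn]
    rcases lt_trichotomy i n with hi | hi | hi
    · rw [if_pos hi.le, if_pos hi, ev_lt σ x hi,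
        List.getD_eq_getElem _ _ (by simpa using hi)]
      simp
    · rw [if_pos hi.le, if_neg (by omega), if_pos hi, hi, ev_eq]
    · rw [if_neg (by omega), if_neg (by omega), if_neg (by omega)]
  refine ⟨by rw [hvals]; simp, ?_, ?_, ?_⟩
  · intro i l hl
    rcases hv i with ⟨h1, h2⟩ | ⟨h1, h2⟩
    · rw [h2] at hl
      by_cases h3 : l = i
      · omega
      · exact absurd (Finsupp.single_eq_of_ne h3) hl
    · rw [h2] at hl
      exact absurd rfl hl
  · intro i
    rw [hsv]
    rcases hv i with ⟨h1, h2⟩ | ⟨h1, h2⟩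
    · rw [h2, if_pos h1, one_mul, Finset.prod_eq_single i]
      · simp
      · intro l _ hl
        rw [Finsupp.single_eq_of_ne hl, zpow_zero]
      · intro h
        exact absurd (Finset.mem_range.2 (by omega)) h
    · rw [h2, if_neg (by omega)]
      simp
  · intro i l hl
    rcases hv i with ⟨h1, h2⟩ | ⟨h1, h2⟩
    · rw [h2] at hl
      by_cases h3 : l = i
      · rw [h3] at hl
        simp at hl
      · have := Finsupp.single_eq_of_ne (b := (1 : ℤ)) h3
        exact absurd hl (by
          show ¬ ((Finsupp.single i (1 : ℤ)) l < 0)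
          rw [this]
          exact lt_irrefl _)
    · rw [h2] at hl
      exact absurd hl (lt_irrefl _)

theorem inv (P : K → Prop) (T : GTree K) (x : (Fin n → K) × K) (k : ℕ) :
    Inv x (T.run P x k) (sym n T (T.run P x k).hist) := by
  induction k with
  | zero => exact start P T x
  | succ k ih => exact ih.step P T rfl

end Sim

/-- the atoms that occur in a value -/
theorem sym_supp (T : GTree K) (h : List Bool) (i l : ℕ)
    (hl : ((sym n T h).val i).2 l ≠ 0) : l < n + 1 + (sym n T h).atoms.length := by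
  induction h generalizing i l with
  | nil =>
    have h1 := (Sim.start (fun _ => True) T ((fun _ => 0, 0) : (Fin n → K) × K)).supp i l
    exact h1 hl
  | cons o h ih =>
    have hlen : ∀ (L : List (Pol K n)) (p : Pol K n), (L ++ [p]).length = L.length + 1 := by simp
    have hs : sym n T (o :: h) = sstep (T h) o (sym n T h) := rfl
    rw [hs] at hl ⊢
    cases hins : T h with
    | const c =>
      rw [hins] at hl
      simp only [sstep, SSt.val, getD_app] at hl ⊢
      split_ifs at hl with h1 h2
      · exact ih i l hl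
      · exact absurd rfl hl
      · exact absurd rfl hl
    | mul a b =>
      rw [hins] at hl
      simp only [sstep, SSt.val, getD_app] at hl ⊢
      split_ifs at hl with h1 h2
      · exact ih i l hl
      · rw [Finsupp.add_apply] at hl
        by_cases h3 : ((sym n T h).val a).2 l = 0
        · refine ih b l fun h4 => hl ?_
          simp only [SSt.val] at h3 h4
          rw [h3, h4, add_zero]
        · exact ih a l h3
      · exact absurd rfl hl
    | div a b =>
      rw [hins] at hl
      simp only [sstep, SSt.val, getD_app] at hl ⊢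
      split_ifs at hl with h1 h2 h3
      · exact ih i l hl
      · exact absurd rfl hl
      · rw [Finsupp.sub_apply] at hl
        by_cases h3 : ((sym n T h).val a).2 l = 0
        · refine ih b l fun h4 => hl ?_
          simp only [SSt.val] at h3 h4
          rw [h3, h4, sub_zero]
        · exact ih a l h3
      · exact absurd rfl hl
    | gate r F j =>
      rw [hins] at hl
      simp only [sstep, SSt.val, getD_app, hlen] at hl ⊢
      split_ifs at hl with h1 h2
      · have := ih i l hl
        omega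
      · by_cases h3 : l = n + 1 + (sym n T h).atoms.length
        · omega
        · rw [Finsupp.sub_apply, Finsupp.single_eq_of_ne h3, zero_sub, neg_ne_zero,
            Finsupp.smul_apply] at hl
          have h4 : negs (fun k => ((sym n T h).vals.getD (j k) (0, 0)).2) l ≠ 0 := by
            intro h4
            rw [h4, smul_zero] at hl
            exact hl rfl
          obtain ⟨k, hk⟩ := negs_ne h4
          have := ih (j k) l (ne_of_lt hk)
          omega
      · exact absurd rfl hl
    | test i => rw [hins] at hl; exact ih _ _ hl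
    | answer b => rw [hins] at hl; exact ih _ _ hl

theorem sim_val (P : K → Prop) (T : GTree K) (x : (Fin n → K) × K) (k i : ℕ) :
    (T.run P x k).val i = ((sym n T (T.run P x k).hist).val i).1 *
      ((sym n T (T.run P x k).hist).val i).2.prod
        fun l m => (sym n T (T.run P x k).hist).ev x l ^ m := by
  have H := Sim.inv P T x k
  rw [H.val i]
  congr 1
  rw [Finsupp.prod]
  symm
  refine Finset.prod_subset ?_ ?_
  · intro l hl
    exact Finset.mem_range.2 (H.supp i l (Finsupp.mem_support_iff.1 hl))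
  · intro l _ hl
    rw [Finsupp.notMem_support_iff.1 hl, zpow_zero]

/-- the same with a product over all atoms -/
theorem sim_val' (P : K → Prop) (T : GTree K) (x : (Fin n → K) × K) (k i : ℕ) :
    (T.run P x k).val i = ((sym n T (T.run P x k).hist).val i).1 *
      ∏ l ∈ range (n + 1 + (sym n T (T.run P x k).hist).atoms.length),
        (sym n T (T.run P x k).hist).ev x l ^ ((sym n T (T.run P x k).hist).val i).2 l :=
  (Sim.inv P T x k).val i

theorem sim_neg (P : K → Prop) (T : GTree K) (x : (Fin n → K) × K) (k i l : ℕ)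
    (hl : ((sym n T (T.run P x k).hist).val i).2 l < 0) :
    (sym n T (T.run P x k).hist).ev x l ≠ 0 :=
  (Sim.inv P T x k).neg i l hl

/-- a value is zero iff its factor is zero or an atom that occurs in it is zero -/
theorem val_zero (P : K → Prop) (T : GTree K) (x : (Fin n → K) × K) (k i : ℕ) :
    (T.run P x k).val i = 0 ↔ ((sym n T (T.run P x k).hist).val i).1 = 0 ∨
      ∃ l < n + 1 + (sym n T (T.run P x k).hist).atoms.length,
        ((sym n T (T.run P x k).hist).val i).2 l ≠ 0 ∧
          (sym n T (T.run P x k).hist).ev x l = 0 := by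
  rw [sim_val' P T x k i, mul_eq_zero, Finset.prod_eq_zero_iff]
  refine or_congr Iff.rfl ?_
  constructor
  · rintro ⟨l, hl, h⟩
    refine ⟨l, Finset.mem_range.1 hl, ?_, ?_⟩
    · intro h1
      rw [h1, zpow_zero] at h
      exact one_ne_zero h
    · by_contra h2
      exact zpow_ne_zero _ h2 h
  · rintro ⟨l, hl, h1, h2⟩
    refine ⟨l, Finset.mem_range.2 hl, ?_⟩
    rw [h2, zero_zpow _ h1]

/-! ### test polynomials -/

theorem pf_tpol (s : SSt K n) (i : ℕ) (x : (Fin n → K) × K) :
    pf (s.tpol i) x = (s.val i).1 *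
      ∏ l ∈ range (n + 1 + s.atoms.length), s.ev x l ^ ((s.val i).2 l).natAbs := by
  unfold SSt.tpol
  rw [pf_mul, pf_cc, pf_mono]

theorem tpol_zero (P : K → Prop) (T : GTree K) (x : (Fin n → K) × K) (k i : ℕ) :
    (T.run P x k).val i = 0 ↔ pf ((sym n T (T.run P x k).hist).tpol i) x = 0 := by
  rw [val_zero, pf_tpol, mul_eq_zero, Finset.prod_eq_zero_iff]
  refine or_congr Iff.rfl ?_
  constructor
  · rintro ⟨l, hl, h1, h2⟩
    refine ⟨l, Finset.mem_range.2 hl, ?_⟩
    rw [h2, zero_pow (Int.natAbs_ne_zero.2 h1)]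
  · rintro ⟨l, hl, h⟩
    refine ⟨l, Finset.mem_range.1 hl, ?_, eq_zero_of_pow_eq_zero h⟩
    intro h1
    rw [h1, Int.natAbs_zero, pow_zero] at h
    exact one_ne_zero h

/-- if a test polynomial vanishes at one point of a line but not on the line, then so does an
atom -/
theorem tpol_atom (T : GTree K) (h : List Bool) (i : ℕ) (a : Fin n → K) (b b' : K)
    (h0 : pf ((sym n T h).tpol i) (a, b) = 0)
    (h1 : pf ((sym n T h).tpol i) (a, b') ≠ 0) :
    ∃ l, n ≤ l ∧ l < n + 1 + (sym n T h).atoms.length ∧
      ((sym n T h).val i).2 l ≠ 0 ∧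
      (sym n T h).ev (a, b') l ≠ 0 ∧ (sym n T h).ev (a, b) l = 0 := by
  rw [pf_tpol] at h0 h1
  obtain ⟨hc, hp⟩ := mul_ne_zero_iff.1 h1
  have h2 := (mul_eq_zero.1 h0).resolve_left hc
  obtain ⟨l, hl, h3⟩ := Finset.prod_eq_zero_iff.1 h2
  have h4 := (Finset.prod_ne_zero_iff.1 hp) l hl
  have h5 : (sym n T h).ev (a, b) l = 0 := eq_zero_of_pow_eq_zero h3
  have h9 : (((sym n T h).val i).2 l).natAbs ≠ 0 := by
    intro h9
    rw [h9, pow_zero] at h3
    exact one_ne_zero h3
  have h6 : (sym n T h).ev (a, b') l ≠ 0 := by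
    intro h7
    apply h4
    rw [h7]
    exact zero_pow h9
  refine ⟨l, ?_, Finset.mem_range.1 hl, Int.natAbs_ne_zero.1 h9, h6, h5⟩
  by_contra hcon
  push Not at hcon
  apply h6
  rw [ev_lt _ _ hcon] at h5 ⊢
  exact h5

/-! ### order tests -/

section Real

theorem sign_inv_real (a : ℝ) : SignType.sign a⁻¹ = SignType.sign a := by
  rcases lt_trichotomy a 0 with h | h | h
  · rw [sign_neg h, sign_neg (inv_lt_zero.2 h)]
  · rw [h, inv_zero]
  · rw [sign_pos h, sign_pos (inv_pos.2 h)]

theorem sign_zpow_natAbs (a : ℝ) (m : ℤ) :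
    SignType.sign (a ^ m) = SignType.sign (a ^ m.natAbs) := by
  rcases Int.natAbs_eq m with h | h
  · conv_lhs => rw [h]
    rw [zpow_natCast]
  · conv_lhs => rw [h]
    rw [zpow_neg, zpow_natCast, sign_inv_real]

theorem sign_prod {t : Finset ℕ} (f : ℕ → ℝ) :
    SignType.sign (∏ l ∈ t, f l) = ∏ l ∈ t, SignType.sign (f l) :=
  map_prod signHom f t

/-- the sign of a value is the sign of its test polynomial -/
theorem sign_val (P : ℝ → Prop) (T : GTree ℝ) (x : (Fin n → ℝ) × ℝ) (k i : ℕ) :
    SignType.sign ((T.run P x k).val i) =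
      SignType.sign (pf ((sym n T (T.run P x k).hist).tpol i) x) := by
  rw [sim_val', pf_tpol, sign_mul, sign_mul]
  congr 1
  rw [sign_prod, sign_prod]
  exact Finset.prod_congr rfl fun l _ => sign_zpow_natAbs _ _

theorem tpol_nonneg (P : ℝ → Prop) (T : GTree ℝ) (x : (Fin n → ℝ) × ℝ) (k i : ℕ) :
    0 ≤ (T.run P x k).val i ↔ 0 ≤ pf ((sym n T (T.run P x k).hist).tpol i) x := by
  rw [← sign_nonneg_iff, sign_val, sign_nonneg_iff]

end Real

end Pool.Agent.Lib.MP_641cb6_lc.KG
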