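import Pool.Agent.Lib.MP_641cb6_lc.KG.Defs

/-!
# Numbers for the complex side
-/

set_option autoImplicit false

namespace Pool.Agent.Lib.MP_641cb6_lc.KG

/-- the bound for the number of slopes of the Newton polygons of a chain -/
def BG (q d s : ℕ) : ℕ := (2 * C1 (s * (q + 1)) d + 1) ^ s

theorem C1_mono {r r' : ℕ} (h : r ≤ r') (d : ℕ) : C1 r d ≤ C1 r' d := by
  unfold C1
  refine Nat.mul_le_mul (Nat.pow_le_pow_right (by omega) (by omega)) ?_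
  refine (Nat.pow_le_pow_left (by omega : 6 * r + 7 ≤ 6 * r' + 7) _).trans ?_
  exact Nat.pow_le_pow_right (by omega) (Nat.pow_le_pow_left (by omega) 2)

theorem C1_mono_d (r : ℕ) {d d' : ℕ} (h : d ≤ d') : C1 r d ≤ C1 r d' := by
  unfold C1
  exact Nat.mul_le_mul_right _ (Nat.pow_le_pow_left (by omega) _)

theorem BG_mono (q d : ℕ) : Monotone (BG q d) := by
  intro s s' h
  unfold BG
  refine (Nat.pow_le_pow_left ?_ s).trans (Nat.pow_le_pow_right (by omega) h)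
  have := C1_mono (Nat.mul_le_mul_right (q + 1) h) d
  omega

/-- the polynomial form -/
theorem BG_poly {c n : ℕ} (hn : c + 4 ≤ n) :
    n ^ c * BG (n ^ c + 1) (2 ^ n ^ c) (n ^ c) < 2 ^ n ^ (5 * c + 5) := by
  have hn0 : 0 < n := by omega
  have hA : 1 ≤ n ^ c := Nat.one_le_pow _ _ hn0
  have hexp : n ^ (5 * c + 5) = n ^ 5 * (n ^ c) ^ 5 := by ring
  have hA2 : n ^ c ≤ 2 ^ (n * c) := by
    rw [pow_mul]
    exact Nat.pow_le_pow_left (Nat.lt_two_pow_self).le c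
  rw [hexp]
  generalize n ^ c = A at hA hA2
  unfold BG
  -- the number of functions
  have hr : A * (A + 1 + 1) ≤ 3 * A ^ 2 := by nlinarith
  have hC : C1 (A * (A + 1 + 1)) (2 ^ A) ≤ 2 ^ (14 * A ^ 3 + 64 * A ^ 4 * (5 + 2 * (n * c))) := by
    refine (C1_mono hr _).trans ?_
    unfold C1
    have h1 : 2 ^ A + 2 ≤ 2 ^ (A + 1) := by
      have h2 : 2 ^ 1 ≤ 2 ^ A := Nat.pow_le_pow_right (by norm_num) hA
      rw [pow_succ]
      omega
    have h2 : (2 ^ A + 2) ^ (2 * (3 * A ^ 2) + 1) ≤ 2 ^ (14 * A ^ 3) := by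
      refine (Nat.pow_le_pow_left h1 _).trans ?_
      rw [← pow_mul]
      refine Nat.pow_le_pow_right (by norm_num) ?_
      have h3 : A + 1 ≤ 2 * A := by omega
      have h4 : 2 * (3 * A ^ 2) + 1 ≤ 7 * A ^ 2 := by nlinarith
      calc (A + 1) * (2 * (3 * A ^ 2) + 1) ≤ 2 * A * (7 * A ^ 2) := Nat.mul_le_mul h3 h4
        _ = 14 * A ^ 3 := by ring
    have h5 : 6 * (3 * A ^ 2) + 7 ≤ 2 ^ (5 + 2 * (n * c)) := by
      have h6 : A ^ 2 ≤ 2 ^ (2 * (n * c)) := by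
        rw [mul_comm, pow_mul]
        exact Nat.pow_le_pow_left hA2 2
      rw [pow_add]
      nlinarith
    have h7 : (6 * (3 * A ^ 2) + 7) ^ (2 * (3 * A ^ 2) + 2) ^ 2 ≤
        2 ^ (64 * A ^ 4 * (5 + 2 * (n * c))) := by
      refine (Nat.pow_le_pow_left h5 _).trans ?_
      rw [← pow_mul]
      refine Nat.pow_le_pow_right (by norm_num) ?_
      have h8 : 2 * (3 * A ^ 2) + 2 ≤ 8 * A ^ 2 := by nlinarith
      have h9 : (2 * (3 * A ^ 2) + 2) ^ 2 ≤ 64 * A ^ 4 := by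
        calc (2 * (3 * A ^ 2) + 2) ^ 2 ≤ (8 * A ^ 2) ^ 2 := Nat.pow_le_pow_left h8 2
          _ = 64 * A ^ 4 := by ring
      calc (5 + 2 * (n * c)) * (2 * (3 * A ^ 2) + 2) ^ 2 ≤
            (5 + 2 * (n * c)) * (64 * A ^ 4) := Nat.mul_le_mul_left _ h9
        _ = 64 * A ^ 4 * (5 + 2 * (n * c)) := by ring
    exact (Nat.mul_le_mul h2 h7).trans_eq (pow_add 2 _ _).symm
  set E := 14 * A ^ 3 + 64 * A ^ 4 * (5 + 2 * (n * c)) with hE
  have h1 : 2 * C1 (A * (A + 1 + 1)) (2 ^ A) + 1 ≤ 2 ^ (E + 2) := by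
    have h2 : 1 ≤ 2 ^ E := Nat.one_le_two_pow
    rw [pow_add]
    omega
  have h2 : (2 * C1 (A * (A + 1 + 1)) (2 ^ A) + 1) ^ A ≤ 2 ^ ((E + 2) * A) := by
    rw [pow_mul]
    exact Nat.pow_le_pow_left h1 A
  have h3 : E + 2 ≤ A ^ 4 * (336 + 128 * (n * c)) := by
    have h4 : A ^ 3 ≤ A ^ 4 := Nat.pow_le_pow_right hA (by norm_num)
    have h5 : 1 ≤ A ^ 4 := Nat.one_le_pow _ _ hA
    rw [hE]
    nlinarith
  have h4 : n * c + (E + 2) * A < n ^ 5 * A ^ 5 := by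
    have h5 : (E + 2) * A ≤ A ^ 5 * (336 + 128 * (n * c)) := by
      calc (E + 2) * A ≤ A ^ 4 * (336 + 128 * (n * c)) * A := Nat.mul_le_mul_right _ h3
        _ = A ^ 5 * (336 + 128 * (n * c)) := by ring
    have h6 : 1 ≤ A ^ 5 := Nat.one_le_pow _ _ hA
    have h7 : n * c + 1 ≤ A ^ 5 * (n * c + 1) := Nat.le_mul_of_pos_left _ h6
    have h8 : 337 + 129 * (n * c) ≤ n ^ 5 := by
      obtain ⟨d, rfl⟩ := Nat.exists_eq_add_of_le (show 4 ≤ n by omega)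
      have h9 : c ≤ d := by omega
      have h10 : (4 + d) * c ≤ (4 + d) * d := Nat.mul_le_mul_left _ h9
      have h11 : (4 + d) ^ 5 = d ^ 5 + 20 * d ^ 4 + 160 * d ^ 3 + 640 * d ^ 2 + 1280 * d +
        1024 := by ring
      rw [h11]
      nlinarith [Nat.zero_le (d ^ 5), Nat.zero_le (d ^ 4), Nat.zero_le (d ^ 3)]
    have h9 : (337 + 129 * (n * c)) * A ^ 5 ≤ n ^ 5 * A ^ 5 := Nat.mul_le_mul_right _ h8
    nlinarith
  calc A * (2 * C1 (A * (A + 1 + 1)) (2 ^ A) + 1) ^ A ≤ 2 ^ (n * c) * 2 ^ ((E + 2) * A) :=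
        Nat.mul_le_mul hA2 h2
    _ = 2 ^ (n * c + (E + 2) * A) := by rw [pow_add]
    _ < 2 ^ (n ^ 5 * A ^ 5) := Nat.pow_lt_pow_right (by norm_num) h4

/-- the polynomial form for the size of a history -/
theorem BG_lt {c n s : ℕ} (hn : c + 4 ≤ n)
    (h : 2 ^ n ^ (5 * c + 5) < BG (n ^ c + 1) (2 ^ n ^ c) s) : n ^ c < s := by
  by_contra hcon
  have h1 := BG_mono (n ^ c + 1) (2 ^ n ^ c) (not_lt.1 hcon)
  have h2 := BG_poly hn
  have h3 : BG (n ^ c + 1) (2 ^ n ^ c) (n ^ c) ≤ n ^ c * BG (n ^ c + 1) (2 ^ n ^ c) (n ^ c) :=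
    Nat.le_mul_of_pos_left _ (by have : 0 < n := by omega
                                 positivity)
  omega

end Pool.Agent.Lib.MP_641cb6_lc.KG
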