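import Pool.Agent.Lib.MP_641cb6_lc.KG.Defs

/-!
# The first difference of two runs of a tree with gates and equality tests
-/

set_option autoImplicit false

namespace Pool.Agent.Lib.MP_641cb6_lc.KG

variable {K : Type} [Field K]

namespace Diff

/-- the state does not change after an answer -/
theorem run_stable (P : K → Prop) (T : GTree K) {n : ℕ} (x : (Fin n → K) × K) {k : ℕ} {c : Bool}
    (h : T (T.run P x k).hist = .answer c) : ∀ j, T.run P x (k + j) = T.run P x k := by
  intro j
  induction j with
  | zero => rfl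
  | succ j ih =>
    rw [← Nat.add_assoc]
    show T.step P (T.run P x (k + j)) = _
    rw [ih]
    unfold GTree.step
    rw [h]

theorem answer_unique (P : K → Prop) (T : GTree K) {n : ℕ} (x : (Fin n → K) × K) {k k' : ℕ}
    {c c' : Bool} (h : T (T.run P x k).hist = .answer c)
    (h' : T (T.run P x k').hist = .answer c') : c = c' := by
  rcases le_total k k' with hk | hk
  · obtain ⟨j, rfl⟩ := Nat.exists_eq_add_of_le hk
    rw [run_stable P T x h, h] at h'
    exact Ins.answer.inj h'
  · obtain ⟨j, rfl⟩ := Nat.exists_eq_add_of_le hk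
    rw [run_stable P T x h', h'] at h
    exact (Ins.answer.inj h).symm

/-- the equality test -/
def Pc (K : Type) [Field K] : K → Prop := fun v => v = 0

/-- If the histories differ after one more step, then the tree branches on a value that vanishes
at exactly one of the two inputs. -/
theorem differ (T : GTree K) {n : ℕ} (x y : (Fin n → K) × K) {k : ℕ}
    (h : (T.run (Pc K) x k).hist = (T.run (Pc K) y k).hist)
    (h' : (T.run (Pc K) x (k + 1)).hist ≠ (T.run (Pc K) y (k + 1)).hist) :
    ∃ i, Branches (T (T.run (Pc K) x k).hist) i ∧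
      ¬ ((T.run (Pc K) x k).val i = 0 ↔ (T.run (Pc K) y k).val i = 0) := by
  have h1 : T.run (Pc K) x (k + 1) = T.step (Pc K) (T.run (Pc K) x k) := rfl
  have h2 : T.run (Pc K) y (k + 1) = T.step (Pc K) (T.run (Pc K) y k) := rfl
  rw [h1, h2] at h'
  unfold GTree.step at h'
  rw [← h] at h'
  cases hT : T (T.run (Pc K) x k).hist with
  | const c => rw [hT] at h'; exact absurd rfl h'
  | mul i j => rw [hT] at h'; exact absurd rfl h'
  | div i l =>
    rw [hT] at h'
    refine ⟨l, rfl, fun hl => h' ?_⟩
    exact congrArg (fun b : Bool => b :: (T.run (Pc K) x k).hist) (decide_eq_decide.2 hl)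
  | gate r F i => rw [hT] at h'; exact absurd rfl h'
  | test i =>
    rw [hT] at h'
    refine ⟨i, rfl, fun hl => h' ?_⟩
    exact congrArg (fun b : Bool => b :: (T.run (Pc K) x k).hist) (decide_eq_decide.2 hl)
  | answer b =>
    rw [hT] at h'
    exact absurd h h'

end Diff

open Diff

theorem first_diff {n N : ℕ} {T : Fin N → GTree K} {Φ : (Fin N → Bool) → Prop}
    {S : Set ((Fin n → K) × K)} (hdec : Decides (fun v : K => v = 0) T Φ S)
    {x x' : (Fin n → K) × K} (hx : x ∉ S) (hx' : x' ∈ S) {k : Fin N → ℕ} {b : Fin N → Bool}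
    (hk : ∀ w, T w ((T w).run (fun v : K => v = 0) x (k w)).hist = .answer (b w)) :
    ∃ w j i, j < k w ∧ ((T w).run (fun v : K => v = 0) x j).hist =
      ((T w).run (fun v : K => v = 0) x' j).hist ∧
      Branches (T w ((T w).run (fun v : K => v = 0) x j).hist) i ∧
      ¬ (((T w).run (fun v : K => v = 0) x j).val i = 0 ↔
        ((T w).run (fun v : K => v = 0) x' j).val i = 0) := by
  classical
  obtain ⟨k₁, b₁, h1, h1'⟩ := hdec x
  obtain ⟨k₂, b₂, h2, h2'⟩ := hdec x'
  have hb1 : b₁ = b := by
    funext w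
    exact answer_unique _ (T w) x (h1 w) (hk w)
  subst hb1
  have hne : b₁ ≠ b₂ := by
    rintro rfl
    exact hx (h1'.1 (h2'.2 hx'))
  obtain ⟨w, hw⟩ := Function.ne_iff.1 hne
  have hex : ∃ l, ((T w).run (Pc K) x l).hist ≠ ((T w).run (Pc K) x' l).hist := by
    refine ⟨k w, fun heq => hw ?_⟩
    have h3 : T w ((T w).run (Pc K) x' (k w)).hist = .answer (b₁ w) := by
      rw [← heq]
      exact hk w
    exact answer_unique _ (T w) x' h3 (h2 w)
  have hle : Nat.find hex ≤ k w := by
    refine Nat.find_min' hex fun heq => hw ?_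
    have h3 : T w ((T w).run (Pc K) x' (k w)).hist = .answer (b₁ w) := by
      rw [← heq]
      exact hk w
    exact answer_unique _ (T w) x' h3 (h2 w)
  have hspec := Nat.find_spec hex
  have hmin : ∀ j < Nat.find hex,
      ((T w).run (Pc K) x j).hist = ((T w).run (Pc K) x' j).hist := by
    intro j hj
    by_contra hcon
    exact Nat.find_min hex hj hcon
  obtain ⟨j, hj⟩ : ∃ j, Nat.find hex = j + 1 := by
    cases hl : Nat.find hex with
    | zero => rw [hl] at hspec; exact absurd rfl hspec
    | succ j => exact ⟨j, rfl⟩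
  rw [hj] at hle hspec hmin
  have hjj := hmin j (Nat.lt_succ_self j)
  obtain ⟨i, hi, hi'⟩ := differ (T w) x x' hjj hspec
  exact ⟨w, j, i, hle, hjj, hi, hi'⟩

end Pool.Agent.Lib.MP_641cb6_lc.KG
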