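import Pool.Agent.Lib.MP_641cb6_lc.KG.Rel
import Pool.Agent.Lib.MP_641cb6_lc.KC.Spec

/-!
# The chain of the gates on which a gate depends
-/

set_option autoImplicit false

namespace Pool.Agent.Lib.MP_641cb6_lc.KG

open Finset
open Pool.Agent.Lib.MP_641cb6_lc.KD (Deps en en_lt en_injOn en_mem en_pos en_surj en_below prod_sub)

/-- constants can be moved from the arguments to the polynomial -/
theorem scale {K A : Type} [Field K] [CommRing A] (f : K →+* A) {q : ℕ}
    (F : MvPolynomial (Fin q) K) (c : Fin q → K) :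
    ∃ F' : MvPolynomial (Fin q) K, F'.totalDegree ≤ F.totalDegree ∧ ∀ g : Fin q → A,
      MvPolynomial.eval₂ f (fun i => f (c i) * g i) F = MvPolynomial.eval₂ f g F' := by
  classical
  refine ⟨∑ ν ∈ F.support, MvPolynomial.monomial ν (F.coeff ν * ∏ i, c i ^ ν i), ?_, fun g => ?_⟩
  · refine (MvPolynomial.totalDegree_finsetSum _ _).trans (Finset.sup_le fun ν hν => ?_)
    exact (MvPolynomial.totalDegree_monomial_le _ _).trans (MvPolynomial.le_totalDegree hν)
  · rw [MvPolynomial.eval₂_eq', MvPolynomial.eval₂_sum]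
    refine Finset.sum_congr rfl fun ν _ => ?_
    rw [MvPolynomial.eval₂_monomial, Finsupp.prod_fintype _ _ (fun _ => pow_zero _), map_mul,
      map_prod]
    simp only [mul_pow, Finset.prod_mul_distrib, map_pow]
    ring

/-- subchains over `ℝ` -/
theorem subRG {φ : ℕ → Polynomial ℝ} {t q d : ℕ} (E : ℕ → Finset ℕ) (h0 : φ 0 = Polynomial.X)
    (h : ∀ k < t, ∃ (F : MvPolynomial (Fin q) ℝ) (c : Fin q → ℝ) (α : Fin q → ℕ → ℕ),
      F.totalDegree ≤ d ∧ φ (k + 1) = MvPolynomial.eval₂ Polynomial.C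
        (fun i => Polynomial.C (c i) * ∏ j ∈ range (k + 1), φ j ^ α i j) F ∧
        ∀ i j, 1 ≤ j → α i j ≠ 0 → j - 1 ∈ E k)
    (D : Finset ℕ) (hD : ∀ a ∈ D, a < t) (hcl : ∀ a ∈ D, E a ⊆ D) :
    IsRG (fun j => φ (en D j)) q d D.card := by
  refine ⟨h0, fun l hl hl' => ?_⟩
  have hm := en_mem D hl hl'
  have hp := en_pos D hl hl'
  obtain ⟨k, hk⟩ : ∃ k, en D l = k + 1 := ⟨en D l - 1, by omega⟩
  rw [hk, Nat.add_sub_cancel] at hm
  obtain ⟨F, c, α, hF, he, h1⟩ := h k (hD k hm)
  obtain ⟨F', hF', hF2⟩ := scale Polynomial.C F c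
  refine ⟨F', fun i j => α i (en D j), hF'.trans hF, ?_⟩
  have key : ∀ i, ∏ j ∈ range (k + 1), φ j ^ α i j =
      ∏ j ∈ range l, φ (en D j) ^ α i (en D j) := by
    intro i
    refine prod_sub φ (α i) (en D) (en_injOn D (by omega)) (fun j hj => ?_) fun j hj hne => ?_
    · have := en_lt D hj hl'
      omega
    · exact en_below D hl' (by omega) fun h3 => hcl k hm (h1 i j h3 hne)
  show φ (en D l) = _
  rw [hk, he, hF2]
  congr 1
  funext i
  exact key i

/-- subchains over `ℂ` -/
theorem subCG {φ : ℕ → KC.P2} {t q d : ℕ} (E : ℕ → Finset ℕ) (h0 : φ 0 = Polynomial.X)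
    (h : ∀ k < t, ∃ (F : MvPolynomial (Fin q) ℂ) (κ : Fin q → Polynomial ℂ)
      (α : Fin q → ℕ → ℕ), F.totalDegree ≤ d ∧
      φ (k + 1) = MvPolynomial.eval₂ (Polynomial.C.comp Polynomial.C)
        (fun i => KC.mon φ (k + 1) (κ i) (α i)) F ∧
        ∀ i j, 1 ≤ j → α i j ≠ 0 → j - 1 ∈ E k)
    (D : Finset ℕ) (hD : ∀ a ∈ D, a < t) (hcl : ∀ a ∈ D, E a ⊆ D) :
    IsCG (fun j => φ (en D j)) q d D.card := by
  refine ⟨h0, fun l hl hl' => ?_⟩
  have hm := en_mem D hl hl'
  have hp := en_pos D hl hl'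
  obtain ⟨k, hk⟩ : ∃ k, en D l = k + 1 := ⟨en D l - 1, by omega⟩
  rw [hk, Nat.add_sub_cancel] at hm
  obtain ⟨F, κ, α, hF, he, h1⟩ := h k (hD k hm)
  refine ⟨F, κ, fun i j => α i (en D j), hF, ?_⟩
  have key : ∀ i, KC.mon φ (k + 1) (κ i) (α i) =
      KC.mon (fun j => φ (en D j)) l (κ i) (fun j => α i (en D j)) := by
    intro i
    unfold KC.mon
    congr 1
    refine prod_sub φ (α i) (en D) (en_injOn D (by omega)) (fun j hj => ?_) fun j hj hne => ?_
    · have := en_lt D hj hl'
      omega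
    · exact en_below D hl' (by omega) fun h3 => hcl k hm (h1 i j h3 hne)
  show φ (en D l) = _
  rw [hk, he]
  congr 1
  funext i
  exact key i

/-- the atoms restricted to the line `{x} × ℝ`, starting with `b` -/
noncomputable def lineG {n : ℕ} (S : SSt ℝ n) (x : Fin n → ℝ) (j : ℕ) : Polynomial ℝ :=
  (S.atom (n + j)).map (MvPolynomial.eval x)

/-- the chain of a set of gates on a line -/
theorem line_sub {n a D : ℕ} {S : SSt ℝ n} {d : Deps} (H : Rel a D S d) (x : Fin n → ℝ)
    (A : Finset ℕ) (hA : ∀ b ∈ A, b < S.atoms.length) (hcl : ∀ b ∈ A, d.sum b ⊆ A) :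
    IsRG (fun j => lineG S x (en A j)) (a + 1) D A.card := by
  refine subRG (φ := lineG S x) (t := S.atoms.length) d.sum ?_ ?_ A hA hcl
  · show (S.atom (n + 0)).map (MvPolynomial.eval x) = Polynomial.X
    rw [SSt.atom, dif_neg (by omega), if_pos (by omega), Polynomial.map_X]
  · intro k hk
    obtain ⟨F, α, hF, he, h1⟩ := H.chn k hk
    rw [show n + 1 + k = n + (k + 1) by omega] at he
    refine ⟨F, fun i => ∏ j ∈ range n, (if h : j < n then x ⟨j, h⟩ else 1) ^ α i j,
      fun i j => α i (n + j), hF, ?_, ?_⟩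
    · show (S.atom (n + (k + 1))).map (MvPolynomial.eval x) = _
      rw [he, ← Polynomial.coe_mapRingHom, MvPolynomial.hom_eval₂]
      have e1 : (Polynomial.mapRingHom (MvPolynomial.eval x)).comp (cc ℝ n) = Polynomial.C := by
        ext c
        simp [cc]
      rw [e1]
      congr 1
      funext i
      simp only [Function.comp_apply, Polynomial.coe_mapRingHom]
      rw [Polynomial.map_prod, Finset.prod_range_add, map_prod]
      congr 1
      · refine Finset.prod_congr rfl fun j hj => ?_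
        have hj' := Finset.mem_range.1 hj
        rw [Polynomial.map_pow, SSt.atom, dif_pos hj', Polynomial.map_C, MvPolynomial.eval_X,
          dif_pos hj', Polynomial.C_pow]
      · refine Finset.prod_congr rfl fun j _ => ?_
        rw [Polynomial.map_pow]
        rfl
    · intro i j hj hne
      have := h1 i (n + j) (by omega) hne
      rwa [show n + j - (n + 1) = j - 1 by omega] at this

open Pool.Agent.Lib.MP_641cb6_lc.KC (sp mon P2) in
/-- the chain of a set of gates after the substitution `a i = c i * R ^ q i` -/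
theorem spec_sub {n a D : ℕ} {S : SSt ℂ n} {d : Deps} (H : Rel a D S d) (c : Fin n → ℂ)
    (q : Fin n → ℕ) (A : Finset ℕ) (hA : ∀ b ∈ A, b < S.atoms.length)
    (hcl : ∀ b ∈ A, d.sum b ⊆ A) :
    IsCG (fun j => (S.atom (n + en A j)).map (sp c q)) (a + 1) D A.card := by
  refine subCG (φ := fun j => (S.atom (n + j)).map (sp c q)) (t := S.atoms.length) d.sum
    ?_ ?_ A hA hcl
  · show (S.atom (n + 0)).map (sp c q) = Polynomial.X
    rw [SSt.atom, dif_neg (by omega), if_pos (by omega), Polynomial.map_X]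
  · intro k hk
    obtain ⟨F, α, hF, he, h1⟩ := H.chn k hk
    rw [show n + 1 + k = n + (k + 1) by omega] at he
    refine ⟨F, fun i => ∏ j ∈ range n,
      (if h : j < n then Polynomial.C (c ⟨j, h⟩) * Polynomial.X ^ q ⟨j, h⟩ else 1) ^ α i j,
      fun i j => α i (n + j), hF, ?_, ?_⟩
    · show (S.atom (n + (k + 1))).map (sp c q) = _
      rw [he, ← Polynomial.coe_mapRingHom, MvPolynomial.hom_eval₂]
      have e1 : (Polynomial.mapRingHom (sp c q)).comp (cc ℂ n) =
          Polynomial.C.comp Polynomial.C := by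
        refine RingHom.ext fun z => ?_
        simp only [cc, RingHom.comp_apply, Polynomial.coe_mapRingHom, Polynomial.map_C,
          KC.Spec.sp_C]
      rw [e1]
      congr 1
      funext i
      simp only [Function.comp_apply, Polynomial.coe_mapRingHom]
      rw [Polynomial.map_prod, Finset.prod_range_add, mon, map_prod]
      congr 1
      · refine Finset.prod_congr rfl fun j hj => ?_
        have hj' := Finset.mem_range.1 hj
        rw [Polynomial.map_pow, SSt.atom, dif_pos hj', Polynomial.map_C, KC.Spec.sp_X,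
          dif_pos hj', Polynomial.C_pow]
      · refine Finset.prod_congr rfl fun j _ => ?_
        rw [Polynomial.map_pow]
    · intro i j hj hne
      have := h1 i (n + j) (by omega) hne
      rwa [show n + j - (n + 1) = j - 1 by omega] at this

end Pool.Agent.Lib.MP_641cb6_lc.KG
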