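import Pool.Agent.Lib.MP_641cb6_lc.KG.Sim
import Pool.Agent.Lib.MP_641cb6_lc.KG.Sub
import Pool.Agent.Lib.MP_641cb6_lc.KG.Diff
import Pool.Agent.Lib.MP_641cb6_lc.KC.Ttree

/-!
# The tower: one of the gates depends on many gates

The bound for the number of slopes of the Newton polygons of a chain is a parameter here.
-/

set_option autoImplicit false

namespace Pool.Agent.Lib.MP_641cb6_lc.KG

open Finset Filter Topology
open Pool.Agent.Lib.MP_641cb6_lc
open Pool.Agent.Lib.MP_641cb6_lc.KD (Deps en en_lt en_injOn en_mem en_pos en_surj en_below)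
open Pool.Agent.Lib.MP_641cb6_lc.KC (P2 Dom sp spec_val spec_ne dom_root_lim gen_off gen_tower
  TowerSet tpar tpar_mem mem_tpar branch_point vx extB extB_inj)

/-- `B q d s` bounds the number of slopes of the Newton polygons of a chain of length `s` -/
def Slopes (B : ℕ → ℕ → ℕ → ℕ) : Prop :=
  ∀ (φ : ℕ → P2) (q d s : ℕ), IsCG φ q d s → ∀ Z : Finset ℝ,
    (∀ t ∈ Z, ∃ l ≤ s, φ l ≠ 0 ∧ ∀ m, ¬ Dom (φ l) t m) → Z.card + 1 ≤ B q d s

theorem pf_eq_polyFunC {n : ℕ} (P : Pol ℂ n) (x : (Fin n → ℂ) × ℂ) : pf P x = polyFunC P x := rfl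

/-- The slopes of the Newton polygon of one gate are bounded in terms of the number of gates on
which it depends. -/
theorem breaks_gate {B : ℕ → ℕ → ℕ → ℕ} (hB : Slopes B) {n a D : ℕ} {S : SSt ℂ n} {d : Deps}
    (H : Rel a D S d) (c : Fin n → ℂ) (q : Fin n → ℕ)
    {k : ℕ} (hk : k < S.atoms.length) (h0 : (S.atom (n + 1 + k)).map (sp c q) ≠ 0)
    (Z : Finset ℝ) (hZ : ∀ t ∈ Z, ∀ m, ¬ Dom ((S.atom (n + 1 + k)).map (sp c q)) t m) :
    Z.card + 1 ≤ B (a + 1) D (d.sum k).card := by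
  have hself : k ∈ d.sum k := H.selfs k (by rw [H.lens]; exact hk)
  obtain ⟨j, hj1, hj2, hj3⟩ := en_surj (d.sum k) hself
  refine hB _ _ _ _ (spec_sub H c q (d.sum k) (fun b hb => ?_) (fun b hb => H.cls k b hb)) Z
    fun t ht => ⟨j, hj2, ?_, ?_⟩
  · have := H.bds k b hb
    omega
  · show (S.atom (n + en (d.sum k) j)).map (sp c q) ≠ 0
    rw [hj3, show n + (k + 1) = n + 1 + k by omega]
    exact h0
  · show ∀ m, ¬ Dom ((S.atom (n + en (d.sum k) j)).map (sp c q)) t m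
    rw [hj3, show n + (k + 1) = n + 1 + k by omega]
    exact hZ t ht

/-- the polynomial `b` has no slopes -/
theorem breaks_b {n : ℕ} {S : SSt ℂ n} (c : Fin n → ℂ) (q : Fin n → ℕ) (t : ℝ)
    (h : ∀ m, ¬ Dom ((S.atom n).map (sp c q)) t m) : False := by
  have h1 : (S.atom n).map (sp c q) = Polynomial.X := by
    rw [SSt.atom, dif_neg (lt_irrefl _), if_pos rfl, Polynomial.map_X]
  rw [h1] at h
  refine h (1, 0) ⟨?_, ?_⟩
  · simp [KC.cf]
  · intro m' hm' hne
    exfalso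
    apply hne
    have h2 : m'.1 = 1 := by
      by_contra h3
      apply hm'
      unfold KC.cf
      rw [Polynomial.coeff_X_of_ne_one h3, Polynomial.coeff_zero]
    have h4 : m'.2 = 0 := by
      by_contra h3
      apply hm'
      unfold KC.cf
      rw [h2, Polynomial.coeff_X_one, Polynomial.coeff_one, if_neg h3]
    exact Prod.ext h2 h4

/-- **The tower.** -/
theorem tower_gate {B : ℕ → ℕ → ℕ → ℕ} (hB : Slopes B) {m N a D : ℕ} (T : Fin N → GTree ℂ)
    (hT : ∀ w, (T w).Bounded a D) (Φ : (Fin N → Bool) → Prop)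
    (hdec : Decides (fun v : ℂ => v = 0) T Φ (TowerSet m)) :
    ∃ w, ∃ x : (Fin 2 → ℂ) × ℂ, ∃ s, UsesGate (fun v : ℂ => v = 0) (T w) x s ∧
      2 ^ m < B (a + 1) D s := by
  classical
  let P : (Fin N × List Bool × ℕ) → Pol ℂ 2 := fun q => (sym 2 (T q.1) q.2.1).atom q.2.2
  obtain ⟨x, hx, hxS⟩ := gen_off P m
  obtain ⟨y, g, hyg⟩ := gen_tower P m
  obtain ⟨k, b, hk, -⟩ := hdec x
  obtain ⟨w, j, i, hj, hh, hbr, hv⟩ := first_diff hdec hxS (tpar_mem m y g) hk
  -- an atom vanishes on the tower, not at `x`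
  have z1 := val_zero (fun v : ℂ => v = 0) (T w) x j i
  have z2 := val_zero (fun v : ℂ => v = 0) (T w) (tpar m y g) j i
  rw [← hh] at z2
  have hrel := rel 2 (hT w) ((T w).run (fun v : ℂ => v = 0) x j).hist
  obtain ⟨h, hhdef⟩ : ∃ h : List Bool, h = ((T w).run (fun v : ℂ => v = 0) x j).hist := ⟨_, rfl⟩
  obtain ⟨S, hS⟩ : ∃ S : SSt ℂ 2, S = sym 2 (T w) h := ⟨_, rfl⟩
  rw [← hhdef, ← hS] at z1 z2 hrel
  have hgx : ∀ l, S.ev x l = 0 → S.atom l = 0 := by
    intro l hl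
    rw [hS] at hl ⊢
    by_contra hne
    exact hx (w, h, l) hne hl
  have key : ∃ l < 2 + 1 + S.atoms.length, (S.val i).2 l ≠ 0 ∧ S.ev x l ≠ 0 ∧
      ∀ p ∈ TowerSet m, S.ev p l = 0 := by
    by_cases hx0 : ((T w).run (fun v : ℂ => v = 0) x j).val i = 0
    · exfalso
      have hx0' : ¬ ((T w).run (fun v : ℂ => v = 0) (tpar m y g) j).val i = 0 := fun h' =>
        hv ⟨fun _ => h', fun _ => hx0⟩
      apply hx0'
      rw [z2]
      rcases z1.1 hx0 with h1 | ⟨l, hl, h1, h2⟩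
      · exact Or.inl h1
      · refine Or.inr ⟨l, hl, h1, ?_⟩
        unfold SSt.ev
        rw [hgx l h2]
        simp [pf]
    · have hx0' : ((T w).run (fun v : ℂ => v = 0) (tpar m y g) j).val i = 0 := by
        by_contra h'
        exact hv ⟨fun h'' => absurd h'' hx0, fun h'' => absurd h'' h'⟩
      rcases z2.1 hx0' with h1 | ⟨l, hl, h1, h2⟩
      · exact absurd (z1.2 (Or.inl h1)) hx0
      · refine ⟨l, hl, h1, ?_, ?_⟩
        · intro h3
          exact hx0 (z1.2 (Or.inr ⟨l, hl, h1, h3⟩))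
        · intro p hp
          obtain ⟨y', g', rfl⟩ := mem_tpar hp
          by_contra h3
          rw [hS] at h2 h3
          exact hyg (w, h, l) ⟨y', g', h3⟩ h2
  obtain ⟨l, hl, hexp, hlx, hlS⟩ := key
  -- the parameters of the curve
  have hat : ∀ (s : SSt ℂ 2) (q : (Fin 2 → ℂ) × ℂ), s.ev q 0 = q.1 0 ∧ s.ev q 1 = q.1 1 := by
    intro s q
    exact ⟨ev_lt s q (by norm_num), ev_lt s q (by norm_num)⟩
  have hat0 : ∀ s : SSt ℂ 2, s.atom 0 ≠ 0 ∧ s.atom 1 ≠ 0 := by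
    intro s
    constructor
    · simp [SSt.atom]
    · simp [SSt.atom]
  have hc0 : x.1 0 ≠ 0 := by
    have h1 := hx (w, h, 0) (hat0 (sym 2 (T w) h)).1
    rw [← (hat (sym 2 (T w) h) x).1]
    exact h1
  have hc1 : x.1 1 ≠ 0 := by
    have h1 := hx (w, h, 1) (hat0 (sym 2 (T w) h)).2
    rw [← (hat (sym 2 (T w) h) x).2]
    exact h1
  have hl2 : 2 ≤ l := by
    by_contra hlt
    obtain ⟨bb, -, -, -, hev⟩ := branch_point hc0 hc1 (fun _ => true) m
    obtain ⟨R, hR, hR1⟩ := (hev.and (eventually_gt_atTop (0 : ℝ))).exists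
    have h1 := hlS _ hR
    have hl01 : l = 0 ∨ l = 1 := by omega
    rcases hl01 with h0 | h0
    · rw [h0, (hat S _).1] at h1
      exact hc0 h1
    · rw [h0, (hat S _).2] at h1
      have h2 : x.1 1 * (R : ℂ) = 0 := h1
      rcases mul_eq_zero.1 h2 with h3 | h3
      · exact hc1 h3
      · exact hR1.ne' (by exact_mod_cast h3)
  set q : Fin 2 → ℕ := ![0, 1] with hq
  have hne : (S.atom l).map (sp x.1 q) ≠ 0 := spec_ne (c := x.1) (b := x.2) hlx q
  have hnodom : ∀ s : Fin m → Bool, ∀ μ, ¬ Dom ((S.atom l).map (sp x.1 q))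
      (∑ j ∈ range m, vx (extB s) (j + 1)) μ := by
    intro s μ
    obtain ⟨bb, C, hC, hlim, hev⟩ := branch_point hc0 hc1 (extB s) m
    refine dom_root_lim hC hlim ?_ μ
    filter_upwards [hev] with R hR
    rw [spec_val]
    have e : (fun i => x.1 i * (R : ℂ) ^ q i) = ![x.1 0, x.1 1 * (R : ℂ)] := by
      funext i
      fin_cases i
      · simp [hq]
      · simp [hq]
    rw [e]
    exact hlS _ hR
  let Z : Finset ℝ := (univ : Finset (Fin m → Bool)).image
    fun s => ∑ j ∈ range m, vx (extB s) (j + 1)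
  have hZ : Z.card = 2 ^ m := by
    rw [card_image_of_injective _ fun s s' hs => extB_inj hs]
    simp
  have hZd : ∀ t ∈ Z, ∀ μ, ¬ Dom ((S.atom l).map (sp x.1 q)) t μ := by
    intro t ht
    obtain ⟨s, -, rfl⟩ := mem_image.1 ht
    exact hnodom s
  rcases Nat.eq_or_lt_of_le hl2 with h2 | h2
  · -- the atom `b`
    exfalso
    subst h2
    exact breaks_b x.1 q _ (hnodom fun _ => true)
  · obtain ⟨k, rfl⟩ : ∃ k, l = 2 + 1 + k := ⟨l - 3, by omega⟩
    have hb := breaks_gate hB hrel x.1 q (k := k) (by omega) hne Z hZd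
    rw [hZ] at hb
    have hmem := (hrel.supp i (2 + 1 + k) hexp).2 (by omega)
    rw [show 2 + 1 + k - (2 + 1) = k by omega] at hmem
    rw [hhdef] at hmem hb
    exact ⟨w, x, _, ⟨j, i, k, hbr, hmem, rfl⟩, by omega⟩

end Pool.Agent.Lib.MP_641cb6_lc.KG
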