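import Pool.Agent.Lib.MP_641cb6_lc.KG.Defs
import Pool.Agent.Lib.MP_641cb6_lc.KG.NumC
import Pool.Agent.Lib.MP_641cb6_lc.KG.Tower
import Pool.Agent.Lib.MP_641cb6_lc.KC.Brk

/-!
# The number of edges of the Newton polygons of a chain of gates
-/

set_option autoImplicit false

namespace Pool.Agent.Lib.MP_641cb6_lc.KG

open Set Topology Filter
open Pool.Agent.Lib.MP_641cb6_lc
open Pool.Agent.Lib.MP_641cb6_lc.KC (P2 Dom cf cnt_section dom_unique dom_X dom_exists dom_convex)
open Pool.Agent.Lib.MP_641cb6_lc.KC.Brk (next_point)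

/-- the number of changes of the dominating monomial of `φ k` while those of the earlier ones do
not change -/
def DeepG (φ : ℕ → P2) (q d s : ℕ) : Prop :=
  ∀ k, 1 ≤ k → k ≤ s → ∀ (N : ℕ) (τ : ℕ → ℝ), (∀ l < N, τ l < τ (l + 1)) →
    ∀ μ : ℕ → ℕ × ℕ, (∀ j < k, φ j ≠ 0 → Dom (φ j) (τ 0) (μ j) ∧ Dom (φ j) (τ N) (μ j)) →
    ∀ ν : ℕ → ℕ × ℕ, (∀ l ≤ N, Dom (φ k) (τ l) (ν l)) → (∀ l < N, ν l ≠ ν (l + 1)) →
    N ≤ 2 * C1 (k * (q + 1)) d

/-- one step: the number of values of `μ τ k` for the `τ` with given earlier values -/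
theorem gcnt_step {φ : ℕ → P2} {q d s : ℕ} (hφ : DeepG φ q d s) {k : ℕ} (hk1 : 1 ≤ k) (hk : k ≤ s)
    {T : Finset ℝ} {μ : ℝ → ℕ → ℕ × ℕ} {μ₀ : ℕ → ℕ × ℕ}
    (hμ : ∀ τ ∈ T, ∀ l ≤ s, φ l ≠ 0 → Dom (φ l) τ (μ τ l))
    (hμ0 : ∀ τ ∈ T, ∀ l ≤ s, φ l = 0 → μ τ l = 0)
    (hT : ∀ τ ∈ T, ∀ l < k, μ τ l = μ₀ l) :
    (T.image fun τ => μ τ k).card ≤ 2 * C1 (k * (q + 1)) d + 1 := by
  classical
  by_cases h0 : φ k = 0
  · have h1 : (T.image fun τ => μ τ k) ⊆ {0} := by
      intro x hx
      obtain ⟨τ, hτ, rfl⟩ := Finset.mem_image.1 hx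
      simpa using hμ0 τ hτ k hk h0
    have h2 := Finset.card_le_card h1
    rw [Finset.card_singleton] at h2
    omega
  · obtain ⟨S, hST, hcard, hinj⟩ := cnt_section T fun τ => μ τ k
    rw [← hcard]
    rcases Nat.eq_zero_or_pos S.card with h1 | h1
    · omega
    · obtain ⟨N, hN⟩ : ∃ N, S.card = N + 1 := ⟨S.card - 1, by omega⟩
      set ο := S.orderEmbOfFin hN with hο
      set τ : ℕ → ℝ := fun l => if h : l < N + 1 then ο ⟨l, h⟩ else 0 with hτdef
      have hτ : ∀ l (h : l < N + 1), τ l = ο ⟨l, h⟩ := fun l h => by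
        simp only [hτdef, dif_pos h]
      have hmem : ∀ l, l < N + 1 → τ l ∈ S := fun l h => by
        rw [hτ l h]
        exact S.orderEmbOfFin_mem hN _
      have hlt : ∀ l < N, τ l < τ (l + 1) := fun l h => by
        rw [hτ l (by omega), hτ (l + 1) (by omega)]
        exact ο.strictMono (by simp [Fin.lt_def])
      have h3 : N ≤ 2 * C1 (k * (q + 1)) d := by
        refine hφ k hk1 hk N τ hlt μ₀ ?_ (fun l => μ (τ l) k) ?_ ?_
        · intro j hj hj0
          have h4 := hmem 0 (by omega)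
          have h5 := hmem N (by omega)
          rw [← hT _ (hST h4) j hj]
          refine ⟨hμ _ (hST h4) j (by omega) hj0, ?_⟩
          rw [hT _ (hST h4) j hj, ← hT _ (hST h5) j hj]
          exact hμ _ (hST h5) j (by omega) hj0
        · intro l hl
          exact hμ _ (hST (hmem l (by omega))) k hk h0
        · intro l hl heq
          have h4 := hinj (hmem l (by omega)) (hmem (l + 1) (by omega)) heq
          exact absurd h4 (ne_of_lt (hlt l hl))
      omega

theorem gcnt {φ : ℕ → P2} {q d s : ℕ} (hX : φ 0 = Polynomial.X) (hφ : DeepG φ q d s)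
    {T : Finset ℝ} {μ : ℝ → ℕ → ℕ × ℕ}
    (hμ : ∀ τ ∈ T, ∀ l ≤ s, φ l ≠ 0 → Dom (φ l) τ (μ τ l))
    (hμ0 : ∀ τ ∈ T, ∀ l ≤ s, φ l = 0 → μ τ l = 0) :
    (T.image fun τ => fun l : Fin (s + 1) => μ τ l).card ≤ BG q d s := by
  classical
  have key : ∀ k ≤ s, (T.image fun τ => fun l : Fin (k + 1) => μ τ l).card ≤
      (2 * C1 (s * (q + 1)) d + 1) ^ k := by
    intro k
    induction k with
    | zero =>
      intro _
      have h1 : (T.image fun τ => fun l : Fin (0 + 1) => μ τ l) ⊆ {fun _ => (1, 0)} := by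
        intro x hx
        obtain ⟨τ, hτ, rfl⟩ := Finset.mem_image.1 hx
        rw [Finset.mem_singleton]
        funext l
        have hl : (l : ℕ) = 0 := by omega
        have h2 : φ 0 ≠ 0 := by
          rw [hX]
          exact Polynomial.X_ne_zero
        have h3 := hμ τ hτ 0 (Nat.zero_le _) h2
        rw [hX] at h3
        simp only [hl]
        exact dom_unique h3 (dom_X τ)
      simpa using Finset.card_le_card h1
    | succ k ih =>
      intro hk
      have ih' := ih (by omega)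
      set I := T.image fun τ => fun l : Fin (k + 1 + 1) => μ τ l with hI
      set f : (Fin (k + 1 + 1) → ℕ × ℕ) → (Fin (k + 1) → ℕ × ℕ) :=
        fun g l => g (Fin.castSucc l) with hf
      have h1 : I.image f = T.image fun τ => fun l : Fin (k + 1) => μ τ l := by
        rw [hI, Finset.image_image]
        rfl
      have h2 := Finset.card_le_mul_card_image (f := f) I (2 * C1 (s * (q + 1)) d + 1) ?_
      · rw [h1] at h2
        refine h2.trans ?_
        rw [pow_succ, mul_comm]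
        exact Nat.mul_le_mul_right _ ih'
      · intro a _
        set T' := T.filter fun τ => ∀ l : Fin (k + 1), μ τ l = a l with hT'
        set μ₀ : ℕ → ℕ × ℕ := fun l => if h : l < k + 1 then a ⟨l, h⟩ else 0 with hμ₀
        have h3 := gcnt_step hφ (k := k + 1) (by omega) hk (T := T') (μ := μ) (μ₀ := μ₀)
          (fun τ hτ => hμ τ (Finset.mem_filter.1 hτ).1)
          (fun τ hτ => hμ0 τ (Finset.mem_filter.1 hτ).1)
          (fun τ hτ l hl => by
            rw [(Finset.mem_filter.1 hτ).2 ⟨l, hl⟩]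
            simp only [hμ₀, dif_pos hl])
        have h4 : (I.filter fun g => f g = a).card ≤ (T'.image fun τ => μ τ (k + 1)).card := by
          refine Finset.card_le_card_of_injOn (fun g => g (Fin.last (k + 1))) ?_ ?_
          · intro g hg
            obtain ⟨hg1, hg2⟩ := Finset.mem_filter.1 hg
            obtain ⟨τ, hτ, rfl⟩ := Finset.mem_image.1 hg1
            refine Finset.mem_coe.2 (Finset.mem_image.2 ⟨τ, ?_, ?_⟩)
            · refine Finset.mem_filter.2 ⟨hτ, fun l => ?_⟩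
              exact congrFun hg2 l
            · simp
          · intro g hg g' hg' hgg
            obtain ⟨_, hg2⟩ := Finset.mem_filter.1 hg
            obtain ⟨_, hg2'⟩ := Finset.mem_filter.1 hg'
            funext l
            refine Fin.lastCases ?_ (fun l => ?_) l
            · exact hgg
            · exact congrFun (hg2.trans hg2'.symm) l
        have h5 : C1 ((k + 1) * (q + 1)) d ≤ C1 (s * (q + 1)) d :=
          C1_mono (Nat.mul_le_mul_right _ hk) d
        omega
  exact key s le_rfl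

theorem gbreaks {φ : ℕ → P2} {q d s : ℕ} (hX : φ 0 = Polynomial.X) (hφ : DeepG φ q d s)
    (Z : Finset ℝ) (hZ : ∀ t ∈ Z, ∃ l ≤ s, φ l ≠ 0 ∧ ∀ m, ¬ Dom (φ l) t m) :
    Z.card + 1 ≤ BG q d s := by
  classical
  -- the exceptional slopes
  have hE : ∀ l, ∃ E : Finset ℝ, φ l ≠ 0 → ∀ τ ∉ E, ∃ m, Dom (φ l) τ m := by
    intro l
    by_cases h : φ l = 0
    · exact ⟨∅, fun h' => absurd h h'⟩
    · obtain ⟨E, hE⟩ := dom_exists h
      exact ⟨E, fun _ => hE⟩
  choose E hE using hE
  set F : Finset ℝ := Z ∪ (Finset.range (s + 1)).biUnion E with hF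
  choose g hg1 hg2 using next_point F
  -- a point to the left of all elements of `Z`
  obtain ⟨x₀, hx₀⟩ : ∃ x₀ : ℝ, ∀ z ∈ Z, x₀ < z := by
    obtain ⟨b, hb⟩ := Z.finite_toSet.bddBelow
    exact ⟨b - 1, fun z hz => by have := hb (Finset.mem_coe.2 hz); linarith⟩
  have hx₀Z : x₀ ∉ Z := fun h => lt_irrefl _ (hx₀ _ h)
  set T : Finset ℝ := (insert x₀ Z).image g with hT
  -- between two points of `T` there is an element of `Z`
  have hsep : ∀ x ∈ insert x₀ Z, ∀ y ∈ insert x₀ Z, x < y → y ∈ Z ∧ g x < y ∧ y < g y := by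
    intro x hx y hy hxy
    have hyZ : y ∈ Z := by
      rcases Finset.mem_insert.1 hy with rfl | h
      · exfalso
        rcases Finset.mem_insert.1 hx with rfl | h'
        · exact lt_irrefl _ hxy
        · exact lt_asymm hxy (hx₀ x h')
      · exact h
    refine ⟨hyZ, ?_, hg1 y⟩
    by_contra hcon
    exact hg2 x y (Finset.mem_union_left _ hyZ) ⟨hxy, not_lt.1 hcon⟩
  have hinj : Set.InjOn g (insert x₀ Z : Finset ℝ) := by
    intro x hx y hy hxy
    rcases lt_trichotomy x y with h | h | h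
    · obtain ⟨_, h1, h2⟩ := hsep x hx y hy h
      exact absurd hxy (h1.trans h2).ne
    · exact h
    · obtain ⟨_, h1, h2⟩ := hsep y hy x hx h
      exact absurd hxy (h1.trans h2).ne'
  have hcard : T.card = Z.card + 1 := by
    rw [hT, Finset.card_image_of_injOn hinj, Finset.card_insert_of_notMem hx₀Z]
  -- the dominating monomials
  set μ : ℝ → ℕ → ℕ × ℕ := fun τ l => if h : ∃ m, Dom (φ l) τ m then Classical.choose h else 0
    with hμ
  have hμD : ∀ τ l, (∃ m, Dom (φ l) τ m) → Dom (φ l) τ (μ τ l) := by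
    intro τ l h
    simp only [hμ, dif_pos h]
    exact Classical.choose_spec h
  have hTE : ∀ τ ∈ T, ∀ l ≤ s, φ l ≠ 0 → Dom (φ l) τ (μ τ l) := by
    intro τ hτ l hl hne
    obtain ⟨x, _, rfl⟩ := Finset.mem_image.1 hτ
    refine hμD _ _ (hE l hne _ fun hmem => ?_)
    refine hg2 x (g x) (Finset.mem_union_right _ ?_) ⟨hg1 x, le_rfl⟩
    exact Finset.mem_biUnion.2 ⟨l, Finset.mem_range.2 (by omega), hmem⟩
  have hT0 : ∀ τ ∈ T, ∀ l ≤ s, φ l = 0 → μ τ l = 0 := by
    intro τ _ l _ h0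
    have hno : ¬ ∃ m, Dom (φ l) τ m := by
      rintro ⟨m, hm, _⟩
      apply hm
      rw [h0]
      simp [cf]
    simp only [hμ, dif_neg hno]
  have hcnt := gcnt hX hφ hTE hT0
  have hinj2 : Set.InjOn (fun τ => fun l : Fin (s + 1) => μ τ l) (T : Set ℝ) := by
    have key : ∀ x ∈ insert x₀ Z, ∀ y ∈ insert x₀ Z, x < y →
        (fun l : Fin (s + 1) => μ (g x) l) ≠ fun l : Fin (s + 1) => μ (g y) l := by
      intro x hx y hy hxy heq
      obtain ⟨hyZ, h1, h2⟩ := hsep x hx y hy hxy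
      obtain ⟨l, hl, hne, hno⟩ := hZ y hyZ
      have ha := hTE (g x) (Finset.mem_image_of_mem _ hx) l hl hne
      have hb := hTE (g y) (Finset.mem_image_of_mem _ hy) l hl hne
      have hab : μ (g x) l = μ (g y) l := congrFun heq ⟨l, by omega⟩
      rw [← hab] at hb
      exact hno _ (dom_convex ha hb h1.le h2.le)
    intro a ha b hb hab
    obtain ⟨x, hx, rfl⟩ := Finset.mem_image.1 (Finset.mem_coe.1 ha)
    obtain ⟨y, hy, rfl⟩ := Finset.mem_image.1 (Finset.mem_coe.1 hb)
    rcases lt_trichotomy x y with h | h | h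
    · exact absurd hab (key x hx y hy h)
    · rw [h]
    · exact absurd hab.symm (key y hy x hx h)
  rw [Finset.card_image_of_injOn hinj2, hcard] at hcnt
  exact hcnt

/-- the bound for the number of slopes -/
theorem slopes_of_deep (h : ∀ (φ : ℕ → P2) (q d s : ℕ), IsCG φ q d s → DeepG φ q d s) :
    Slopes BG := fun φ q d s hφ Z hZ => gbreaks hφ.1 (h φ q d s hφ) Z hZ

end Pool.Agent.Lib.MP_641cb6_lc.KG
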