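import Pool.Agent.Lib.MP_641cb6_lc.KG.RRed
import Pool.Agent.Lib.MP_641cb6_lc.KC.Cred

/-!
# CREDG: the complex reduction with logarithmic and polynomial rows
-/

set_option autoImplicit false

namespace Pool.Agent.Lib.MP_641cb6_lc.KG

open MvPolynomial Set Topology Filter
open Pool.Agent.Lib.MP_641cb6_lc.KH (LogType PolyType bd kh nz jac)
open Pool.Agent.Lib.MP_641cb6_lc.KC (logType_const logType_add logType_smul logType_log logType_norm
  logType_arg)
open Pool.Agent.Lib.MP_641cb6_lc.KC.Cred (mk mk_zero mk_P mk_Q place P_ne_Q Zc Lg Lg_eq re_deriv)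

namespace CRed

variable {r : ℕ}

/-- one factor of the denominator -/
noncomputable def cfac (i : Fin r) : MvPolynomial (Fin (2 * r + 1)) ℝ :=
  X (KC.Cred.P i) * ((X (KC.Cred.P i) - C 0) ^ 2 + X (KC.Cred.Q i) ^ 2)

/-- the denominator -/
noncomputable def wC (r : ℕ) : MvPolynomial (Fin (2 * r + 1)) ℝ := X 0 * ∏ i : Fin r, cfac i

lemma deg_qf (i : Fin r) : ((X (KC.Cred.P i) - C 0) ^ 2 + X (KC.Cred.Q i) ^ 2 :
    MvPolynomial (Fin (2 * r + 1)) ℝ).totalDegree ≤ 2 := by
  refine (totalDegree_add _ _).trans (max_le ?_ ?_)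
  · refine (totalDegree_pow _ _).trans ?_
    have h : (X (KC.Cred.P i) - C 0 : MvPolynomial (Fin (2 * r + 1)) ℝ).totalDegree ≤ 1 := by
      refine (totalDegree_sub _ _).trans ?_
      rw [totalDegree_X, totalDegree_C]
      exact max_le le_rfl zero_le_one
    omega
  · refine (totalDegree_pow _ _).trans ?_
    rw [totalDegree_X]

lemma deg_cfac (i : Fin r) : (cfac i).totalDegree ≤ 3 := by
  unfold cfac
  refine (totalDegree_mul _ _).trans ?_
  have h := deg_qf i
  rw [totalDegree_X]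
  omega

lemma deg_prodC (s : Finset (Fin r)) : (∏ i ∈ s, cfac i).totalDegree ≤ 3 * s.card := by
  refine (totalDegree_finsetProd _ _).trans ?_
  refine (Finset.sum_le_card_nsmul s _ 3 fun i _ => deg_cfac i).trans ?_
  rw [smul_eq_mul, mul_comm]

lemma deg_wC : (wC r).totalDegree ≤ 3 * r + 1 := by
  unfold wC
  refine (totalDegree_mul _ _).trans ?_
  have h := deg_prodC (r := r) Finset.univ
  rw [Finset.card_univ, Fintype.card_fin] at h
  rw [totalDegree_X]
  omega

lemma log0C : LogType (wC r) (3 * r + 1) fun x => Real.log (x 0) := by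
  refine logType_log (w' := ∏ i : Fin r, cfac i) rfl ?_
  have h := deg_prodC (r := r) Finset.univ
  rw [Finset.card_univ, Fintype.card_fin] at h
  omega

lemma cofC (i : Fin r) : ∃ w' : MvPolynomial (Fin (2 * r + 1)) ℝ,
    wC r = ((X (KC.Cred.P i) - C 0) ^ 2 + X (KC.Cred.Q i) ^ 2) * w' ∧
      w'.totalDegree + 1 ≤ 3 * r + 1 := by
  have hp : ∏ i : Fin r, cfac i = cfac i * ∏ j ∈ Finset.univ.erase i, cfac j :=
    (Finset.mul_prod_erase _ _ (Finset.mem_univ i)).symm
  have hd := deg_prodC (Finset.univ.erase i)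
  rw [Finset.card_erase_of_mem (Finset.mem_univ i), Finset.card_univ, Fintype.card_fin] at hd
  have hr : 1 ≤ r := by
    have := i.isLt
    omega
  refine ⟨X 0 * X (KC.Cred.P i) * ∏ j ∈ Finset.univ.erase i, cfac j, ?_, ?_⟩
  · rw [wC, hp, cfac]
    ring
  · have h1 := totalDegree_mul (X 0 * X (KC.Cred.P i) : MvPolynomial (Fin (2 * r + 1)) ℝ)
      (∏ j ∈ Finset.univ.erase i, cfac j)
    have h2 := totalDegree_mul (X 0 : MvPolynomial (Fin (2 * r + 1)) ℝ) (X (KC.Cred.P i))
    rw [totalDegree_X, totalDegree_X] at h2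
    omega

lemma eval_wC (x : Fin (2 * r + 1) → ℝ) :
    eval x (wC r) = x 0 * ∏ i : Fin r, (x (KC.Cred.P i) *
      ((x (KC.Cred.P i) - 0) ^ 2 + x (KC.Cred.Q i) ^ 2)) := by
  rw [wC, map_mul, eval_X, map_prod]
  congr 1
  refine Finset.prod_congr rfl fun i _ => ?_
  rw [cfac]
  simp

lemma ne_of_wC {x : Fin (2 * r + 1) → ℝ} (h : eval x (wC r) ≠ 0) (i : Fin r) :
    x (KC.Cred.P i) ≠ 0 := by
  rw [eval_wC] at h
  have h1 := right_ne_zero_of_mul h
  rw [Finset.prod_ne_zero_iff] at h1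
  exact left_ne_zero_of_mul (h1 i (Finset.mem_univ i))

lemma logLgC (i : Fin r) (ω : ℂ) :
    LogType (wC r) (3 * r + 1) fun x => (ω * Lg 1 (Zc 0 i x)).re := by
  obtain ⟨w', hw, hD⟩ := cofC i
  have h1 := logType_norm (P_ne_Q i i) 0 hw hD
  have h2 := logType_arg (P_ne_Q i i) 0 1 hw hD (by
    intro x hx
    have := ne_of_wC hx i
    simpa using this)
  have h3 := logType_add (logType_smul ω.re h1) (logType_smul (-ω.im) h2)
  convert h3 using 2 with x
  rw [Complex.mul_re]
  simp only [Lg, Zc, norm_one, Real.log_one]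
  ring

lemma logSumC {g : Fin r → (Fin (2 * r + 1) → ℝ) → ℝ}
    (hg : ∀ i, LogType (wC r) (3 * r + 1) (g i)) (s : Finset (Fin r)) :
    LogType (wC r) (3 * r + 1) fun x => ∑ i ∈ s, g i x := by
  classical
  induction s using Finset.induction_on with
  | empty => simpa using logType_const (wC r) (0 : ℝ)
  | insert i s hi ih =>
    have h := logType_add (hg i) ih
    convert h using 2 with x
    rw [Finset.sum_insert hi]

/-- the logarithmic row -/
noncomputable def rowLC (i : Fin r) (c : ℂ) (a₀ : ℝ) (A : Fin r → ℝ) (ω : ℂ)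
    (x : Fin (2 * r + 1) → ℝ) : ℝ :=
  (ω * Lg 1 (Zc 0 i x)).re + (-1) * ((ω * c).re + ω.re * a₀ * Real.log (x 0) +
    ∑ j, A j * (ω * Lg 1 (Zc 0 j x)).re)

lemma rowLC_type (i : Fin r) (c : ℂ) (a₀ : ℝ) (A : Fin r → ℝ) (ω : ℂ) :
    LogType (wC r) (3 * r + 1) (rowLC i c a₀ A ω) :=
  logType_add (logLgC i ω) (logType_smul (-1) (logType_add
    (logType_add (logType_const _ (ω * c).re) (logType_smul (ω.re * a₀) log0C))
    (logSumC (g := fun j x => A j * (ω * Lg 1 (Zc 0 j x)).re)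
      (fun j => logType_smul (A j) (logLgC j ω)) Finset.univ)))

lemma rowLC_eq (i : Fin r) (c : ℂ) (a₀ : ℝ) (A : Fin r → ℝ) (ω : ℂ) (x : Fin (2 * r + 1) → ℝ) :
    rowLC i c a₀ A ω x = (ω * (Lg 1 (Zc 0 i x) -
      (c + a₀ * Real.log (x 0) + ∑ j, A j * Lg 1 (Zc 0 j x)))).re := by
  rw [mul_sub, mul_add, mul_add, Complex.sub_re, Complex.add_re, Complex.add_re, Finset.mul_sum,
    Complex.re_sum, rowLC]
  have h1 : (ω * ((a₀ : ℂ) * ((Real.log (x 0) : ℝ) : ℂ))).re = ω.re * a₀ * Real.log (x 0) := by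
    rw [Complex.mul_re]
    simp
    ring
  have h2 : ∀ j, (ω * ((A j : ℂ) * Lg 1 (Zc 0 j x))).re = A j * (ω * Lg 1 (Zc 0 j x)).re := by
    intro j
    rw [show ω * ((A j : ℂ) * Lg 1 (Zc 0 j x)) = ((A j : ℝ) : ℂ) * (ω * Lg 1 (Zc 0 j x)) by
      ring, Complex.re_ofReal_mul]
  simp only [h1, h2]
  ring

/-! ### complex polynomials as pairs of real polynomials -/

/-- the real and the imaginary part of `f` are polynomials of degree at most `d` -/
def CT (d : ℕ) (f : (Fin (2 * r + 1) → ℝ) → ℂ) : Prop :=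
  ∃ a b : MvPolynomial (Fin (2 * r + 1)) ℝ, a.totalDegree ≤ d ∧ b.totalDegree ≤ d ∧
    ∀ x, f x = ⟨eval x a, eval x b⟩

lemma CT.mono {d d' : ℕ} (h : d ≤ d') {f : (Fin (2 * r + 1) → ℝ) → ℂ} (hf : CT d f) :
    CT d' f := by
  obtain ⟨a, b, ha, hb, hf⟩ := hf
  exact ⟨a, b, ha.trans h, hb.trans h, hf⟩

lemma CT.const (c : ℂ) : CT 0 (fun _ : Fin (2 * r + 1) → ℝ => c) :=
  ⟨C c.re, C c.im, by rw [totalDegree_C], by rw [totalDegree_C], fun x => by
    rw [eval_C, eval_C]⟩

lemma CT.var (i : Fin r) : CT 1 (fun x : Fin (2 * r + 1) → ℝ => Zc 0 i x) :=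
  ⟨X (KC.Cred.P i), X (KC.Cred.Q i), by rw [totalDegree_X], by rw [totalDegree_X], fun x => by
    rw [eval_X, eval_X]
    simp only [Zc, sub_zero]⟩

lemma CT.add {d : ℕ} {f f' : (Fin (2 * r + 1) → ℝ) → ℂ} (hf : CT d f) (hf' : CT d f') :
    CT d (fun x => f x + f' x) := by
  obtain ⟨a, b, ha, hb, hf⟩ := hf
  obtain ⟨a', b', ha', hb', hf'⟩ := hf'
  refine ⟨a + a', b + b', (totalDegree_add _ _).trans (max_le ha ha'),
    (totalDegree_add _ _).trans (max_le hb hb'), fun x => ?_⟩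
  show f x + f' x = _
  rw [hf, hf', map_add, map_add]
  apply Complex.ext
  · simp
  · simp

lemma CT.mul {d d' : ℕ} {f f' : (Fin (2 * r + 1) → ℝ) → ℂ} (hf : CT d f) (hf' : CT d' f') :
    CT (d + d') (fun x => f x * f' x) := by
  obtain ⟨a, b, ha, hb, hf⟩ := hf
  obtain ⟨a', b', ha', hb', hf'⟩ := hf'
  have hm : ∀ p q : MvPolynomial (Fin (2 * r + 1)) ℝ, p.totalDegree ≤ d → q.totalDegree ≤ d' →
      (p * q).totalDegree ≤ d + d' := fun p q hp hq =>
    (totalDegree_mul _ _).trans (Nat.add_le_add hp hq)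
  refine ⟨a * a' - b * b', a * b' + b * a',
    (totalDegree_sub _ _).trans (max_le (hm _ _ ha ha') (hm _ _ hb hb')),
    (totalDegree_add _ _).trans (max_le (hm _ _ ha hb') (hm _ _ hb ha')), fun x => ?_⟩
  show f x * f' x = _
  rw [hf, hf']
  apply Complex.ext
  · simp
  · simp

lemma CT.pow {f : (Fin (2 * r + 1) → ℝ) → ℂ} (hf : CT 1 f) (n : ℕ) :
    CT n (fun x => f x ^ n) := by
  induction n with
  | zero => simpa using CT.const (r := r) 1
  | succ n ih =>
    have h := ih.mul hf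
    simpa only [pow_succ] using h

lemma CT.prod (s : Finset (Fin r)) (ν : Fin r → ℕ) :
    CT (∑ i ∈ s, ν i) (fun x => ∏ i ∈ s, Zc 0 i x ^ ν i) := by
  classical
  induction s using Finset.induction_on with
  | empty => simpa using CT.const (r := r) 1
  | insert i s hi ih =>
    have h := ((CT.var i).pow (ν i)).mul ih
    rw [Finset.sum_insert hi]
    simpa only [Finset.prod_insert hi] using h

lemma CT.sum {ι : Type} (s : Finset ι) {d : ℕ} {f : ι → (Fin (2 * r + 1) → ℝ) → ℂ}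
    (hf : ∀ i ∈ s, CT d (f i)) : CT d (fun x => ∑ i ∈ s, f i x) := by
  classical
  induction s using Finset.induction_on with
  | empty => simpa using (CT.const (r := r) 0).mono (Nat.zero_le d)
  | insert i s hi ih =>
    have h := (hf i (Finset.mem_insert_self i s)).add
      (ih fun j hj => hf j (Finset.mem_insert_of_mem hj))
    simpa only [Finset.sum_insert hi] using h

lemma CT.ev (p : MvPolynomial (Fin r) ℂ) {d : ℕ} (hp : p.totalDegree ≤ d) :
    CT d (fun x => eval (fun j => Zc 0 j x) p) := by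
  have h : (fun x : Fin (2 * r + 1) → ℝ => eval (fun j => Zc 0 j x) p) =
      fun x => ∑ ν ∈ p.support, p.coeff ν * ∏ i, Zc 0 i x ^ ν i := by
    funext x
    exact eval_eq' _ _
  rw [h]
  refine CT.sum _ fun ν hν => ?_
  have h1 := (CT.const (r := r) (p.coeff ν)).mul (CT.prod Finset.univ fun i => ν i)
  refine h1.mono ?_
  have h2 := le_totalDegree hν
  rw [zero_add]
  refine le_trans (le_of_eq ?_) (h2.trans hp)
  rw [Finsupp.sum_fintype _ _ (fun _ => rfl)]

/-- the polynomial row -/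
noncomputable def rowPC (i : Fin r) (p : MvPolynomial (Fin r) ℂ) (ω : ℂ)
    (x : Fin (2 * r + 1) → ℝ) : ℝ :=
  (ω * (Zc 0 i x - MvPolynomial.eval (fun j => Zc 0 j x) p)).re

lemma CT.re {d : ℕ} {f : (Fin (2 * r + 1) → ℝ) → ℂ} (hf : CT d f) (ω : ℂ) :
    PolyType d fun x => (ω * f x).re := by
  obtain ⟨a, b, ha, hb, hf⟩ := hf
  refine ⟨C ω.re * a - C ω.im * b, ?_, fun x => ?_⟩
  · refine (totalDegree_sub _ _).trans (max_le ?_ ?_)
    · refine (totalDegree_mul _ _).trans ?_
      rw [totalDegree_C, zero_add]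
      exact ha
    · refine (totalDegree_mul _ _).trans ?_
      rw [totalDegree_C, zero_add]
      exact hb
  · show (ω * f x).re = _
    rw [hf, Complex.mul_re, map_sub, map_mul, map_mul, eval_C, eval_C]

lemma rowPC_type (i : Fin r) {p : MvPolynomial (Fin r) ℂ} {d : ℕ} (hp : p.totalDegree ≤ d)
    (ω : ℂ) : PolyType (d + 1) (rowPC i p ω) := by
  have h1 := ((CT.var i).mono (Nat.le_add_left 1 d)).add
    (((CT.const (r := r) (-1)).mul (CT.ev p hp)).mono (by omega : 0 + d ≤ d + 1))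
  have h2 := h1.re ω
  convert h2 using 2 with x
  rw [rowPC]
  congr 2
  ring

/-! ### directions -/

lemma Zc_at (j : Fin r) (x u : Fin (2 * r + 1) → ℝ) (t : ℝ) :
    Zc 0 j (x + t • u) = Zc 0 j x + (t : ℂ) * Zc 0 j u := by
  apply Complex.ext
  · simp [Zc]
  · simp [Zc]

lemma div_re_eq {w : ℂ} (h1 : (1 * w).re = 0) (h2 : (-Complex.I * w).re = 0) : w = 0 := by
  apply Complex.ext
  · simpa using h1
  · simpa [Complex.mul_re] using h2

/-- a direction in the kernel of the logarithmic rows -/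
lemma rowLC_dir {i : Fin r} {c : ℂ} {a₀ : ℝ} {A : Fin r → ℝ} {x u : Fin (2 * r + 1) → ℝ}
    (hx : 0 < (Zc 0 i x).re) (hu0 : u 0 = 0) (hu : ∀ j, A j ≠ 0 → Zc 0 j u = 0)
    {L : ℂ → (Fin (2 * r + 1) → ℝ) →L[ℝ] ℝ} (hL : ∀ ω, HasFDerivAt (rowLC i c a₀ A ω) (L ω) x)
    (h1 : L 1 u = 0) (h2 : L (-Complex.I) u = 0) : Zc 0 i u = 0 := by
  have hz : Zc 0 i x ≠ 0 := by
    intro h
    rw [h] at hx
    simp at hx
  have key : ∀ ω, L ω u = (ω * (Zc 0 i u / Zc 0 i x)).re := by
    intro ω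
    have e1 : HasDerivAt (fun t : ℝ => rowLC i c a₀ A ω (x + t • u)) (L ω u) 0 :=
      (hL ω).hasLineDerivAt u
    have e2 : (fun t : ℝ => rowLC i c a₀ A ω (x + t • u)) = fun t : ℝ =>
        (ω * Lg 1 (Zc 0 i (x + t • u))).re + (-1) * ((ω * c).re + ω.re * a₀ * Real.log (x 0) +
          ∑ j, A j * (ω * Lg 1 (Zc 0 j x)).re) := by
      funext t
      unfold rowLC
      have h0 : (x + t • u) 0 = x 0 := by simp [hu0]
      rw [h0]
      congr 3
      refine Finset.sum_congr rfl fun j _ => ?_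
      by_cases hj : A j = 0
      · rw [hj, zero_mul, zero_mul]
      · rw [Zc_at, hu j hj, mul_zero, add_zero]
    have e3 := KC.Cred.Lg_line (r := r) 1 0 i x u (by rw [one_mul]; exact hx)
    have e4 := (re_deriv e3 ω).add_const
      ((-1) * ((ω * c).re + ω.re * a₀ * Real.log (x 0) + ∑ j, A j * (ω * Lg 1 (Zc 0 j x)).re))
    rw [e2] at e1
    exact e1.unique e4
  have h3 : Zc 0 i u / Zc 0 i x = 0 := div_re_eq (by rw [← key, h1]) (by rw [← key, h2])
  exact (div_eq_zero_iff.1 h3).resolve_right hz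

/-- the values of a polynomial only depend on its variables -/
lemma eval_congr_varsC {σ : Type} {p : MvPolynomial σ ℂ} {x y : σ → ℂ}
    (h : ∀ j ∈ p.vars, x j = y j) : MvPolynomial.eval x p = MvPolynomial.eval y p := by
  have := eval₂Hom_congr' (f₁ := RingHom.id ℂ) (f₂ := RingHom.id ℂ) (g₁ := x) (g₂ := y)
    (p₁ := p) (p₂ := p) rfl (fun i hi _ => h i hi) rfl
  exact this

/-- a direction in the kernel of the polynomial rows -/
lemma rowPC_dir {i : Fin r} {p : MvPolynomial (Fin r) ℂ} {x u : Fin (2 * r + 1) → ℝ}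
    (hu : ∀ j ∈ p.vars, Zc 0 j u = 0)
    {L : ℂ → (Fin (2 * r + 1) → ℝ) →L[ℝ] ℝ} (hL : ∀ ω, HasFDerivAt (rowPC i p ω) (L ω) x)
    (h1 : L 1 u = 0) (h2 : L (-Complex.I) u = 0) : Zc 0 i u = 0 := by
  have key : ∀ ω, L ω u = (ω * Zc 0 i u).re := by
    intro ω
    have e1 : HasDerivAt (fun t : ℝ => rowPC i p ω (x + t • u)) (L ω u) 0 :=
      (hL ω).hasLineDerivAt u
    have e2 : (fun t : ℝ => rowPC i p ω (x + t • u)) = fun t : ℝ =>
        (ω * (Zc 0 i (x + t • u) - MvPolynomial.eval (fun j => Zc 0 j x) p)).re := by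
      funext t
      unfold rowPC
      congr 3
      refine eval_congr_varsC fun j hj => ?_
      rw [Zc_at, hu j hj, mul_zero, add_zero]
    have e3 := re_deriv ((KC.Cred.Zc_line 0 i x u).sub_const
      (MvPolynomial.eval (fun j => Zc 0 j x) p)) ω
    rw [e2] at e1
    exact e1.unique e3
  exact div_re_eq (by rw [← key, h1]) (by rw [← key, h2])

/-- the curve -/
noncomputable def crvC (z : Fin r → ℝ → ℂ) (b : ℝ) : Fin (2 * r + 1) → ℝ :=
  mk b (fun i => (z i b).re) fun i => (z i b).im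

lemma crvC_zero (z : Fin r → ℝ → ℂ) (b : ℝ) : crvC z b 0 = b := mk_zero _ _ _

lemma crvC_Zc (z : Fin r → ℝ → ℂ) (b : ℝ) (i : Fin r) : Zc 0 i (crvC z b) = z i b := by
  apply Complex.ext
  · simp [Zc, crvC, mk_P]
  · simp [Zc, crvC, mk_Q]

lemma vec_ext {u : Fin (2 * r + 1) → ℝ} (h0 : u 0 = 0) (h : ∀ i : Fin r, Zc 0 i u = 0) :
    u = 0 := by
  funext j
  rcases place j with rfl | ⟨i, rfl⟩ | ⟨i, rfl⟩
  · exact h0
  · have h8 := congrArg Complex.re (h i)
    simpa [Zc] using h8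
  · have h8 := congrArg Complex.im (h i)
    simpa [Zc] using h8

lemma Zc_sub (i : Fin r) (v g : Fin (2 * r + 1) → ℝ) (t : ℝ) :
    Zc 0 i (v - t • g) = Zc 0 i v - (t : ℂ) * Zc 0 i g := by
  apply Complex.ext
  · simp [Zc]
  · simp [Zc]

end CRed

open CRed in
/-- **The complex reduction**, for indices `Fin r`. -/
theorem credGFin {r : ℕ} (rk : Fin r → ℕ) {V : Set ℝ} (hV : IsOpen V) (hV0 : ∀ b ∈ V, 0 < b)
    {z : Fin r → ℝ → ℂ} (hs : ∀ i, ContDiffOn ℝ 1 (z i) V) (hp : ∀ i, ∀ b ∈ V, 0 < (z i b).re)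
    {d : ℕ}
    (hrel : ∀ i, (∃ (c : ℂ) (a₀ : ℝ) (A : Fin r → ℝ), (∀ j, rk i ≤ rk j → A j = 0) ∧
        ∀ b ∈ V, Complex.log (z i b) = c + a₀ * Real.log b + ∑ j, A j * Complex.log (z j b)) ∨
      (∃ p : MvPolynomial (Fin r) ℂ, p.totalDegree ≤ d ∧ (∀ j, rk i ≤ rk j → j ∉ p.vars) ∧
        ∀ b ∈ V, z i b = MvPolynomial.eval (fun j => z j b) p))
    (P : MvPolynomial (Fin r) ℂ) (hP : P.totalDegree ≤ d) (δ : ℝ) :
    {b | b ∈ V ∧ (MvPolynomial.eval (fun j => z j b) P).re - δ = 0 ∧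
      deriv (fun b => (MvPolynomial.eval (fun j => z j b) P).re) b ≠ 0}.encard ≤
      (C1 r d : ℕ) := by
  classical
  -- the rows
  have hrow : ∀ i : Fin r, ∃ (lg : Bool) (F : ℂ → (Fin (2 * r + 1) → ℝ) → ℝ),
      (lg = true → ∀ ω, LogType (wC r) (3 * r + 1) (F ω)) ∧
      (lg = false → ∀ ω, PolyType (d + 1) (F ω)) ∧
      (∀ b ∈ V, ∀ ω, F ω (crvC z b) = 0) ∧
      (∀ b ∈ V, ∀ u : Fin (2 * r + 1) → ℝ, u 0 = 0 → (∀ j, rk j < rk i → Zc 0 j u = 0) →
        ∀ L : ℂ → (Fin (2 * r + 1) → ℝ) →L[ℝ] ℝ, (∀ ω, HasFDerivAt (F ω) (L ω) (crvC z b)) →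
          L 1 u = 0 → L (-Complex.I) u = 0 → Zc 0 i u = 0) := by
    intro i
    rcases hrel i with ⟨c, a₀, A, hA, he⟩ | ⟨p, hpd, hpv, he⟩
    · refine ⟨true, rowLC i c a₀ A, fun _ => rowLC_type i c a₀ A, fun h => by simp at h, ?_, ?_⟩
      · intro b hb ω
        have hLg : ∀ j, Lg 1 (Zc 0 j (crvC z b)) = Complex.log (z j b) := by
          intro j
          rw [Lg_eq (by rw [one_mul, crvC_Zc]; exact hp j b hb), one_mul, crvC_Zc]
        rw [rowLC_eq]
        simp only [hLg]
        rw [crvC_zero, he b hb, sub_self, mul_zero]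
        rfl
      · intro b hb u hu0 hu L hL h1 h2
        refine rowLC_dir (by rw [crvC_Zc]; exact hp i b hb) hu0 (fun j hj => hu j ?_) hL h1 h2
        by_contra hcon
        exact hj (hA j (not_lt.1 hcon))
    · refine ⟨false, rowPC i p, fun h => by simp at h, fun _ => rowPC_type i hpd, ?_, ?_⟩
      · intro b hb ω
        show (ω * (Zc 0 i (crvC z b) -
          MvPolynomial.eval (fun j => Zc 0 j (crvC z b)) p)).re = 0
        simp only [crvC_Zc]
        rw [← he b hb, sub_self, mul_zero]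
        rfl
      · intro b hb u hu0 hu L hL h1 h2
        refine rowPC_dir (fun j hj => hu j ?_) hL h1 h2
        by_contra hcon
        exact hpv j (not_lt.1 hcon) hj
  choose lg R hR1 hR2 hR3 hR4 using hrow
  have hP0 : PolyType (d + 1) fun x : Fin (2 * r + 1) → ℝ =>
      (MvPolynomial.eval (fun j => Zc 0 j x) P).re - δ := by
    have h1 := ((CT.ev P hP).mono (Nat.le_succ d)).re 1
    have h2 := KH.polyType_sub_const h1 δ
    simpa only [one_mul] using h2
  set F : Fin (2 * r + 1) → (Fin (2 * r + 1) → ℝ) → ℝ :=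
    mk (fun x => (MvPolynomial.eval (fun j => Zc 0 j x) P).re - δ) (fun i => R i 1)
      (fun i => R i (-Complex.I)) with hF
  have hF0 : F 0 = fun x => (MvPolynomial.eval (fun j => Zc 0 j x) P).re - δ := by
    rw [hF, mk_zero]
  have hFP' : ∀ i, F (KC.Cred.P i) = R i 1 := fun i => by rw [hF, mk_P]
  have hFQ' : ∀ i, F (KC.Cred.Q i) = R i (-Complex.I) := fun i => by rw [hF, mk_Q]
  set S : Finset (Fin (2 * r + 1)) :=
    Finset.univ.filter fun j => mk false lg lg j = true with hS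
  have hmemP : ∀ i : Fin r, KC.Cred.P i ∈ S ↔ lg i = true := by
    intro i
    rw [hS, Finset.mem_filter, mk_P]
    simp
  have hmemQ : ∀ i : Fin r, KC.Cred.Q i ∈ S ↔ lg i = true := by
    intro i
    rw [hS, Finset.mem_filter, mk_Q]
    simp
  have hmem0 : (0 : Fin (2 * r + 1)) ∉ S := by
    rw [hS, Finset.mem_filter, mk_zero]
    simp
  have hcard : S.card ≤ 2 * r + 1 := by
    have := Finset.card_le_univ S
    rwa [Fintype.card_fin] at this
  have hFL : ∀ i ∈ S, LogType (wC r) (3 * r + 1) (F i) := by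
    intro j hj
    rcases place j with rfl | ⟨i, rfl⟩ | ⟨i, rfl⟩
    · exact absurd hj hmem0
    · rw [hFP']
      exact hR1 i ((hmemP i).1 hj) _
    · rw [hFQ']
      exact hR1 i ((hmemQ i).1 hj) _
  have hFP : ∀ i, i ∉ S → PolyType (d + 1) (F i) := by
    intro j hj
    rcases place j with rfl | ⟨i, rfl⟩ | ⟨i, rfl⟩
    · rw [hF0]
      exact hP0
    · rw [hFP']
      rw [hmemP] at hj
      exact hR2 i (by simpa using hj) _
    · rw [hFQ']
      rw [hmemQ] at hj
      exact hR2 i (by simpa using hj) _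
  have hkh := kh (deg_wC (r := r)) S.card (d + 1) S F rfl hFL hFP
  have hbd : bd (2 * r + 1) (3 * r + 1) (3 * r + 1) S.card (d + 1) ≤ C1 r d := by
    refine (bd_leG (n := 2 * r + 1) (W := 3 * r + 1) (D := 3 * r + 1) (d + 1) (by omega)
      (by omega) (by omega) hcard).trans ?_
    rw [C1]
    refine Nat.mul_le_mul le_rfl ?_
    exact Nat.pow_le_pow_left (by omega) _
  have hinj : Function.Injective (crvC z) := by
    intro b b' hb
    rw [← crvC_zero z b, hb, crvC_zero]
  rw [← hinj.encard_image]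
  refine (Set.encard_le_encard ?_).trans (hkh.trans (by exact_mod_cast hbd))
  rintro _ ⟨b, ⟨hb, hb0, hbd⟩, rfl⟩
  have hw : eval (crvC z b) (wC r) ≠ 0 := by
    rw [eval_wC]
    refine mul_ne_zero (by rw [crvC_zero]; exact (hV0 b hb).ne')
      (Finset.prod_ne_zero_iff.mpr fun i _ => ?_)
    have h1 : 0 < crvC z b (KC.Cred.P i) := by
      rw [crvC, mk_P]
      exact hp i b hb
    have h2 : 0 < (crvC z b (KC.Cred.P i) - 0) ^ 2 + crvC z b (KC.Cred.Q i) ^ 2 := by
      rw [sub_zero]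
      positivity
    exact mul_ne_zero h1.ne' h2.ne'
  have hdiff : ∀ i, DifferentiableAt ℝ (F i) (crvC z b) := by
    intro i
    by_cases hi : i ∈ S
    · obtain ⟨q, _, hq⟩ := hFL i hi
      exact (hq _ hw).differentiableAt
    · exact polyType_diff (hFP i hi) _
  refine ⟨hw, ?_, ?_⟩
  · intro j
    rcases place j with rfl | ⟨i, rfl⟩ | ⟨i, rfl⟩
    · rw [hF0]
      show (MvPolynomial.eval (fun j => Zc 0 j (crvC z b)) P).re - δ = 0
      simp only [crvC_Zc]
      exact hb0
    · rw [hFP']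
      exact hR3 i b hb _
    · rw [hFQ']
      exact hR3 i b hb _
  · intro hdet
    obtain ⟨v, hv0, hv⟩ := Matrix.exists_mulVec_eq_zero_iff.mpr hdet
    have hrow : ∀ i, fderiv ℝ (F i) (crvC z b) v = 0 := by
      intro i
      rw [← KC.Cred.jac_mulVec, hv]
      rfl
    -- the tangent vector
    set g : Fin (2 * r + 1) → ℝ := mk 1 (fun i => (deriv (z i) b).re)
      (fun i => (deriv (z i) b).im) with hg
    have hg0 : g 0 = 1 := by rw [hg, mk_zero]
    have hz : ∀ i, HasDerivAt (z i) (deriv (z i) b) b := fun i =>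
      (((hs i).differentiableOn (by norm_num)).differentiableAt
        (hV.mem_nhds hb)).hasDerivAt
    have hcrv : HasDerivAt (crvC z) g b := by
      rw [hasDerivAt_pi]
      intro k
      rcases place k with rfl | ⟨i, rfl⟩ | ⟨i, rfl⟩
      · rw [hg0]
        have : (fun s => crvC z s 0) = fun s => s := by
          funext s
          exact crvC_zero z s
        rw [this]
        exact hasDerivAt_id b
      · have e1 : (fun s => crvC z s (KC.Cred.P i)) = fun s => (z i s).re := by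
          funext s
          rw [crvC, mk_P]
        rw [e1, hg, mk_P]
        exact (Complex.reCLM.hasFDerivAt (x := z i b)).comp_hasDerivAt b (hz i)
      · have e1 : (fun s => crvC z s (KC.Cred.Q i)) = fun s => (z i s).im := by
          funext s
          rw [crvC, mk_Q]
        rw [e1, hg, mk_Q]
        exact (Complex.imCLM.hasFDerivAt (x := z i b)).comp_hasDerivAt b (hz i)
    have hcomp : ∀ i, HasDerivAt (fun b => F i (crvC z b)) (fderiv ℝ (F i) (crvC z b) g) b :=
      fun i => (hdiff i).hasFDerivAt.comp_hasDerivAt b hcrv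
    have hzero : ∀ j : Fin (2 * r + 1), (∀ s ∈ V, F j (crvC z s) = 0) →
        fderiv ℝ (F j) (crvC z b) g = 0 := by
      intro j hj
      have h1 : (fun b => F j (crvC z b)) =ᶠ[𝓝 b] fun _ => 0 := by
        filter_upwards [hV.mem_nhds hb] with s hs'
        exact hj s hs'
      exact (hcomp j).unique ((hasDerivAt_const b (0 : ℝ)).congr_of_eventuallyEq h1)
    set u : Fin (2 * r + 1) → ℝ := v - v 0 • g with hu
    have hu0 : u 0 = 0 := by
      rw [hu, Pi.sub_apply, Pi.smul_apply, hg0, smul_eq_mul, mul_one, sub_self]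
    have hFu : ∀ j : Fin (2 * r + 1), (∀ s ∈ V, F j (crvC z s) = 0) →
        fderiv ℝ (F j) (crvC z b) u = 0 := by
      intro j hj
      rw [hu, map_sub, map_smul, hrow, hzero j hj, smul_zero, sub_zero]
    have hind : ∀ n : ℕ, ∀ i : Fin r, rk i = n → Zc 0 i u = 0 := by
      intro n
      induction n using Nat.strong_induction_on with
      | _ n ih =>
        intro i hi
        have hdR : ∀ ω, DifferentiableAt ℝ (R i ω) (crvC z b) := by
          intro ω
          cases hlg : lg i with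
          | true =>
            obtain ⟨q, _, hq⟩ := hR1 i hlg ω
            exact (hq _ hw).differentiableAt
          | false => exact polyType_diff (hR2 i hlg ω) _
        refine hR4 i b hb u hu0 (fun j hj => ih (rk j) (by omega) j rfl)
          (fun ω => fderiv ℝ (R i ω) (crvC z b)) (fun ω => (hdR ω).hasFDerivAt) ?_ ?_
        · have h1 := hFu (KC.Cred.P i) (fun s hs' => by rw [hFP']; exact hR3 i s hs' _)
          rw [hFP'] at h1
          exact h1
        · have h1 := hFu (KC.Cred.Q i) (fun s hs' => by rw [hFQ']; exact hR3 i s hs' _)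
          rw [hFQ'] at h1
          exact h1
    have hu' : u = 0 := vec_ext hu0 fun i => hind _ i rfl
    have hv' : v = v 0 • g := by
      rw [hu, sub_eq_zero] at hu'
      exact hu'
    have h0 : fderiv ℝ (F 0) (crvC z b) g =
        deriv (fun b => (MvPolynomial.eval (fun j => z j b) P).re) b := by
      have h1 := hcomp 0
      have h2 : (fun b => F 0 (crvC z b)) =
          fun b => (MvPolynomial.eval (fun j => z j b) P).re - δ := by
        funext s
        rw [hF0]
        simp only [crvC_Zc]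
      rw [h2] at h1
      have h3 := h1.add_const δ
      simp only [sub_add_cancel] at h3
      exact h3.deriv.symm
    have h5 := hrow 0
    rw [hv', map_smul, h0, smul_eq_mul] at h5
    rcases mul_eq_zero.1 h5 with h6 | h6
    · exact hv0 (by rw [hv', h6, zero_smul])
    · exact hbd h6

/-- **The complex reduction** for a finite type of indices. -/
theorem credG {I : Type} [Fintype I] (rk : I → ℕ) {V : Set ℝ} (hV : IsOpen V)
    (hV0 : ∀ b ∈ V, 0 < b) {z : I → ℝ → ℂ} (hs : ∀ i, ContDiffOn ℝ 1 (z i) V)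
    (hp : ∀ i, ∀ b ∈ V, 0 < (z i b).re) {d : ℕ}
    (hrel : ∀ i, (∃ (c : ℂ) (a₀ : ℝ) (A : I → ℝ), (∀ j, rk i ≤ rk j → A j = 0) ∧
        ∀ b ∈ V, Complex.log (z i b) = c + a₀ * Real.log b + ∑ j, A j * Complex.log (z j b)) ∨
      (∃ p : MvPolynomial I ℂ, p.totalDegree ≤ d ∧ (∀ j, rk i ≤ rk j → j ∉ p.vars) ∧
        ∀ b ∈ V, z i b = MvPolynomial.eval (fun j => z j b) p))
    (P : MvPolynomial I ℂ) (hP : P.totalDegree ≤ d) (δ : ℝ) :
    {b | b ∈ V ∧ (MvPolynomial.eval (fun j => z j b) P).re - δ = 0 ∧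
      deriv (fun b => (MvPolynomial.eval (fun j => z j b) P).re) b ≠ 0}.encard ≤
      (C1 (Fintype.card I) d : ℕ) := by
  classical
  set e := Fintype.equivFin I with he
  have h1 : ∀ (p : MvPolynomial I ℂ) (b : ℝ),
      MvPolynomial.eval (fun j => z (e.symm j) b) (rename e p) =
        MvPolynomial.eval (fun j => z j b) p := by
    intro p b
    rw [eval_rename]
    congr 1
    congr 1
    funext j
    simp
  have h2 := credGFin (fun i => rk (e.symm i)) hV hV0 (z := fun i => z (e.symm i))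
    (fun i => hs _) (fun i => hp _) (d := d) ?_ (rename e P)
    ((totalDegree_rename_le _ _).trans hP) δ
  · simp only [h1] at h2
    exact h2
  · intro i
    rcases hrel (e.symm i) with ⟨c, a₀, A, hA, h3⟩ | ⟨p, hpd, hpv, h3⟩
    · left
      refine ⟨c, a₀, fun j => A (e.symm j), fun j hj => hA _ hj, fun b hb => ?_⟩
      rw [h3 b hb]
      congr 1
      exact (Equiv.sum_comp e.symm fun j => (A j : ℂ) * Complex.log (z j b)).symm
    · right
      refine ⟨rename e p, (totalDegree_rename_le _ _).trans hpd, fun j hj hmem => ?_,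
        fun b hb => ?_⟩
      · obtain ⟨j', hj', rfl⟩ := Finset.mem_image.1 (vars_rename e p hmem)
        rw [e.symm_apply_apply] at hj
        exact hpv j' hj hj'
      · rw [h1]
        exact h3 b hb

end Pool.Agent.Lib.MP_641cb6_lc.KG
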