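import Pool.Agent.Lib.MP_641cb6_lc.KG.CRep
import Pool.Agent.Lib.MP_641cb6_lc.KG.CRed
import Pool.Agent.Lib.MP_641cb6_lc.KG.CBrk
import Pool.Agent.Lib.MP_641cb6_lc.KC.DeepAux
import Pool.Agent.Lib.MP_641cb6_lc.KC.Dlim
import Pool.Agent.Lib.MP_641cb6_lc.KC.Sgn
import Pool.Agent.Lib.MP_641cb6_lc.KC.Regk

/-!
# The number of changes of the dominating monomial of a gate
-/

set_option autoImplicit false

namespace Pool.Agent.Lib.MP_641cb6_lc.KG

open Finset Filter Topology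
open Pool.Agent.Lib.MP_641cb6_lc.KC (P2 Dom cf wt val2 rat mon val2_contDiff val2_X den_ne
  slit_of_near norm_log_le tau_le dom_convex dom_unique dom_X dom_mono asy sgn sign_changes)

theorem val2_eval₂ {q : ℕ} (F : MvPolynomial (Fin q) ℂ) (g : Fin q → P2) (R b : ℂ) :
    val2 (MvPolynomial.eval₂ (Polynomial.C.comp Polynomial.C) g F) R b =
      MvPolynomial.eval (fun i => val2 (g i) R b) F := by
  have h1 : ∀ f : P2, val2 f R b =
      Polynomial.eval₂RingHom (Polynomial.evalRingHom R) b f := fun f => rfl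
  rw [h1, MvPolynomial.eval₂_comp_left]
  have h2 : (Polynomial.eval₂RingHom (Polynomial.evalRingHom R) b).comp
      (Polynomial.C.comp Polynomial.C) = RingHom.id ℂ := by
    ext x
    simp
  rw [h2, MvPolynomial.eval₂_id]
  rfl

theorem chain_choiceG {φ : ℕ → P2} {q d s : ℕ} (hφ : IsCG φ q d s) :
    ∃ (F : ℕ → MvPolynomial (Fin q) ℂ) (κ : ℕ → Fin q → Polynomial ℂ)
      (α : ℕ → Fin q → ℕ → ℕ), (∀ l, (F l).totalDegree ≤ d) ∧ ∀ l, 1 ≤ l → l ≤ s →
      φ l = MvPolynomial.eval₂ (Polynomial.C.comp Polynomial.C)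
        (fun i => mon φ l (κ l i) (α l i)) (F l) := by
  have h : ∀ l, ∃ (F : MvPolynomial (Fin q) ℂ) (κ : Fin q → Polynomial ℂ)
      (α : Fin q → ℕ → ℕ), F.totalDegree ≤ d ∧ (1 ≤ l → l ≤ s →
      φ l = MvPolynomial.eval₂ (Polynomial.C.comp Polynomial.C)
        (fun i => mon φ l (κ i) (α i)) F) := by
    intro l
    by_cases hl : 1 ≤ l ∧ l ≤ s
    · obtain ⟨F, κ, α, hF, hh⟩ := hφ.2 l hl.1 hl.2
      exact ⟨F, κ, α, hF, fun _ _ => hh⟩
    · exact ⟨0, fun _ => 0, fun _ _ => 0, by simp, fun h1 h2 => absurd ⟨h1, h2⟩ hl⟩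
  choose F κ α hF hh using h
  exact ⟨F, κ, α, hF, hh⟩

/-- a positive `η` that works for all elements up to `k` -/
theorem eta_existsG (k : ℕ) {q : ℕ} (α : ℕ → Fin q → ℕ → ℕ) :
    ∃ η : ℝ, 0 < η ∧ η < 1 ∧ ∀ j ≤ k, ∀ i, (∑ j' ∈ range j, (α j i j' : ℝ)) * η < 1 := by
  set S : ℝ := ∑ j ∈ range (k + 1), ∑ i, ∑ j' ∈ range j, (α j i j' : ℝ) with hS
  have hnn0 : ∀ j (i : Fin q), (0 : ℝ) ≤ ∑ j' ∈ range j, (α j i j' : ℝ) := fun j i =>
    Finset.sum_nonneg fun _ _ => Nat.cast_nonneg _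
  have hnn : ∀ j ∈ range (k + 1), (0 : ℝ) ≤ ∑ i, ∑ j' ∈ range j, (α j i j' : ℝ) := fun j _ =>
    Finset.sum_nonneg fun i _ => hnn0 j i
  have hS0 : 0 ≤ S := Finset.sum_nonneg hnn
  refine ⟨1 / (2 * (1 + S)), by positivity, ?_, fun j hj i => ?_⟩
  · rw [div_lt_one (by positivity)]
    linarith
  · have h1 := Finset.single_le_sum hnn (mem_range.2 (Nat.lt_succ_of_le hj))
    have h2 := Finset.single_le_sum (f := fun i => ∑ j' ∈ range j, (α j i j' : ℝ))
      (fun i _ => hnn0 j i) (mem_univ i)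
    rw [mul_one_div, div_lt_one (by positivity)]
    linarith

/-- the number of sign changes for one value of `R` -/
theorem deep_countG {φ : ℕ → P2} {q d s : ℕ} (hφ : IsCG φ q d s) {k : ℕ} (hk1 : 1 ≤ k)
    (hk : k ≤ s) {μ : ℕ → ℕ × ℕ}
    {F : ℕ → MvPolynomial (Fin q) ℂ} {κ : ℕ → Fin q → Polynomial ℂ} {α : ℕ → Fin q → ℕ → ℕ}
    (hF : ∀ l, (F l).totalDegree ≤ d)
    (hc : ∀ l, 1 ≤ l → l ≤ s → φ l = MvPolynomial.eval₂ (Polynomial.C.comp Polynomial.C)
        (fun i => mon φ l (κ l i) (α l i)) (F l))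
    {η : ℝ} (hη1 : η < 1) (hη : ∀ j ≤ k, ∀ i, (∑ j' ∈ range j, (α j i j' : ℝ)) * η < 1)
    {N : ℕ} {ρ : ℕ → ℝ} (hρ : ∀ l < N, ρ l < ρ (l + 1)) (hρ0 : 0 < ρ 0)
    (hcf : ∀ j < k, φ j ≠ 0 → cf (φ j) (μ j) ≠ 0) (hμ0 : μ 0 = (1, 0))
    {R : ℝ} (hR : 0 < R) {u : ℂ} (hu : ‖u‖ = 1) (ω : ℂ)
    (hclose : ∀ j < k, φ j ≠ 0 → ∀ x ∈ Set.Icc (ρ 0) (ρ N),
      ‖rat φ μ j R u x - 1‖ ≤ min (1 / 2) (2 / 3 * η)) :
    ((range N).filter fun l => (ω * val2 (φ k) R (ρ l * u)).re *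
      (ω * val2 (φ k) R (ρ (l + 1) * u)).re < 0).card ≤ C1 (k * (q + 1)) d := by
  classical
  set V : Set ℝ := Set.Ioo (ρ 0) (ρ N) with hVdef
  have hV0 : ∀ x ∈ V, 0 < x := fun x hx => hρ0.trans hx.1
  have hVI : ∀ x ∈ V, x ∈ Set.Icc (ρ 0) (ρ N) := fun x hx => ⟨hx.1.le, hx.2.le⟩
  have hslit : ∀ j < k, φ j ≠ 0 → ∀ x ∈ Set.Icc (ρ 0) (ρ N),
      rat φ μ j R u x ∈ Complex.slitPlane := fun j hj hn x hx =>
    slit_of_near ((hclose j hj hn x hx).trans (min_le_left _ _))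
  have hu0 : u ≠ 0 := by
    intro h0
    rw [h0, norm_zero] at hu
    exact zero_ne_one hu
  have hRc : (R : ℂ) ≠ 0 := by exact_mod_cast hR.ne'
  have hval : ∀ l, 1 ≤ l → l ≤ s → ∀ b : ℂ, val2 (φ l) R b = MvPolynomial.eval
      (fun i => (κ l i).eval (R : ℂ) * ∏ j' ∈ range l, val2 (φ j') R b ^ α l i j') (F l) := by
    intro l h1 h2 b
    have h3 : val2 (φ l) (R : ℂ) b = val2 (MvPolynomial.eval₂ (Polynomial.C.comp Polynomial.C)
        (fun i => mon φ l (κ l i) (α l i)) (F l)) R b :=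
      congrArg (fun f => val2 f (R : ℂ) b) (hc l h1 h2)
    rw [h3, val2_eval₂]
    have h4 : (fun i => val2 (mon φ l (κ l i) (α l i)) (R : ℂ) b) = fun i =>
        (κ l i).eval (R : ℂ) * ∏ j' ∈ range l, val2 (φ j') R b ^ α l i j' :=
      funext fun i => KC.val2_mon φ l _ _ _ _
    rw [h4]
  -- the representation
  obtain ⟨hz1, hz2, hz3, P, hP, hPe⟩ := crepG (k := k) (q := q) (d := d) (V := V)
    (alive := fun j => φ j ≠ 0)
    (f := fun j x => val2 (φ j) R (x * u)) (ℓ := fun j x => Complex.log (rat φ μ j R u x))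
    (C := fun j => cf (φ j) (μ j) * (R : ℂ) ^ (μ j).2 * u ^ (μ j).1) (ν := fun j => (μ j).1)
    (η := η) (κ := fun j i => (κ j i).eval (R : ℂ)) (α := α) hk1 hV0
    (fun j _ => (val2_contDiff (φ j) R u).contDiffOn)
    (fun j hj hn => mul_ne_zero (mul_ne_zero (hcf j hj hn) (pow_ne_zero _ hRc))
      (pow_ne_zero _ hu0))
    (by
      intro j hj hn x hx
      have hd := den_ne (hcf j hj hn) hR (hV0 x hx) hu
      have hne : rat φ μ j R u x ≠ 0 := Complex.slitPlane_ne_zero (hslit j hj hn x (hVI x hx))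
      have hxc : (x : ℂ) ≠ 0 := by exact_mod_cast (hV0 x hx).ne'
      have hc0 := hcf j hj hn
      rw [Complex.exp_log hne]
      unfold rat
      rw [mul_pow] at hd ⊢
      field_simp)
    hη1
    (fun j hj hn x hx => norm_log_le ((hclose j hj hn x (hVI x hx)).trans (min_le_left _ _))
      ((hclose j hj hn x (hVI x hx)).trans (min_le_right _ _)))
    (by
      intro x hx
      have hxc : (x : ℂ) ≠ 0 := by exact_mod_cast (hV0 x hx).ne'
      have : rat φ μ 0 R u x = 1 := by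
        unfold rat
        rw [hφ.1, hμ0, val2_X]
        have : cf Polynomial.X (1, 0) = 1 := by simp [cf]
        rw [this]
        simp only [pow_zero, mul_one, pow_one, one_mul]
        exact div_self (mul_ne_zero hxc hu0)
      rw [this, Complex.log_one])
    (by rw [hμ0])
    (by
      intro j _ hn x _
      have h0 : φ j = 0 := not_not.1 hn
      rw [h0]
      simp [val2])
    hη (F := F) (fun j _ => hF j)
    (by
      intro j h1 h2 _ x _
      exact hval j h1 (by omega) _)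
  -- the function on `V`
  set g : ℝ → ℝ := fun x => (ω * val2 (φ k) R (x * u)).re with hg
  have hgC : ContDiff ℝ 1 g := by
    have h2 : ContDiff ℝ 1 (fun x : ℝ => ω * val2 (φ k) R (x * u)) :=
      contDiff_const.mul (val2_contDiff (φ k) R u)
    exact Complex.reCLM.contDiff.comp h2
  refine sign_changes hρ (g := g) hgC.continuous.continuousOn hgC.contDiffOn
    (B := C1 (k * (q + 1)) d) ?_
  intro δ
  have hgV : ∀ x ∈ V, g x = (MvPolynomial.eval (fun p => zf k (fun j => φ j ≠ 0)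
      (fun j x => val2 (φ j) R (x * u))
      (fun j => cf (φ j) (μ j) * (R : ℂ) ^ (μ j).2 * u ^ (μ j).1) α p x)
        (MvPolynomial.C ω * P)).re := by
    intro x hx
    rw [map_mul, MvPolynomial.eval_C, hPe x hx, ← hval k hk1 hk]
  have hcard : Fintype.card (Fin k × Fin (q + 1)) = k * (q + 1) := by
    rw [Fintype.card_prod, Fintype.card_fin, Fintype.card_fin]
  have hred := credG (rkf k q) (V := V) isOpen_Ioo hV0 hz1 hz2 (d := d) hz3
    (MvPolynomial.C ω * P) (by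
      refine (MvPolynomial.totalDegree_mul _ _).trans ?_
      rw [MvPolynomial.totalDegree_C, zero_add]
      exact hP) δ
  rw [hcard] at hred
  refine le_trans (Set.encard_le_encard ?_) hred
  rintro x ⟨hx, hx1, hx2⟩
  have hev : g =ᶠ[𝓝 x] fun x => (MvPolynomial.eval (fun p => zf k (fun j => φ j ≠ 0)
      (fun j x => val2 (φ j) R (x * u))
      (fun j => cf (φ j) (μ j) * (R : ℂ) ^ (μ j).2 * u ^ (μ j).1) α p x)
        (MvPolynomial.C ω * P)).re := by
    filter_upwards [isOpen_Ioo.mem_nhds hx] with y hy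
    exact hgV y hy
  refine ⟨hx, ?_, ?_⟩
  · rw [← hev.eq_of_nhds]
    exact hx1
  · rw [← hev.deriv_eq]
    exact hx2

theorem deepG {φ : ℕ → P2} {q d s : ℕ} (hφ : IsCG φ q d s) : DeepG φ q d s := by
  intro k hk1 hk N τ hτ μ hμ ν hν hne
  classical
  have hτN : τ 0 ≤ τ N := tau_le hτ (Nat.zero_le N) le_rfl
  have hdom : ∀ l ≤ N, ∀ j < k, φ j ≠ 0 → Dom (φ j) (τ l) (μ j) := fun l hl j hj hn =>
    dom_convex (hμ j hj hn).1 (hμ j hj hn).2 (tau_le hτ (Nat.zero_le l) hl) (tau_le hτ hl le_rfl)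
  have hφ0 : φ 0 ≠ 0 := by
    rw [hφ.1]
    exact Polynomial.X_ne_zero
  have hμ0 : μ 0 = (1, 0) := by
    have h := (hμ 0 (by omega) hφ0).1
    rw [hφ.1] at h
    exact dom_unique h (dom_X _)
  have hcf : ∀ j < k, φ j ≠ 0 → cf (φ j) (μ j) ≠ 0 := fun j hj hn => (hμ j hj hn).1.1
  -- directions
  obtain ⟨ω, u, hu, -, hre, hN⟩ := sgn (N := N) (D := fun l => cf (φ k) (ν l))
    (fun l hl => (hν l hl).1) (i := fun l => (ν l).1)
    (fun l hl => dom_mono (hν l (by omega)) (hν (l + 1) (by omega)) (hτ l hl) (hne l hl))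
  have hu0 : u ≠ 0 := by
    intro h0
    rw [h0, norm_zero] at hu
    exact zero_ne_one hu
  set sg : ℕ → ℝ := fun l => (ω * cf (φ k) (ν l) * u ^ (ν l).1).re with hsg
  obtain ⟨F, κ, α, hF, hchain⟩ := chain_choiceG hφ
  obtain ⟨η, hη0, hη1, hη⟩ := eta_existsG k α
  -- conditions on `R`
  have e1 : ∀ᶠ R : ℝ in atTop, ∀ l ∈ range (N + 1),
      0 < (ω * val2 (φ k) R ((R ^ τ l : ℝ) * u)).re * sg l := by
    rw [eventually_all_finset]
    intro l hl
    rw [mem_range] at hl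
    have hl' : l ≤ N := by omega
    have hlim := KC.DlimAux.asy_tendsto (hν l hl') hu
    have hlim2 := (Complex.continuous_re.tendsto _).comp
      (hlim.const_mul (ω * cf (φ k) (ν l) * u ^ (ν l).1))
    rw [mul_one] at hlim2
    have hs0 : sg l ≠ 0 := hre l hl'
    have hpos : 0 < sg l * sg l := mul_self_pos.2 hs0
    have hlim3 := hlim2.mul_const (sg l)
    filter_upwards [hlim3.eventually (lt_mem_nhds hpos), eventually_gt_atTop (0 : ℝ)] with R hR hR0
    simp only [Function.comp] at hR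
    have hp : (0 : ℝ) < R ^ (ν l).2 * (R ^ τ l) ^ (ν l).1 := by positivity
    have hden := den_ne (hν l hl').1 hR0 (Real.rpow_pos_of_pos hR0 (τ l)) hu
    have heq : ω * cf (φ k) (ν l) * u ^ (ν l).1 * (val2 (φ k) R (((R ^ τ l : ℝ) : ℂ) * u) /
        (cf (φ k) (ν l) * (R : ℂ) ^ (ν l).2 * (((R ^ τ l : ℝ) : ℂ) * u) ^ (ν l).1)) =
        ω * val2 (φ k) R (((R ^ τ l : ℝ) : ℂ) * u) /
          ((R ^ (ν l).2 * (R ^ τ l) ^ (ν l).1 : ℝ) : ℂ) := by
      have h1 := (hν l hl').1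
      have hRc : (R : ℂ) ≠ 0 := by exact_mod_cast hR0.ne'
      have hRt : ((R ^ τ l : ℝ) : ℂ) ≠ 0 := by
        exact_mod_cast (Real.rpow_pos_of_pos hR0 (τ l)).ne'
      push_cast
      rw [mul_pow]
      field_simp
    rw [heq, Complex.div_ofReal_re, div_mul_eq_mul_div] at hR
    exact (div_pos_iff_of_pos_right hp).1 hR
  have e3 : ∀ᶠ R : ℝ in atTop, ∀ j ∈ range k, φ j ≠ 0 →
      ∀ x ∈ Set.Icc (R ^ τ 0) (R ^ τ N), ‖rat φ μ j R u x - 1‖ ≤ min (1 / 2) (2 / 3 * η) := by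
    rw [eventually_all_finset]
    intro j hj
    rw [mem_range] at hj
    by_cases h0 : φ j = 0
    · exact Eventually.of_forall fun R h => absurd h0 h
    · have h := asy hτN (hμ j hj h0).1 (hμ j hj h0).2
        (ε := min (1 / 2) (2 / 3 * η)) (lt_min (by norm_num) (by positivity))
      exact h.mono fun R hR _ x hx => hR x hx u hu
  obtain ⟨R, ⟨h1, h3⟩, hR1⟩ := ((e1.and e3).and (eventually_gt_atTop (1 : ℝ))).exists
  have hR0 : 0 < R := by linarith
  have hcount := deep_countG hφ hk1 hk (μ := μ) hF hchain hη1 hη (N := N)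
    (ρ := fun l => R ^ τ l)
    (fun l hl => Real.rpow_lt_rpow_of_exponent_lt hR1 (hτ l hl))
    (Real.rpow_pos_of_pos hR0 _) hcf hμ0 hR0 hu ω
    (fun j hj hn x hx => h3 j (mem_range.2 hj) hn x hx)
  have hsub : ((range N).filter fun l => (ω * cf (φ k) (ν l) * u ^ (ν l).1).re *
      (ω * cf (φ k) (ν (l + 1)) * u ^ (ν (l + 1)).1).re < 0).card ≤
      ((range N).filter fun l => (ω * val2 (φ k) R ((R ^ τ l : ℝ) * u)).re *
        (ω * val2 (φ k) R ((R ^ τ (l + 1) : ℝ) * u)).re < 0).card := by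
    apply Finset.card_le_card
    intro l hl
    rw [mem_filter, mem_range] at hl ⊢
    refine ⟨hl.1, ?_⟩
    have p1 := h1 l (mem_range.2 (by omega))
    have p2 := h1 (l + 1) (mem_range.2 (by omega))
    have p3 : sg l * sg (l + 1) < 0 := hl.2
    have p4 := mul_pos p1 p2
    by_contra hcon
    push Not at hcon
    nlinarith [mul_nonneg hcon (neg_nonneg.2 p3.le)]
  have hN' : N ≤ 2 * ((range N).filter fun l => (ω * cf (φ k) (ν l) * u ^ (ν l).1).re *
      (ω * cf (φ k) (ν (l + 1)) * u ^ (ν (l + 1)).1).re < 0).card := hN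
  omega

/-- the bound for the number of slopes -/
theorem slopes_BG : Slopes BG := slopes_of_deep fun _ _ _ _ h => deepG h

end Pool.Agent.Lib.MP_641cb6_lc.KG
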