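import Pool.Agent.Lib.MP_641cb6_lc.KG.Sub
import Pool.Agent.Lib.MP_641cb6_lc.KC.Crep

/-!
# The functions of a complex chain with gates
-/

set_option autoImplicit false

namespace Pool.Agent.Lib.MP_641cb6_lc.KG

open Finset
open Pool.Agent.Lib.MP_641cb6_lc.KC.CrepAux (log_zpow_mul_exp re_pos prod_rep)

/-- the relations between the functions `z i` -/
def CRel {ι : Type} [Fintype ι] (rk : ι → ℕ) (V : Set ℝ) (z : ι → ℝ → ℂ) (d : ℕ) (i : ι) : Prop :=
  (∃ (c : ℂ) (a₀ : ℝ) (A : ι → ℝ), (∀ j, rk i ≤ rk j → A j = 0) ∧ ∀ b ∈ V,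
    Complex.log (z i b) = c + a₀ * Real.log b + ∑ j, A j * Complex.log (z j b)) ∨
  (∃ p : MvPolynomial ι ℂ, p.totalDegree ≤ d ∧ (∀ j, rk i ≤ rk j → j ∉ p.vars) ∧
    ∀ b ∈ V, z i b = MvPolynomial.eval (fun j => z j b) p)

theorem scaleE {q : ℕ} (F : MvPolynomial (Fin q) ℂ) (c : Fin q → ℂ) :
    ∃ F' : MvPolynomial (Fin q) ℂ, F'.totalDegree ≤ F.totalDegree ∧ ∀ g : Fin q → ℂ,
      MvPolynomial.eval (fun i => c i * g i) F = MvPolynomial.eval g F' := by
  obtain ⟨F', h1, h2⟩ := scale (RingHom.id ℂ) F c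
  exact ⟨F', h1, fun g => h2 g⟩

section

variable {k q d : ℕ} {V : Set ℝ} {alive : ℕ → Prop} {f ℓ : ℕ → ℝ → ℂ} {C : ℕ → ℂ} {ν : ℕ → ℕ}
  {η : ℝ} {κ : ℕ → Fin q → ℂ} {α : ℕ → Fin q → ℕ → ℕ}

open Classical in
/-- a product of powers without its constant -/
noncomputable def zz (alive : ℕ → Prop) (f : ℕ → ℝ → ℂ) (C : ℕ → ℂ) (α : ℕ → Fin q → ℕ → ℕ)
    (j : ℕ) (i : Fin q) (ρ : ℝ) : ℂ :=
  if ∀ j' < j, α j i j' ≠ 0 → alive j' then ∏ j' ∈ range j, (f j' ρ / C j') ^ α j i j' else 1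

open Classical in
/-- the constant of a product of powers -/
noncomputable def cst (alive : ℕ → Prop) (C : ℕ → ℂ) (κ : ℕ → Fin q → ℂ)
    (α : ℕ → Fin q → ℕ → ℕ) (j : ℕ) (i : Fin q) : ℂ :=
  if ∀ j' < j, α j i j' ≠ 0 → alive j' then κ j i * ∏ j' ∈ range j, C j' ^ α j i j' else 0

open Classical in
/-- the value of a gate without its constant -/
noncomputable def yy (k : ℕ) (alive : ℕ → Prop) (f : ℕ → ℝ → ℂ) (C : ℕ → ℂ) (j : ℕ) (ρ : ℝ) : ℂ :=
  if alive j ∧ j < k then f j ρ / C j else 1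

/-- all functions -/
noncomputable def zf (k : ℕ) (alive : ℕ → Prop) (f : ℕ → ℝ → ℂ) (C : ℕ → ℂ)
    (α : ℕ → Fin q → ℕ → ℕ) (p : Fin k × Fin (q + 1)) (ρ : ℝ) : ℂ :=
  if h : (p.2 : ℕ) < q then zz alive f C α (p.1 + 1) ⟨p.2, h⟩ ρ else yy k alive f C (p.1 + 1) ρ

/-- the rank -/
def rkf (k q : ℕ) (p : Fin k × Fin (q + 1)) : ℕ := 2 * p.1 + if (p.2 : ℕ) < q then 0 else 1

theorem mono_eq (hC : ∀ j < k, alive j → C j ≠ 0) (hdead : ∀ j < k, ¬ alive j → ∀ ρ ∈ V, f j ρ = 0)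
    {j : ℕ} (hj : j ≤ k) (i : Fin q) {ρ : ℝ} (hρ : ρ ∈ V) :
    κ j i * ∏ j' ∈ range j, f j' ρ ^ α j i j' = cst alive C κ α j i * zz alive f C α j i ρ := by
  classical
  unfold cst zz
  by_cases h : ∀ j' < j, α j i j' ≠ 0 → alive j'
  · rw [if_pos h, if_pos h, mul_assoc, ← Finset.prod_mul_distrib]
    congr 1
    refine Finset.prod_congr rfl fun j' hj' => ?_
    have hj'' := mem_range.1 hj'
    by_cases h0 : α j i j' = 0
    · rw [h0, pow_zero, pow_zero, pow_zero, mul_one]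
    · have := hC j' (by omega) (h j' hj'' h0)
      rw [← mul_pow, mul_div_cancel₀ _ this]
  · rw [if_neg h, if_neg h, zero_mul]
    push Not at h
    obtain ⟨j', h1, h2, h3⟩ := h
    rw [Finset.prod_eq_zero (mem_range.2 h1) (by rw [hdead j' (by omega) h3 ρ hρ, zero_pow h2]),
      mul_zero]

theorem zz_rep (hC : ∀ j < k, alive j → C j ≠ 0)
    (hrep : ∀ j < k, alive j → ∀ ρ ∈ V, f j ρ = C j * (ρ : ℂ) ^ ν j * Complex.exp (ℓ j ρ))
    {j : ℕ} (hj : j ≤ k) (i : Fin q) (h : ∀ j' < j, α j i j' ≠ 0 → alive j') {ρ : ℝ}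
    (hρ : ρ ∈ V) :
    zz alive f C α j i ρ = (ρ : ℂ) ^ (∑ j' ∈ range j, ν j' * α j i j') *
      Complex.exp (∑ j' ∈ range j, (α j i j' : ℂ) * ℓ j' ρ) := by
  classical
  unfold zz
  rw [if_pos h]
  have h1 := prod_rep (k := k) (V := V) (alive := alive) (F := fun j ρ => f j ρ / C j) (ℓ := ℓ)
    (C := fun _ => 1) (ν := ν) (fun j hj ha ρ hρ => by
      rw [hrep j hj ha ρ hρ, one_mul, mul_assoc, mul_div_cancel_left₀ _ (hC j hj ha)]) hj
    (β := α j i) h hρ
  simp only [one_pow, Finset.prod_const_one, one_mul] at h1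
  exact h1

theorem norm_sum_lt (hℓ : ∀ j < k, alive j → ∀ ρ ∈ V, ‖ℓ j ρ‖ ≤ η) {j : ℕ} (hj : j ≤ k)
    (i : Fin q) (hη : (∑ j' ∈ range j, (α j i j' : ℝ)) * η < 1)
    (h : ∀ j' < j, α j i j' ≠ 0 → alive j') {ρ : ℝ} (hρ : ρ ∈ V) :
    ‖∑ j' ∈ range j, (α j i j' : ℂ) * ℓ j' ρ‖ < 1 := by
  refine lt_of_le_of_lt (norm_sum_le _ _) (lt_of_le_of_lt ?_ hη)
  rw [Finset.sum_mul]
  refine Finset.sum_le_sum fun j' hj' => ?_
  have hj'' := mem_range.1 hj'
  rw [norm_mul, Complex.norm_natCast]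
  by_cases h0 : α j i j' = 0
  · rw [h0]
    simp
  · exact mul_le_mul_of_nonneg_left (hℓ j' (by omega) (h j' hj'' h0) ρ hρ) (Nat.cast_nonneg _)

/-- a sum over the positions of the values of the gates -/
theorem sum_pos (k q : ℕ) (j : ℕ) (hj : j ≤ k) (G : ℕ → ℂ) (B : ℕ → ℝ)
    (L : Fin k × Fin (q + 1) → ℂ) (hL : ∀ (g : Fin k), L (g, Fin.last q) = G (g + 1)) :
    ∑ p : Fin k × Fin (q + 1), (((if (p.2 : ℕ) < q then 0 else
      if (p.1 : ℕ) + 1 < j then B (p.1 + 1) else 0 : ℝ) : ℝ) : ℂ) * L p =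
      ∑ g ∈ range (j - 1), (B (g + 1) : ℂ) * G (g + 1) := by
  rw [Fintype.sum_prod_type]
  have h1 : ∀ g : Fin k, ∑ i : Fin (q + 1), (((if (((g, i) : Fin k × Fin (q + 1)).2 : ℕ) < q
      then 0 else if (((g, i) : Fin k × Fin (q + 1)).1 : ℕ) + 1 < j then B (g + 1) else 0 : ℝ) :
        ℝ) : ℂ) * L (g, i) =
      if (g : ℕ) < j - 1 then (B (g + 1) : ℂ) * G (g + 1) else 0 := by
    intro g
    rw [Fin.sum_univ_castSucc, Finset.sum_eq_zero, zero_add]
    · simp only [Fin.val_last, lt_irrefl, if_false]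
      rw [hL]
      by_cases h : (g : ℕ) + 1 < j
      · rw [if_pos h, if_pos (by omega)]
      · rw [if_neg h, if_neg (by omega)]
        simp
    · intro i _
      simp
  have h2 := Finset.sum_congr (rfl : (univ : Finset (Fin k)) = univ) fun g _ => h1 g
  refine h2.trans ?_
  rw [Fin.sum_univ_eq_sum_range (fun g => if g < j - 1 then (B (g + 1) : ℂ) * G (g + 1) else 0) k]
  rw [← Finset.sum_filter]
  refine Finset.sum_congr ?_ fun _ _ => rfl
  ext g
  simp only [mem_filter, mem_range]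
  omega

theorem crepG (hk : 1 ≤ k) (hV0 : ∀ ρ ∈ V, 0 < ρ)
    (hf : ∀ j < k, ContDiffOn ℝ 1 (f j) V) (hC : ∀ j < k, alive j → C j ≠ 0)
    (hrep : ∀ j < k, alive j → ∀ ρ ∈ V, f j ρ = C j * (ρ : ℂ) ^ ν j * Complex.exp (ℓ j ρ))
    (hη1 : η < 1) (hℓ : ∀ j < k, alive j → ∀ ρ ∈ V, ‖ℓ j ρ‖ ≤ η) (hℓ0 : ∀ ρ ∈ V, ℓ 0 ρ = 0)
    (hν0 : ν 0 = 1)
    (hdead : ∀ j < k, ¬ alive j → ∀ ρ ∈ V, f j ρ = 0)
    (hη : ∀ j ≤ k, ∀ i, (∑ j' ∈ range j, (α j i j' : ℝ)) * η < 1)
    {F : ℕ → MvPolynomial (Fin q) ℂ} (hF : ∀ j ≤ k, (F j).totalDegree ≤ d)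
    (hstep : ∀ j, 1 ≤ j → j < k → alive j → ∀ ρ ∈ V, f j ρ =
      MvPolynomial.eval (fun i => κ j i * ∏ j' ∈ range j, f j' ρ ^ α j i j') (F j)) :
    (∀ p, ContDiffOn ℝ 1 (zf k alive f C α p) V) ∧ (∀ p, ∀ ρ ∈ V, 0 < (zf k alive f C α p ρ).re) ∧
    (∀ p, CRel (rkf k q) V (zf k alive f C α) d p) ∧
    ∃ P : MvPolynomial (Fin k × Fin (q + 1)) ℂ, P.totalDegree ≤ d ∧
      ∀ ρ ∈ V, MvPolynomial.eval (fun p => zf k alive f C α p ρ) P =
        MvPolynomial.eval (fun i => κ k i * ∏ j' ∈ range k, f j' ρ ^ α k i j') (F k) := by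
  classical
  -- the values of the gates
  have hy : ∀ j < k, alive j → ∀ ρ ∈ V, yy k alive f C j ρ =
      (ρ : ℂ) ^ ν j * Complex.exp (ℓ j ρ) := by
    intro j hj ha ρ hρ
    unfold yy
    rw [if_pos ⟨ha, hj⟩, hrep j hj ha ρ hρ, mul_assoc, mul_div_cancel_left₀ _ (hC j hj ha)]
  have hylog : ∀ j < k, alive j → ∀ ρ ∈ V, Complex.log (yy k alive f C j ρ) =
      (ν j : ℂ) * Real.log ρ + ℓ j ρ := by
    intro j hj ha ρ hρ
    rw [hy j hj ha ρ hρ]
    have h1 := log_zpow_mul_exp (hV0 ρ hρ) (ν j : ℤ) ((hℓ j hj ha ρ hρ).trans_lt hη1)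
    rw [zpow_natCast] at h1
    rw [h1]
    push_cast
    rfl
  -- the polynomials
  have hpoly : ∀ j, 1 ≤ j → j ≤ k → ∃ F' : MvPolynomial (Fin q) ℂ, F'.totalDegree ≤ d ∧
      ∀ ρ ∈ V, MvPolynomial.eval (fun i => κ j i * ∏ j' ∈ range j, f j' ρ ^ α j i j') (F j) =
        MvPolynomial.eval (fun i => zz alive f C α j i ρ) F' := by
    intro j _ hj
    obtain ⟨F', h1, h2⟩ := scaleE (F j) (cst alive C κ α j)
    refine ⟨F', h1.trans (hF j hj), fun ρ hρ => ?_⟩
    rw [← h2]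
    have h3 : (fun i => κ j i * ∏ j' ∈ range j, f j' ρ ^ α j i j') =
        fun i => cst alive C κ α j i * zz alive f C α j i ρ :=
      funext fun i => mono_eq hC hdead hj i hρ
    rw [h3]
  have hren : ∀ (g : Fin k) (F' : MvPolynomial (Fin q) ℂ) (ρ : ℝ),
      MvPolynomial.eval (fun p => zf k alive f C α p ρ)
        (MvPolynomial.rename (fun i : Fin q => (g, i.castSucc)) F') =
      MvPolynomial.eval (fun i => zz alive f C α (g + 1) i ρ) F' := by
    intro g F' ρ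
    rw [MvPolynomial.eval_rename]
    have h3 : ((fun p => zf k alive f C α p ρ) ∘ fun i : Fin q => (g, i.castSucc)) =
        fun i => zz alive f C α (g + 1) i ρ := by
      funext i
      simp [zf, Function.comp]
    rw [h3]
  refine ⟨?_, ?_, ?_, ?_⟩
  · rintro ⟨g, i⟩
    have hg := g.2
    by_cases h : (i : ℕ) < q
    · have e : zf k alive f C α (g, i) = zz alive f C α (g + 1) ⟨i, h⟩ := by
        funext ρ
        simp [zf, h]
      rw [e]
      unfold zz
      by_cases h2 : ∀ j' < (g : ℕ) + 1, α (g + 1) ⟨i, h⟩ j' ≠ 0 → alive j'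
      · simp only [if_pos h2]
        refine contDiffOn_prod fun j' hj' => ?_
        have := mem_range.1 hj'
        exact ((hf j' (by omega)).div_const (C j')).pow _
      · simp only [if_neg h2]
        exact contDiffOn_const
    · have e : zf k alive f C α (g, i) = yy k alive f C (g + 1) := by
        funext ρ
        simp [zf, h]
      rw [e]
      unfold yy
      by_cases h2 : alive (g + 1) ∧ (g : ℕ) + 1 < k
      · simp only [if_pos h2]
        exact (hf _ h2.2).div_const _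
      · simp only [if_neg h2]
        exact contDiffOn_const
  · rintro ⟨g, i⟩ ρ hρ
    have hg := g.2
    by_cases h : (i : ℕ) < q
    · have e : zf k alive f C α (g, i) ρ = zz alive f C α (g + 1) ⟨i, h⟩ ρ := by
        simp [zf, h]
      rw [e]
      by_cases h2 : ∀ j' < (g : ℕ) + 1, α (g + 1) ⟨i, h⟩ j' ≠ 0 → alive j'
      · rw [zz_rep hC hrep (by omega) _ h2 hρ]
        have h3 := re_pos (hV0 ρ hρ) ((∑ j' ∈ range ((g : ℕ) + 1),
          ν j' * α (g + 1) ⟨i, h⟩ j' : ℕ) : ℤ)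
          (norm_sum_lt hℓ (by omega) ⟨i, h⟩ (hη _ (by omega) _) h2 hρ)
        rw [zpow_natCast] at h3
        exact h3
      · unfold zz
        rw [if_neg h2]
        simp
    · have e : zf k alive f C α (g, i) ρ = yy k alive f C (g + 1) ρ := by
        simp [zf, h]
      rw [e]
      by_cases h2 : alive (g + 1) ∧ (g : ℕ) + 1 < k
      · rw [hy _ h2.2 h2.1 ρ hρ]
        have h3 := re_pos (hV0 ρ hρ) (ν (g + 1) : ℤ) ((hℓ _ h2.2 h2.1 ρ hρ).trans_lt hη1)
        rw [zpow_natCast] at h3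
        exact h3
      · unfold yy
        rw [if_neg h2]
        simp
  · rintro ⟨g, i⟩
    have hg := g.2
    by_cases h : (i : ℕ) < q
    · left
      have e : ∀ ρ, zf k alive f C α (g, i) ρ = zz alive f C α (g + 1) ⟨i, h⟩ ρ := by
        intro ρ
        simp [zf, h]
      by_cases h2 : ∀ j' < (g : ℕ) + 1, α (g + 1) ⟨i, h⟩ j' ≠ 0 → alive j'
      · refine ⟨0, (α (g + 1) ⟨i, h⟩ 0 : ℝ), fun p => if (p.2 : ℕ) < q then 0 else
          if (p.1 : ℕ) + 1 < (g : ℕ) + 1 then (α (g + 1) ⟨i, h⟩ (p.1 + 1) : ℝ) else 0, ?_, ?_⟩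
        · intro p hp
          simp only [rkf, if_pos h, add_zero] at hp
          by_cases h3 : (p.2 : ℕ) < q
          · simp only [if_pos h3]
          · rw [if_neg h3] at hp
            simp only [if_neg h3]
            rw [if_neg (by omega)]
        · intro ρ hρ
          rw [e, zz_rep hC hrep (by omega) _ h2 hρ]
          have h3 := log_zpow_mul_exp (hV0 ρ hρ) ((∑ j' ∈ range ((g : ℕ) + 1),
            ν j' * α (g + 1) ⟨i, h⟩ j' : ℕ) : ℤ)
            (norm_sum_lt hℓ (by omega) ⟨i, h⟩ (hη _ (by omega) _) h2 hρ)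
          rw [zpow_natCast] at h3
          rw [h3]
          rw [sum_pos k q ((g : ℕ) + 1) (by omega) (fun j => Complex.log (yy k alive f C j ρ))
            (fun j => (α (g + 1) ⟨i, h⟩ j : ℝ)) (fun p => Complex.log (zf k alive f C α p ρ))
            (fun g' => by simp [zf])]
          rw [Nat.add_sub_cancel, Finset.sum_range_succ' (fun j' => (α (g + 1) ⟨i, h⟩ j' : ℂ) *
            ℓ j' ρ), Finset.sum_range_succ' (fun j' => ν j' * α (g + 1) ⟨i, h⟩ j'), hℓ0 ρ hρ, hν0]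
          have h4 : ∑ x ∈ range (g : ℕ), (((α (g + 1) ⟨i, h⟩ (x + 1) : ℕ) : ℝ) : ℂ) *
              Complex.log (yy k alive f C (x + 1) ρ) =
              ∑ x ∈ range (g : ℕ), ((ν (x + 1) * α (g + 1) ⟨i, h⟩ (x + 1) : ℕ) : ℂ) *
                Real.log ρ + ∑ x ∈ range (g : ℕ), (α (g + 1) ⟨i, h⟩ (x + 1) : ℂ) *
                  ℓ (x + 1) ρ := by
            rw [← Finset.sum_add_distrib]
            refine Finset.sum_congr rfl fun x hx => ?_
            have hx' := mem_range.1 hx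
            by_cases h5 : α (g + 1) ⟨i, h⟩ (x + 1) = 0
            · rw [h5]
              simp
            · rw [hylog (x + 1) (by omega) (h2 _ (by omega) h5) ρ hρ]
              push_cast
              ring
          rw [h4, ← Finset.sum_mul]
          push_cast
          ring
      · refine ⟨0, 0, fun _ => 0, fun _ _ => rfl, fun ρ _ => ?_⟩
        rw [e]
        unfold zz
        rw [if_neg h2]
        simp
    · have e : ∀ ρ, zf k alive f C α (g, i) ρ = yy k alive f C (g + 1) ρ := by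
        intro ρ
        simp [zf, h]
      by_cases h2 : alive (g + 1) ∧ (g : ℕ) + 1 < k
      · right
        obtain ⟨F', h3, h4⟩ := hpoly (g + 1) (by omega) (by omega)
        refine ⟨MvPolynomial.C (C (g + 1))⁻¹ *
          MvPolynomial.rename (fun i : Fin q => (g, i.castSucc)) F', ?_, ?_, ?_⟩
        · refine (MvPolynomial.totalDegree_mul _ _).trans ?_
          rw [MvPolynomial.totalDegree_C, zero_add]
          exact (MvPolynomial.totalDegree_rename_le _ _).trans h3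
        · intro p hp hmem
          have h5 := MvPolynomial.vars_mul _ _ hmem
          rw [MvPolynomial.vars_C, Finset.empty_union] at h5
          have h6 := MvPolynomial.vars_rename _ _ h5
          obtain ⟨i', -, rfl⟩ := Finset.mem_image.1 h6
          simp only [rkf, if_neg h, Fin.val_castSucc, i'.2, if_true] at hp
          omega
        · intro ρ hρ
          rw [e, map_mul, MvPolynomial.eval_C, hren, ← h4 ρ hρ,
            ← hstep (g + 1) (by omega) h2.2 h2.1 ρ hρ]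
          unfold yy
          rw [if_pos h2, div_eq_inv_mul]
      · left
        refine ⟨0, 0, fun _ => 0, fun _ _ => rfl, fun ρ _ => ?_⟩
        rw [e]
        unfold yy
        rw [if_neg h2]
        simp
  · obtain ⟨F', h3, h4⟩ := hpoly k hk le_rfl
    refine ⟨MvPolynomial.rename (fun i : Fin q => ((⟨k - 1, by omega⟩ : Fin k), i.castSucc)) F',
      (MvPolynomial.totalDegree_rename_le _ _).trans h3, fun ρ hρ => ?_⟩
    rw [hren, h4 ρ hρ]
    have h5 : (fun i => zz alive f C α (((⟨k - 1, by omega⟩ : Fin k) : ℕ) + 1) i ρ) =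
        fun i => zz alive f C α k i ρ := by
      funext i
      show zz alive f C α (k - 1 + 1) i ρ = _
      rw [Nat.sub_add_cancel hk]
    rw [h5]

end

end Pool.Agent.Lib.MP_641cb6_lc.KG
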