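import Pool.Agent.Lib.MP_641cb6_lc.KD.Defs
import Pool.Agent.Lib.MP_641cb6_lc.KC.Defs

/-!
# Computation trees with polynomial gates: definitions

Products, quotients and constants are free; a gate evaluates an arbitrary polynomial at values
computed before.
-/

set_option autoImplicit false

namespace Pool.Agent.Lib.MP_641cb6_lc.KG

open Pool.Agent.Lib.MP_641cb6_lc.KD (Deps)

/-- An instruction over the field `K`; `i`, `j` are numbers of values computed before. -/
inductive Ins (K : Type) [Field K]
  /-- a constant -/
  | const (c : K)
  /-- the product of two values -/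
  | mul (i j : ℕ)
  /-- the quotient of two values (`0` if the divisor is `0`); branches on whether the divisor is
  `0` -/
  | div (i j : ℕ)
  /-- a gate: the value of the polynomial `F` at the values with the numbers `i 0, ..., i (r - 1)` -/
  | gate (r : ℕ) (F : MvPolynomial (Fin r) K) (i : Fin r → ℕ)
  /-- a branch on a property of a value -/
  | test (i : ℕ)
  /-- a leaf with an answer -/
  | answer (b : Bool)

/-- A computation tree, possibly infinite: `T h` is the instruction that is executed after the
outcomes `h` of the steps made so far (the latest outcome comes first; steps without branching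
have the outcome `true`). -/
def GTree (K : Type) [Field K] : Type := List Bool → Ins K

/-- The state of a computation: the outcomes so far and the values computed so far (the input
included). -/
structure St (K : Type) where
  hist : List Bool
  vals : List K

/-- the value number `i` (`0` if there is none) -/
def St.val {K : Type} [Zero K] (s : St K) (i : ℕ) : K := s.vals.getD i 0

section Run

variable {K : Type} [Field K]

/-- One step of the computation; a test branches on whether `P` holds for the value. -/
noncomputable def GTree.step (P : K → Prop) (T : GTree K) (s : St K) : St K :=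
  open Classical in
  match T s.hist with
  | .const c => ⟨true :: s.hist, s.vals ++ [c]⟩
  | .mul i j => ⟨true :: s.hist, s.vals ++ [s.val i * s.val j]⟩
  | .div i j => ⟨decide (s.val j = 0) :: s.hist, s.vals ++ [s.val i / s.val j]⟩
  | .gate _ F i => ⟨true :: s.hist, s.vals ++ [MvPolynomial.eval (fun k => s.val (i k)) F]⟩
  | .test i => ⟨decide (P (s.val i)) :: s.hist, s.vals⟩
  | .answer _ => s

/-- The state after `k` steps on the input `x = (a, b)`, `a` in `K ^ n` and `b` in `K`: the value
number `i` is `a i` for `i < n` and `b` for `i = n`. -/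
noncomputable def GTree.run (P : K → Prop) (T : GTree K) {n : ℕ} (x : (Fin n → K) × K) : ℕ → St K
  | 0 => ⟨[], List.ofFn x.1 ++ [x.2]⟩
  | k + 1 => T.step P (GTree.run P T x k)

/-- all gates of the tree have at most `a` arguments and degree at most `D` -/
def GTree.Bounded (T : GTree K) (a D : ℕ) : Prop :=
  ∀ (h : List Bool) (r : ℕ) (F : MvPolynomial (Fin r) K) (i : Fin r → ℕ), T h = .gate r F i →
    r ≤ a ∧ F.totalDegree ≤ D

/-- Finitely many trees decide the set `S` jointly: every tree halts on every input, and the
Boolean function `Φ` applied to their answers tells whether the input is in `S`. -/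
def Decides (P : K → Prop) {n N : ℕ} (T : Fin N → GTree K) (Φ : (Fin N → Bool) → Prop)
    (S : Set ((Fin n → K) × K)) : Prop :=
  ∀ x, ∃ (k : Fin N → ℕ) (b : Fin N → Bool),
    (∀ w, T w ((T w).run P x (k w)).hist = .answer (b w)) ∧ (Φ b ↔ x ∈ S)

/-- The tree verifies the set `S` with `k` guesses from `K` in `t` steps: on every input of `n + k`
values and one more it has answered after `t` steps, and `(a, b)` is in `S` iff it answers `true`
on `((a, y), b)` for some `y` in `K ^ k`. -/
def Verifies (P : K → Prop) (V : GTree K) (k t : ℕ) {n : ℕ} (S : Set ((Fin n → K) × K)) : Prop :=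
  (∀ x : (Fin (n + k) → K) × K, ∃ b : Bool, V (V.run P x t).hist = .answer b) ∧
    ∀ x : (Fin n → K) × K, x ∈ S ↔
      ∃ y : Fin k → K, V (V.run P (Fin.append x.1 y, x.2) t).hist = .answer true

/-- The effect of an instruction on the dependence sets (`sums` are the gates here): a product or
quotient depends on the gates on which one of the two values depends, the value of a gate on that
gate and on the gates on which its arguments depend. -/
def next (ins : Ins K) (d : Deps) : Deps :=
  match ins with
  | .const _ => ⟨d.sums, d.vals ++ [∅]⟩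
  | .mul i j => ⟨d.sums, d.vals ++ [d.val i ∪ d.val j]⟩
  | .div i j => ⟨d.sums, d.vals ++ [d.val i ∪ d.val j]⟩
  | .gate _ _ i =>
      ⟨d.sums ++ [insert d.sums.length (Finset.univ.biUnion fun k => d.val (i k))],
        d.vals ++ [insert d.sums.length (Finset.univ.biUnion fun k => d.val (i k))]⟩
  | .test _ => d
  | .answer _ => d

/-- the dependence sets of the tree `T` on inputs from `K ^ n × K` after the outcomes `h` -/
def deps (n : ℕ) (T : GTree K) : List Bool → Deps
  | [] => ⟨[], List.replicate (n + 1) ∅⟩
  | _ :: h => next (T h) (deps n T h)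

/-- the instruction branches on the value number `i` -/
def Branches : Ins K → ℕ → Prop
  | .div _ j, i => i = j
  | .test j, i => i = j
  | _, _ => False

/-- On the input `x` the tree `T` branches on a value that depends on a gate which depends on
exactly `s` gates, itself included. -/
def UsesGate (P : K → Prop) (T : GTree K) {n : ℕ} (x : (Fin n → K) × K) (s : ℕ) : Prop :=
  ∃ k i a, Branches (T (T.run P x k).hist) i ∧ a ∈ (deps n T (T.run P x k).hist).val i ∧
    ((deps n T (T.run P x k).hist).sum a).card = s

end Run

section Sym

variable {K : Type} [Field K]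

/-- polynomials in `b` whose coefficients are polynomials in `a` -/
abbrev Pol (K : Type) [Field K] (n : ℕ) : Type := Polynomial (MvPolynomial (Fin n) K)

/-- the function of a polynomial -/
noncomputable def pf {n : ℕ} (P : Pol K n) (x : (Fin n → K) × K) : K :=
  (P.map (MvPolynomial.eval x.1)).eval x.2

/-- constants -/
noncomputable def cc (K : Type) [Field K] (n : ℕ) : K →+* Pol K n :=
  Polynomial.C.comp MvPolynomial.C

/-- a symbolic state: the polynomials of the gates evaluated so far, and for each value a factor
and the exponents of the atoms -/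
structure SSt (K : Type) [Field K] (n : ℕ) where
  atoms : List (Pol K n)
  vals : List (K × (ℕ →₀ ℤ))

/-- the atom number `l` -/
noncomputable def SSt.atom {n : ℕ} (s : SSt K n) (l : ℕ) : Pol K n :=
  if h : l < n then Polynomial.C (MvPolynomial.X ⟨l, h⟩)
  else if l = n then Polynomial.X else s.atoms.getD (l - n - 1) 1

/-- the value number `i` -/
noncomputable def SSt.val {n : ℕ} (s : SSt K n) (i : ℕ) : K × (ℕ →₀ ℤ) := s.vals.getD i (0, 0)

/-- a product of powers of atoms -/
noncomputable def SSt.mono {n : ℕ} (s : SSt K n) (e : ℕ → ℕ) : Pol K n :=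
  ∏ l ∈ Finset.range (n + 1 + s.atoms.length), s.atom l ^ e l

/-- the homogenization of `F (c 0 * X 1, ..., c (r - 1) * X r)` with `X 0` -/
noncomputable def homg {r : ℕ} (F : MvPolynomial (Fin r) K) (c : Fin r → K) :
    MvPolynomial (Fin (r + 1)) K :=
  ∑ ν ∈ F.support, MvPolynomial.monomial (Finsupp.cons (F.totalDegree - ∑ k, ν k) ν)
    (F.coeff ν * ∏ k, c k ^ ν k)

/-- the sum of the negative parts -/
noncomputable def negs {r : ℕ} (e : Fin r → (ℕ →₀ ℤ)) : ℕ →₀ ℤ :=
  ∑ k, (e k).mapRange (fun z : ℤ => max (-z) 0) (by simp)

/-- the polynomial of a gate whose arguments are `c k` times the product of the powers of the atoms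
with exponents `e k`, multiplied by a power of the denominators -/
noncomputable def gpol {n : ℕ} (s : SSt K n) {r : ℕ} (F : MvPolynomial (Fin r) K) (c : Fin r → K)
    (e : Fin r → (ℕ →₀ ℤ)) : Pol K n :=
  MvPolynomial.eval₂ (cc K n) (Fin.cons (s.mono fun l => (negs e l).toNat)
    fun k => s.mono fun l => (e k l + negs e l).toNat) (homg F c)

/-- one symbolic step with the instruction `ins` and the outcome `o` -/
noncomputable def sstep {n : ℕ} (ins : Ins K) (o : Bool) (s : SSt K n) : SSt K n :=
  match ins with
  | .const c => ⟨s.atoms, s.vals ++ [(c, 0)]⟩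
  | .mul i j => ⟨s.atoms, s.vals ++ [((s.val i).1 * (s.val j).1, (s.val i).2 + (s.val j).2)]⟩
  | .div i j => ⟨s.atoms, s.vals ++ [if o then (0, 0) else
      ((s.val i).1 / (s.val j).1, (s.val i).2 - (s.val j).2)]⟩
  | .gate _ F i =>
      ⟨s.atoms ++ [gpol s F (fun k => (s.val (i k)).1) fun k => (s.val (i k)).2],
        s.vals ++ [(1, Finsupp.single (n + 1 + s.atoms.length) 1 -
          F.totalDegree • negs fun k => (s.val (i k)).2)]⟩
  | .test _ => s
  | .answer _ => s

/-- the symbolic state of the tree after the outcomes `h` -/
noncomputable def sym (n : ℕ) (T : GTree K) : List Bool → SSt K n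
  | [] => ⟨[], List.ofFn (fun i : Fin n => ((1 : K), Finsupp.single (i : ℕ) (1 : ℤ))) ++
      [((1 : K), Finsupp.single n (1 : ℤ))]⟩
  | o :: h => sstep (T h) o (sym n T h)

/-- the function of the atom number `l` -/
noncomputable def SSt.ev {n : ℕ} (s : SSt K n) (x : (Fin n → K) × K) (l : ℕ) : K :=
  pf (s.atom l) x

/-- the test polynomial of the value number `i` -/
noncomputable def SSt.tpol {n : ℕ} (s : SSt K n) (i : ℕ) : Pol K n :=
  cc K n (s.val i).1 * s.mono (fun l => ((s.val i).2 l).natAbs)

end Sym

/-- `φ 0 = X` and each of `φ 1, ..., φ s` is a polynomial of degree at most `d` in `q` products of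
powers of the earlier ones. -/
def IsRG (φ : ℕ → Polynomial ℝ) (q d s : ℕ) : Prop :=
  φ 0 = Polynomial.X ∧ ∀ l, 1 ≤ l → l ≤ s → ∃ (F : MvPolynomial (Fin q) ℝ) (α : Fin q → ℕ → ℕ),
    F.totalDegree ≤ d ∧
    φ l = MvPolynomial.eval₂ Polynomial.C (fun i => ∏ j ∈ Finset.range l, φ j ^ α i j) F

/-- `φ 0 = b` and each of `φ 1, ..., φ s` is a polynomial over `ℂ` of degree at most `d` in `q`
products of powers of the earlier ones with factors from `ℂ[R]`. -/
def IsCG (φ : ℕ → KC.P2) (q d s : ℕ) : Prop :=
  φ 0 = Polynomial.X ∧ ∀ l, 1 ≤ l → l ≤ s → ∃ (F : MvPolynomial (Fin q) ℂ)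
    (κ : Fin q → Polynomial ℂ) (α : Fin q → ℕ → ℕ), F.totalDegree ≤ d ∧
    φ l = MvPolynomial.eval₂ (Polynomial.C.comp Polynomial.C)
      (fun i => KC.mon φ l (κ i) (α i)) F

/-- the bound for the real reduction with `r` functions and polynomials of degree `d` -/
def R1 (r d : ℕ) : ℕ := (d + 2) ^ (r + 1) * (2 * r + 6) ^ (r + 2) ^ 2

/-- the bound for the complex reduction -/
def C1 (r d : ℕ) : ℕ := (d + 2) ^ (2 * r + 1) * (6 * r + 7) ^ (2 * r + 2) ^ 2

end Pool.Agent.Lib.MP_641cb6_lc.KG
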