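import Pool.Agent.Lib.MP_641cb6_lc.KG.Defs
import Pool.Agent.Lib.MP_641cb6_lc.KD.Sub

/-!
# Symbolic states and dependence sets of trees with gates
-/

set_option autoImplicit false

namespace Pool.Agent.Lib.MP_641cb6_lc.KG

open Pool.Agent.Lib.MP_641cb6_lc.KD (Deps)

theorem getD_app {α : Type} (L : List α) (a d : α) (i : ℕ) :
    (L ++ [a]).getD i d = if i < L.length then L.getD i d else if i = L.length then a else d := by
  rcases lt_trichotomy i L.length with h | h | h
  · rw [if_pos h, List.getD_append _ _ _ _ h]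
  · subst h
    rw [if_neg (lt_irrefl _), if_pos rfl, List.getD_append_right _ _ _ _ le_rfl, Nat.sub_self]
    rfl
  · rw [if_neg (by omega), if_neg (by omega)]
    exact List.getD_eq_default _ _ (by simp; omega)

variable {K : Type} [Field K]

theorem homg_degree {r : ℕ} (F : MvPolynomial (Fin r) K) (c : Fin r → K) :
    (homg F c).totalDegree ≤ F.totalDegree := by
  classical
  unfold homg
  refine (MvPolynomial.totalDegree_finsetSum _ _).trans (Finset.sup_le fun ν hν => ?_)
  refine (MvPolynomial.totalDegree_monomial_le _ _).trans ?_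
  have h1 : (ν.sum fun _ e => e) ≤ F.totalDegree := MvPolynomial.le_totalDegree hν
  rw [Finsupp.sum_fintype _ _ (fun _ => rfl)] at h1
  rw [Finsupp.sum_fintype _ _ (fun _ => rfl), Fin.sum_univ_succ]
  simp only [Finsupp.cons_zero, Finsupp.cons_succ, id]
  omega

theorem negs_nonneg {r : ℕ} (e : Fin r → (ℕ →₀ ℤ)) (l : ℕ) : 0 ≤ negs e l := by
  unfold negs
  rw [Finsupp.finsetSum_apply]
  refine Finset.sum_nonneg fun k _ => ?_
  rw [Finsupp.mapRange_apply]
  exact le_max_right _ _

theorem negs_ge {r : ℕ} (e : Fin r → (ℕ →₀ ℤ)) (k : Fin r) (l : ℕ) : 0 ≤ e k l + negs e l := by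
  unfold negs
  rw [Finsupp.finsetSum_apply]
  have h : max (-(e k l)) 0 ≤ ∑ k, ((e k).mapRange (fun z : ℤ => max (-z) 0) (by simp)) l := by
    refine Finset.single_le_sum (f := fun k => ((e k).mapRange (fun z : ℤ => max (-z) 0)
      (by simp)) l) (fun k _ => ?_) (Finset.mem_univ k)
    simp only [Finsupp.mapRange_apply]
    exact le_max_right _ _
  have h2 : -(e k l) ≤ max (-(e k l)) 0 := le_max_left _ _
  omega

theorem negs_ne {r : ℕ} {e : Fin r → (ℕ →₀ ℤ)} {l : ℕ} (h : negs e l ≠ 0) : ∃ k, e k l < 0 := by
  by_contra hcon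
  push Not at hcon
  apply h
  unfold negs
  rw [Finsupp.finsetSum_apply]
  refine Finset.sum_eq_zero fun k _ => ?_
  rw [Finsupp.mapRange_apply]
  have := hcon k
  exact max_eq_right (by omega)

/-- how a symbolic state and the dependence sets fit together -/
structure Rel {n : ℕ} (a D : ℕ) (S : SSt K n) (d : Deps) : Prop where
  lenv : d.vals.length = S.vals.length
  lens : d.sums.length = S.atoms.length
  bdv : ∀ i, ∀ a ∈ d.val i, a < d.sums.length
  bds : ∀ k, ∀ a ∈ d.sum k, a ≤ k
  selfs : ∀ k < d.sums.length, k ∈ d.sum k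
  supp : ∀ i l, (S.val i).2 l ≠ 0 → l < n + 1 + S.atoms.length ∧
    (n + 1 ≤ l → l - (n + 1) ∈ d.val i)
  clv : ∀ i, ∀ a ∈ d.val i, d.sum a ⊆ d.val i
  cls : ∀ k, ∀ a ∈ d.sum k, d.sum a ⊆ d.sum k
  chn : ∀ k < S.atoms.length, ∃ (F : MvPolynomial (Fin (a + 1)) K) (α : Fin (a + 1) → ℕ → ℕ),
    F.totalDegree ≤ D ∧
    S.atom (n + 1 + k) = MvPolynomial.eval₂ (cc K n)
      (fun i => ∏ j ∈ Finset.range (n + 1 + k), S.atom j ^ α i j) F ∧
    ∀ i j, n + 1 ≤ j → α i j ≠ 0 → j - (n + 1) ∈ d.sum k

variable {n a D : ℕ} {S : SSt K n} {d : Deps}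

theorem atom_of_prefix {S S' : SSt K n} (hp : S.atoms <+: S'.atoms) (l : ℕ)
    (hl : l < n + 1 + S.atoms.length) : S'.atom l = S.atom l := by
  unfold SSt.atom
  split_ifs with h1 h2
  · rfl
  · rfl
  · have h3 : l - n - 1 < S.atoms.length := by omega
    obtain ⟨t, ht⟩ := hp
    rw [← ht, List.getD_append _ _ _ _ h3]

/-- a new value that is not the value of a gate -/
theorem Rel.pushVal (H : Rel a D S d) {v : K × (ℕ →₀ ℤ)} {A : Finset ℕ}
    (hs : ∀ l, v.2 l ≠ 0 → l < n + 1 + S.atoms.length ∧ (n + 1 ≤ l → l - (n + 1) ∈ A))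
    (hb : ∀ a ∈ A, a < d.sums.length)
    (hc : ∀ a ∈ A, d.sum a ⊆ A) :
    Rel a D (⟨S.atoms, S.vals ++ [v]⟩ : SSt K n) ⟨d.sums, d.vals ++ [A]⟩ where
  lenv := by simp [H.lenv]
  lens := H.lens
  bdv := by
    intro i a ha
    simp only [Deps.val, getD_app] at ha
    split_ifs at ha with h1 h2
    · exact H.bdv i a ha
    · exact hb a ha
    · exact absurd ha (Finset.notMem_empty a)
  bds := H.bds
  selfs := H.selfs
  supp := by
    intro i l hl
    simp only [SSt.val, getD_app] at hl
    simp only [Deps.val, getD_app, H.lenv]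
    split_ifs at hl ⊢ with h1 h2
    · exact H.supp i l hl
    · exact hs l hl
    · simp at hl
  clv := by
    intro i a ha
    simp only [Deps.val, getD_app] at ha ⊢
    split_ifs at ha ⊢ with h1 h2
    · exact H.clv i a ha
    · exact hc a ha
    · exact absurd ha (Finset.notMem_empty a)
  cls := H.cls
  chn := H.chn

/-- a new gate -/
theorem Rel.pushSum (H : Rel a D S d) {v : K × (ℕ →₀ ℤ)} {B : Finset ℕ} {p : Pol K n}
    (hs : ∀ l, v.2 l ≠ 0 → l < n + 1 + (S.atoms.length + 1) ∧
      (n + 1 ≤ l → l - (n + 1) ∈ insert d.sums.length B))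
    (hb : ∀ a ∈ B, a < d.sums.length) (hc : ∀ a ∈ B, d.sum a ⊆ B)
    (hp : ∃ (F : MvPolynomial (Fin (a + 1)) K) (α : Fin (a + 1) → ℕ → ℕ), F.totalDegree ≤ D ∧
      p = MvPolynomial.eval₂ (cc K n) (fun i => S.mono (α i)) F ∧
      ∀ i j, n + 1 ≤ j → α i j ≠ 0 → j - (n + 1) ∈ B) :
    Rel a D (⟨S.atoms ++ [p], S.vals ++ [v]⟩ : SSt K n)
      ⟨d.sums ++ [insert d.sums.length B], d.vals ++ [insert d.sums.length B]⟩ := by
  have hsum : ∀ a < d.sums.length,
      (⟨d.sums ++ [insert d.sums.length B], d.vals ++ [insert d.sums.length B]⟩ : Deps).sum a =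
        d.sum a := by
    intro a ha
    simp only [Deps.sum, getD_app, if_pos ha]
  have hsumE : (⟨d.sums ++ [insert d.sums.length B],
      d.vals ++ [insert d.sums.length B]⟩ : Deps).sum d.sums.length = insert d.sums.length B := by
    simp only [Deps.sum, getD_app, lt_irrefl, if_false, if_true]
  have hcl' : ∀ a ∈ insert d.sums.length B,
      (⟨d.sums ++ [insert d.sums.length B], d.vals ++ [insert d.sums.length B]⟩ : Deps).sum a ⊆
        insert d.sums.length B := by
    intro a ha
    rcases Finset.mem_insert.1 ha with h | h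
    · rw [h, hsumE]
    · rw [hsum a (hb a h)]
      exact (hc a h).trans (Finset.subset_insert _ _)
  have hpre : S.atoms <+: (⟨S.atoms ++ [p], S.vals ++ [v]⟩ : SSt K n).atoms :=
    List.prefix_append _ _
  constructor
  · simp [H.lenv]
  · simp [H.lens]
  · intro i a ha
    simp only [Deps.val, getD_app] at ha
    simp only [List.length_append, List.length_singleton]
    split_ifs at ha with h1 h2
    · have := H.bdv i a ha
      omega
    · rcases Finset.mem_insert.1 ha with h | h
      · omega
      · have := hb a h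
        omega
    · exact absurd ha (Finset.notMem_empty a)
  · intro k a ha
    simp only [Deps.sum, getD_app] at ha
    split_ifs at ha with h1 h2
    · exact H.bds k a ha
    · rcases Finset.mem_insert.1 ha with h | h
      · omega
      · have := hb a h
        omega
    · exact absurd ha (Finset.notMem_empty a)
  · intro k hk
    simp only [List.length_append, List.length_singleton] at hk
    rcases Nat.lt_or_ge k d.sums.length with h | h
    · rw [hsum k h]
      exact H.selfs k h
    · obtain rfl : k = d.sums.length := by omega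
      rw [hsumE]
      exact Finset.mem_insert_self _ _
  · intro i l hl
    simp only [SSt.val, getD_app] at hl
    simp only [Deps.val, getD_app, H.lenv, List.length_append, List.length_singleton]
    split_ifs at hl ⊢ with h1 h2
    · obtain ⟨h3, h4⟩ := H.supp i l hl
      exact ⟨by omega, h4⟩
    · exact hs l hl
    · simp at hl
  · intro i a ha
    have ha' := ha
    simp only [Deps.val, getD_app] at ha'
    split_ifs at ha' with h1 h2
    · have h3 := H.bdv i a ha'
      rw [hsum a h3]
      simp only [Deps.val, getD_app, if_pos h1]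
      exact H.clv i a ha'
    · refine (hcl' a ha').trans ?_
      simp only [Deps.val, getD_app, h2, lt_irrefl, if_false, if_true]
      exact le_rfl
    · exact absurd ha' (Finset.notMem_empty a)
  · intro k a ha
    rcases lt_trichotomy k d.sums.length with h | h | h
    · rw [hsum k h] at ha ⊢
      have h1 := H.bds k a ha
      rw [hsum a (by omega)]
      exact H.cls k a ha
    · subst h
      rw [hsumE] at ha ⊢
      exact hcl' a ha
    · exfalso
      simp only [Deps.sum, getD_app] at ha
      rw [if_neg (by omega), if_neg (by omega)] at ha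
      exact Finset.notMem_empty a ha
  · intro k hk
    simp only [List.length_append, List.length_singleton] at hk
    have hpr : ∀ t ≤ n + 1 + S.atoms.length, ∀ β : ℕ → ℕ, ∏ j ∈ Finset.range t,
        (⟨S.atoms ++ [p], S.vals ++ [v]⟩ : SSt K n).atom j ^ β j =
        ∏ j ∈ Finset.range t, S.atom j ^ β j := fun t ht β =>
      Finset.prod_congr rfl fun j hj => by
        rw [atom_of_prefix hpre j (by have := Finset.mem_range.1 hj; omega)]
    rcases Nat.lt_or_ge k S.atoms.length with h | h
    · obtain ⟨F, α, hF, he, h1⟩ := H.chn k h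
      refine ⟨F, α, hF, ?_, ?_⟩
      · rw [atom_of_prefix hpre _ (by omega), he]
        congr 1
        funext i
        rw [hpr _ (by omega)]
      · rw [hsum k (by rw [H.lens]; exact h)]
        exact h1
    · obtain ⟨F, α, hF, he, h1⟩ := hp
      have hk' : k = d.sums.length := by rw [H.lens]; omega
      refine ⟨F, α, hF, ?_, ?_⟩
      · have hk'' : k = S.atoms.length := by omega
        have h5 : (⟨S.atoms ++ [p], S.vals ++ [v]⟩ : SSt K n).atom (n + 1 + k) = p := by
          rw [hk'']
          unfold SSt.atom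
          rw [dif_neg (by omega), if_neg (by omega)]
          have h3 : n + 1 + S.atoms.length - n - 1 = S.atoms.length := by omega
          rw [h3, List.getD_append_right _ _ _ _ le_rfl, Nat.sub_self]
          rfl
        have h6 : (fun i => ∏ j ∈ Finset.range (n + 1 + k),
            (⟨S.atoms ++ [p], S.vals ++ [v]⟩ : SSt K n).atom j ^ α i j) =
            fun i => S.mono (α i) := by
          funext i
          rw [hk'', hpr _ le_rfl]
          rfl
        rw [h5, h6, he]
      · intro i j hj hj'
        rw [hk', hsumE]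
        exact Finset.mem_insert_of_mem (h1 i j hj hj')

theorem Rel.union (H : Rel a D S d) (i j : ℕ) :
    (∀ a ∈ d.val i ∪ d.val j, a < d.sums.length) ∧
      ∀ a ∈ d.val i ∪ d.val j, d.sum a ⊆ d.val i ∪ d.val j := by
  constructor
  · intro a ha
    rcases Finset.mem_union.1 ha with h | h
    · exact H.bdv i a h
    · exact H.bdv j a h
  · intro a ha
    rcases Finset.mem_union.1 ha with h | h
    · exact (H.clv i a h).trans Finset.subset_union_left
    · exact (H.clv j a h).trans Finset.subset_union_right

theorem Rel.biUnion (H : Rel a D S d) {r : ℕ} (i : Fin r → ℕ) :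
    (∀ a ∈ Finset.univ.biUnion fun k => d.val (i k), a < d.sums.length) ∧
      ∀ a ∈ Finset.univ.biUnion fun k => d.val (i k),
        d.sum a ⊆ Finset.univ.biUnion fun k => d.val (i k) := by
  constructor
  · intro a ha
    obtain ⟨k, -, h⟩ := Finset.mem_biUnion.1 ha
    exact H.bdv _ a h
  · intro a ha
    obtain ⟨k, hk, h⟩ := Finset.mem_biUnion.1 ha
    exact (H.clv _ a h).trans (Finset.subset_biUnion_of_mem (fun k => d.val (i k)) hk)

/-- the polynomial of a gate in the form of `Rel.chn` -/
theorem gpol_form (s : SSt K n) {r : ℕ} (F : MvPolynomial (Fin r) K) (c : Fin r → K)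
    (e : Fin r → (ℕ →₀ ℤ)) (hr : r ≤ a) (hF : F.totalDegree ≤ D) :
    ∃ (F' : MvPolynomial (Fin (a + 1)) K) (α : Fin (a + 1) → ℕ → ℕ), F'.totalDegree ≤ D ∧
      gpol s F c e = MvPolynomial.eval₂ (cc K n) (fun i => s.mono (α i)) F' ∧
      ∀ i j, α i j ≠ 0 → ∃ k, e k j ≠ 0 := by
  classical
  have hle : r + 1 ≤ a + 1 := by omega
  set α₀ : Fin (r + 1) → ℕ → ℕ := Fin.cons (fun l => (negs e l).toNat)
    fun k l => (e k l + negs e l).toNat with hα₀
  set α : Fin (a + 1) → ℕ → ℕ := fun i =>
    if h : (i : ℕ) < r + 1 then α₀ ⟨i, h⟩ else fun _ => 0 with hα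
  refine ⟨MvPolynomial.rename (Fin.castLE hle) (homg F c), α,
    (MvPolynomial.totalDegree_rename_le _ _).trans ((homg_degree F c).trans hF), ?_, ?_⟩
  · rw [MvPolynomial.eval₂_rename]
    unfold gpol
    congr 1
    funext i
    have h1 : α (Fin.castLE hle i) = α₀ i := by
      simp only [hα, Fin.val_castLE, i.2, dif_pos]
    simp only [Function.comp_apply]
    rw [h1]
    refine Fin.cases ?_ (fun k => ?_) i
    · rfl
    · rfl
  · intro i j hij
    simp only [hα] at hij
    split_ifs at hij with h
    · revert hij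
      generalize (⟨i, h⟩ : Fin (r + 1)) = i'
      refine Fin.cases ?_ (fun k => ?_) i'
      · intro h1
        have h2 : (negs e j).toNat ≠ 0 := h1
        obtain ⟨k, hk⟩ := negs_ne (e := e) (l := j) (by omega)
        exact ⟨k, by omega⟩
      · intro h1
        have h2 : (e k j + negs e j).toNat ≠ 0 := h1
        by_cases h3 : e k j = 0
        · obtain ⟨k', hk⟩ := negs_ne (e := e) (l := j) (by omega)
          exact ⟨k', by omega⟩
        · exact ⟨k, h3⟩
    · exact absurd rfl hij

theorem Rel.next (H : Rel a D S d) (ins : Ins K)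
    (hins : ∀ (r : ℕ) (F : MvPolynomial (Fin r) K) (i : Fin r → ℕ), ins = .gate r F i →
      r ≤ a ∧ F.totalDegree ≤ D) (o : Bool) : Rel a D (sstep ins o S) (KG.next ins d) := by
  have hor : ∀ i j l, (S.val i).2 l ≠ 0 ∨ (S.val j).2 l ≠ 0 → l < n + 1 + S.atoms.length ∧
      (n + 1 ≤ l → l - (n + 1) ∈ d.val i ∪ d.val j) := by
    intro i j l h
    rcases h with h | h
    · obtain ⟨h1, h2⟩ := H.supp i l h
      exact ⟨h1, fun hl => Finset.mem_union_left _ (h2 hl)⟩
    · obtain ⟨h1, h2⟩ := H.supp j l h
      exact ⟨h1, fun hl => Finset.mem_union_right _ (h2 hl)⟩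
  cases ins with
  | const c =>
    refine H.pushVal ?_ ?_ ?_
    · intro l hl
      simp at hl
    · intro a ha
      exact absurd ha (Finset.notMem_empty a)
    · intro a ha
      exact absurd ha (Finset.notMem_empty a)
  | mul i j =>
    refine H.pushVal ?_ (H.union i j).1 (H.union i j).2
    intro l hl
    refine hor i j l ?_
    by_contra hcon
    push Not at hcon
    apply hl
    simp only [Finsupp.add_apply, hcon.1, hcon.2, add_zero]
  | div i j =>
    refine H.pushVal ?_ (H.union i j).1 (H.union i j).2
    intro l hl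
    refine hor i j l ?_
    by_contra hcon
    push Not at hcon
    apply hl
    split_ifs
    · rfl
    · simp only [Finsupp.sub_apply, hcon.1, hcon.2, sub_zero]
  | gate r F i =>
    obtain ⟨hr, hF⟩ := hins r F i rfl
    have hk : ∀ l, (∃ k, (S.val (i k)).2 l ≠ 0) → l < n + 1 + S.atoms.length ∧
        (n + 1 ≤ l → l - (n + 1) ∈ Finset.univ.biUnion fun k => d.val (i k)) := by
      rintro l ⟨k, hk⟩
      obtain ⟨h1, h2⟩ := H.supp (i k) l hk
      exact ⟨h1, fun hl => Finset.mem_biUnion.2 ⟨k, Finset.mem_univ _, h2 hl⟩⟩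
    refine H.pushSum (B := Finset.univ.biUnion fun k => d.val (i k)) ?_ (H.biUnion i).1
      (H.biUnion i).2 ?_
    · intro l hl
      by_cases hl0 : l = n + 1 + S.atoms.length
      · refine ⟨by omega, fun _ => ?_⟩
        rw [Finset.mem_insert]
        left
        rw [H.lens]
        omega
      · have h1 : ∃ k, (S.val (i k)).2 l ≠ 0 := by
          by_contra hcon
          push Not at hcon
          apply hl
          have h2 : negs (fun k => (S.val (i k)).2) l = 0 := by
            by_contra h3
            obtain ⟨k, hk⟩ := negs_ne h3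
            have := hcon k
            omega
          simp only [Finsupp.sub_apply, Finsupp.smul_apply, h2, smul_zero, sub_zero]
          rw [Finsupp.single_apply, if_neg (Ne.symm hl0)]
        obtain ⟨h2, h3⟩ := hk l h1
        exact ⟨by omega, fun hl' => Finset.mem_insert_of_mem (h3 hl')⟩
    · obtain ⟨F', α, h1, h2, h3⟩ := gpol_form (a := a) (D := D) S F
        (fun k => (S.val (i k)).1) (fun k => (S.val (i k)).2) hr hF
      exact ⟨F', α, h1, h2, fun i' j hj hne => (hk j (h3 i' j hne)).2 hj⟩
  | test i => exact H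
  | answer b => exact H

theorem rel_start (n : ℕ) (a D : ℕ) (T : GTree K) : Rel a D (sym n T []) (deps n T []) := by
  have hv : ∀ i, (deps n T []).val i = ∅ := by
    intro i
    simp only [deps, Deps.val]
    rcases Nat.lt_or_ge i (n + 1) with h | h
    · rw [List.getD_replicate _ h]
    · exact List.getD_eq_default _ _ (by simpa using h)
  have hs : ∀ a, (deps n T []).sum a = ∅ := by
    intro a
    simp [deps, Deps.sum]
  constructor
  · simp [deps, sym]
  · simp [deps, sym]
  · intro i a ha
    rw [hv] at ha
    exact absurd ha (Finset.notMem_empty a)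
  · intro k a ha
    rw [hs] at ha
    exact absurd ha (Finset.notMem_empty a)
  · intro k hk
    simp [deps] at hk
  · intro i l hl
    have h1 : l < n + 1 := by
      simp only [SSt.val, sym] at hl
      rcases Nat.lt_or_ge i (n + 1) with h | h
      · rw [getD_app] at hl
        simp only [List.length_ofFn] at hl
        split_ifs at hl with h1 h2
        · rw [List.getD_eq_getElem _ _ (by simpa using h1), List.getElem_ofFn] at hl
          simp only [Finsupp.single_apply] at hl
          split_ifs at hl with h3
          · omega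
          · exact absurd rfl hl
        · simp only [Finsupp.single_apply] at hl
          split_ifs at hl with h3
          · omega
          · exact absurd rfl hl
        · simp at hl
      · rw [List.getD_eq_default _ _ (by simpa using h)] at hl
        simp at hl
    exact ⟨by omega, fun h2 => by omega⟩
  · intro i a ha
    rw [hv] at ha
    exact absurd ha (Finset.notMem_empty a)
  · intro k a ha
    rw [hs] at ha
    exact absurd ha (Finset.notMem_empty a)
  · intro k hk
    simp [sym] at hk

theorem rel (n : ℕ) {a D : ℕ} {T : GTree K} (hT : T.Bounded a D) (h : List Bool) :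
    Rel a D (sym n T h) (deps n T h) := by
  induction h with
  | nil => exact rel_start n a D T
  | cons o h ih => exact ih.next (T h) (fun r F i he => hT h r F i he) o

end Pool.Agent.Lib.MP_641cb6_lc.KG
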