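import Pool.Agent.Lib.MP_641cb6_lc.KG.Diff
import Pool.Agent.Lib.MP_641cb6_lc.KG.Rel

/-!
# Atoms and dependence sets do not change later
-/

set_option autoImplicit false

namespace Pool.Agent.Lib.MP_641cb6_lc.KG

open Pool.Agent.Lib.MP_641cb6_lc.KD (Deps)

variable {K : Type} [Field K]

/-- the history grows at the front -/
theorem hist_suffix (P : K → Prop) (T : GTree K) {n : ℕ} (x : (Fin n → K) × K) (k j : ℕ) :
    ∃ h', (T.run P x (k + j)).hist = h' ++ (T.run P x k).hist := by
  classical
  induction j with
  | zero => exact ⟨[], rfl⟩
  | succ j ih =>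
    obtain ⟨h', hh⟩ := ih
    rw [← Nat.add_assoc]
    have h1 : T.run P x (k + j + 1) = T.step P (T.run P x (k + j)) := rfl
    rw [h1]
    unfold GTree.step
    cases T (T.run P x (k + j)).hist with
    | const c => exact ⟨true :: h', by simp [hh]⟩
    | mul i j => exact ⟨true :: h', by simp [hh]⟩
    | div i l => exact ⟨_ :: h', congrArg (List.cons _) hh⟩
    | gate r F i => exact ⟨true :: h', by simp [hh]⟩
    | test i => exact ⟨_ :: h', congrArg (List.cons _) hh⟩
    | answer b => exact ⟨h', hh⟩

theorem sstep_prefix {n : ℕ} (ins : Ins K) (o : Bool) (s : SSt K n) :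
    s.atoms <+: (sstep ins o s).atoms := by
  cases ins with
  | gate r F i => exact List.prefix_append _ _
  | _ => exact List.prefix_rfl

theorem sym_prefix {n : ℕ} (T : GTree K) (h h' : List Bool) :
    (sym n T h).atoms <+: (sym n T (h' ++ h)).atoms := by
  induction h' with
  | nil => exact List.prefix_rfl
  | cons o h' ih => exact ih.trans (sstep_prefix _ _ _)

theorem sym_atom {n : ℕ} (T : GTree K) (h h' : List Bool) (l : ℕ)
    (hl : l < n + 1 + (sym n T h).atoms.length) :
    (sym n T (h' ++ h)).atom l = (sym n T h).atom l :=
  atom_of_prefix (sym_prefix T h h') l hl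

/-- the dependence sets of the gates do not change later -/
theorem sums_prefix (n : ℕ) (T : GTree K) (h h' : List Bool) :
    (deps n T h).sums <+: (deps n T (h' ++ h)).sums := by
  induction h' with
  | nil => exact List.prefix_rfl
  | cons o h' ih =>
    refine ih.trans ?_
    show (deps n T (h' ++ h)).sums <+: (next (T (h' ++ h)) (deps n T (h' ++ h))).sums
    cases T (h' ++ h) with
    | gate r F i => exact List.prefix_append _ _
    | _ => exact List.prefix_rfl

theorem sum_later (n : ℕ) (T : GTree K) (h h' : List Bool) {a : ℕ}
    (ha : a < (deps n T h).sums.length) :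
    (deps n T (h' ++ h)).sum a = (deps n T h).sum a := by
  obtain ⟨t, ht⟩ := sums_prefix n T h h'
  unfold Deps.sum
  rw [← ht, List.getD_append _ _ _ _ ha]

/-- the number of gates that the tree `T` evaluates in the first `k` steps on the input `x` -/
noncomputable def gates (P : K → Prop) (T : GTree K) {n : ℕ} (x : (Fin n → K) × K) (k : ℕ) : ℕ :=
  open Classical in
  ((Finset.range k).filter fun j => ∃ (r : ℕ) (F : MvPolynomial (Fin r) K) (i : Fin r → ℕ),
    T (T.run P x j).hist = .gate r F i).card

theorem atoms_length (P : K → Prop) (T : GTree K) {n : ℕ} (x : (Fin n → K) × K) (k : ℕ) :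
    (sym n T (T.run P x k).hist).atoms.length = gates P T x k := by
  classical
  induction k with
  | zero =>
    unfold gates
    simp only [Finset.range_zero, Finset.filter_empty, Finset.card_empty]
    rfl
  | succ k ih =>
    have hc : gates P T x (k + 1) = gates P T x k + if (∃ (r : ℕ) (F : MvPolynomial (Fin r) K)
        (i : Fin r → ℕ), T (T.run P x k).hist = .gate r F i) then 1 else 0 := by
      unfold gates
      rw [Finset.range_add_one, Finset.filter_insert]
      split_ifs with h
      · rw [Finset.card_insert_of_notMem (fun h' => absurd (Finset.mem_filter.1 h').1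
          Finset.notMem_range_self)]
      · rfl
    rw [hc, ← ih]
    have h1 : T.run P x (k + 1) = T.step P (T.run P x k) := rfl
    rw [h1]
    unfold GTree.step
    have hs : ∀ o, sym n T (o :: (T.run P x k).hist) =
        sstep (T (T.run P x k).hist) o (sym n T (T.run P x k).hist) := fun o => rfl
    cases hT : T (T.run P x k).hist with
    | gate r F i =>
      rw [if_pos ⟨r, F, i, rfl⟩]
      show (sym n T (true :: (T.run P x k).hist)).atoms.length = _
      rw [hs, hT]
      simp [sstep]
    | const c =>
      rw [if_neg (by rintro ⟨r, F, i, h⟩; cases h)]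
      show (sym n T (true :: (T.run P x k).hist)).atoms.length = _
      rw [hs, hT]
      rfl
    | mul i j =>
      rw [if_neg (by rintro ⟨r, F, i, h⟩; cases h)]
      show (sym n T (true :: (T.run P x k).hist)).atoms.length = _
      rw [hs, hT]
      rfl
    | div i j =>
      rw [if_neg (by rintro ⟨r, F, i, h⟩; cases h)]
      show (sym n T (_ :: (T.run P x k).hist)).atoms.length = _
      rw [hs, hT]
      rfl
    | test i =>
      rw [if_neg (by rintro ⟨r, F, i, h⟩; cases h)]
      show (sym n T (_ :: (T.run P x k).hist)).atoms.length = _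
      rw [hs, hT]
      rfl
    | answer b =>
      rw [if_neg (by rintro ⟨r, F, i, h⟩; cases h)]
      rfl

end Pool.Agent.Lib.MP_641cb6_lc.KG
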