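import Pool.Agent.Lib.MP_641cb6_lc.KG.RRed
import Pool.Agent.Lib.MP_641cb6_lc.KH.Chain

/-!
# RCHG: zeros of a chain of gates
-/

set_option autoImplicit false

namespace Pool.Agent.Lib.MP_641cb6_lc.KG

open Set Topology
open Pool.Agent.Lib.MP_641cb6_lc.KH (good reg)

/-- a polynomial with some variables replaced by `0` -/
theorem kill {q : ℕ} (F : MvPolynomial (Fin q) ℝ) (D : Fin q → Prop) [DecidablePred D] :
    ∃ F' : MvPolynomial (Fin q) ℝ, F'.totalDegree ≤ F.totalDegree ∧ (∀ i ∈ F'.vars, ¬ D i) ∧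
      ∀ {R : Type} [CommRing R] (f : ℝ →+* R) (g g' : Fin q → R), (∀ i, D i → g i = 0) →
        (∀ i, ¬ D i → g' i = g i) → MvPolynomial.eval₂ f g F = MvPolynomial.eval₂ f g' F' := by
  classical
  set F' : MvPolynomial (Fin q) ℝ := ∑ ν ∈ F.support.filter (fun ν => ∀ i, D i → ν i = 0),
    MvPolynomial.monomial ν (F.coeff ν) with hF'
  refine ⟨F', ?_, ?_, ?_⟩
  · refine (MvPolynomial.totalDegree_finsetSum _ _).trans (Finset.sup_le fun ν hν => ?_)
    exact (MvPolynomial.totalDegree_monomial_le _ _).trans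
      (MvPolynomial.le_totalDegree (Finset.mem_filter.1 hν).1)
  · intro i hi hD
    have h1 := MvPolynomial.vars_sum_subset _ _ hi
    rw [Finset.mem_biUnion] at h1
    obtain ⟨ν, hν, h2⟩ := h1
    obtain ⟨h3, h4⟩ := Finset.mem_filter.1 hν
    rw [MvPolynomial.vars_monomial (MvPolynomial.mem_support_iff.1 h3),
      Finsupp.mem_support_iff] at h2
    exact h2 (h4 i hD)
  · intro R _ f g g' hg hg'
    rw [MvPolynomial.eval₂_eq', hF', MvPolynomial.eval₂_sum, Finset.sum_filter]
    refine Finset.sum_congr rfl fun ν hν => ?_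
    split_ifs with h
    · rw [MvPolynomial.eval₂_monomial, Finsupp.prod_fintype _ _ (fun _ => pow_zero _)]
      congr 1
      refine Finset.prod_congr rfl fun i _ => ?_
      by_cases hi : D i
      · rw [h i hi, pow_zero, pow_zero]
      · rw [hg' i hi]
    · push Not at h
      obtain ⟨i, hi, hi'⟩ := h
      rw [Finset.prod_eq_zero (Finset.mem_univ i) (by rw [hg i hi, zero_pow hi']), mul_zero]

theorem poly_contDiff (P : Polynomial ℝ) : ContDiff ℝ 1 fun b => P.eval b := by
  simpa using P.contDiff_aeval (𝕜 := ℝ) 1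

/-- the zeros of `φ l` at good points -/
theorem gzeros_step {φ : ℕ → Polynomial ℝ} {q d s l : ℕ} (h : IsRG φ q d s) (hl1 : 1 ≤ l)
    (hls : l ≤ s) :
    {b : ℝ | b ∈ good φ l ∧ φ l ≠ 0 ∧ (φ l).eval b = 0}.encard ≤
      ((2 * R1 (l * (q + 1)) d : ℕ) : ℕ∞) := by
  classical
  by_cases hφl : φ l = 0
  · have : {b : ℝ | b ∈ good φ l ∧ φ l ≠ 0 ∧ (φ l).eval b = 0} = ∅ := by
      rw [eq_empty_iff_forall_notMem]
      rintro b ⟨-, h0, -⟩
      exact h0 hφl
    rw [this, encard_empty]
    exact bot_le
  -- the polynomials and exponents of the gates `1, ..., l`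
  have hg : ∀ j : Fin l, ∃ (F : MvPolynomial (Fin q) ℝ) (α : Fin q → ℕ → ℕ),
      F.totalDegree ≤ d ∧ φ (j + 1) = MvPolynomial.eval₂ Polynomial.C
        (fun i => ∏ j' ∈ Finset.range ((j : ℕ) + 1), φ j' ^ α i j') F := by
    intro j
    exact h.2 ((j : ℕ) + 1) (by omega) (by have := j.2; omega)
  choose F α hFd hF using hg
  -- alive monomials
  let dead : Fin l → Fin q → Prop := fun j i => ∃ j' ≤ (j : ℕ), α j i j' ≠ 0 ∧ φ j' = 0
  have hdead : ∀ j i, dead j i → (∏ j' ∈ Finset.range ((j : ℕ) + 1), φ j' ^ α j i j') = 0 := by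
    rintro j i ⟨j', h1, h2, h3⟩
    exact Finset.prod_eq_zero (i := j') (Finset.mem_range.2 (by omega)) (by rw [h3, zero_pow h2])
  choose F' hF'd hF'v hF' using fun j => kill (F j) (dead j)
  set V : Set ℝ := good φ l with hV
  have hVo : IsOpen V := KH.chain_isOpen_good φ l
  have hV0 : ∀ b ∈ V, b ≠ 0 := by
    intro b hb
    have := hb 0 (by omega) (by rw [h.1]; exact Polynomial.X_ne_zero)
    rwa [h.1, Polynomial.eval_X] at this
  -- the functions
  let I : Type := Fin l × Fin (q + 1)
  let z : I → ℝ → ℝ := fun p b =>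
    if hq : (p.2 : ℕ) < q then
      (if dead p.1 ⟨p.2, hq⟩ then 1 else
        ∏ j' ∈ Finset.range ((p.1 : ℕ) + 1), (φ j').eval b ^ α p.1 ⟨p.2, hq⟩ j')
    else if (p.1 : ℕ) + 1 < l ∧ φ ((p.1 : ℕ) + 1) ≠ 0 then (φ ((p.1 : ℕ) + 1)).eval b else 1
  have hzm : ∀ (j : Fin l) (i : Fin q) (b : ℝ), z (j, i.castSucc) b =
      if dead j i then 1 else ∏ j' ∈ Finset.range ((j : ℕ) + 1), (φ j').eval b ^ α j i j' := by
    intro j i b
    show (if hq : ((Fin.castSucc i : Fin (q + 1)) : ℕ) < q then _ else _) = _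
    rw [dif_pos (by simp)]
    rfl
  have hzv : ∀ (j : Fin l) (b : ℝ), z (j, Fin.last q) b =
      if (j : ℕ) + 1 < l ∧ φ ((j : ℕ) + 1) ≠ 0 then (φ ((j : ℕ) + 1)).eval b else 1 := by
    intro j b
    show (if hq : ((Fin.last q : Fin (q + 1)) : ℕ) < q then _ else _) = _
    rw [dif_neg (by simp)]
  let rk : I → ℕ := fun p => if (p.2 : ℕ) < q then 2 * p.1 else 2 * p.1 + 1
  have hrkm : ∀ (j : Fin l) (i : Fin q), rk (j, i.castSucc) = 2 * j := by
    intro j i
    show (if ((Fin.castSucc i : Fin (q + 1)) : ℕ) < q then _ else _) = _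
    rw [if_pos (by simp)]
  have hrkv : ∀ (j : Fin l), rk (j, Fin.last q) = 2 * j + 1 := by
    intro j
    show (if ((Fin.last q : Fin (q + 1)) : ℕ) < q then _ else _) = _
    rw [if_neg (by simp)]
  -- the values of the gates as polynomials
  have hval : ∀ (j : Fin l) (b : ℝ), (φ ((j : ℕ) + 1)).eval b =
      MvPolynomial.eval (fun p => z p b)
        (MvPolynomial.rename (fun i : Fin q => ((j, i.castSucc) : I)) (F' j)) := by
    intro j b
    rw [MvPolynomial.eval_rename]
    have h1 : (φ ((j : ℕ) + 1)).eval b = MvPolynomial.eval₂ (RingHom.id ℝ)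
        (fun i => ∏ j' ∈ Finset.range ((j : ℕ) + 1), (φ j').eval b ^ α j i j') (F j) := by
      rw [hF j, ← Polynomial.coe_evalRingHom, MvPolynomial.hom_eval₂]
      congr 1
      · ext c
        simp
      · funext i
        simp
    rw [h1, hF' j (RingHom.id ℝ) _ (fun i => z (j, i.castSucc) b)]
    · rfl
    · intro i hi
      have h2 := congrArg (Polynomial.eval b) (hdead j i hi)
      simpa [Polynomial.eval_prod] using h2
    · intro i hi
      rw [hzm, if_neg hi]
  have hpos : ∀ (j : Fin l) (i : Fin q), ¬ dead j i → ∀ j' ≤ (j : ℕ), α j i j' ≠ 0 →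
      φ j' ≠ 0 := by
    intro j i hd j' hj' hα h0
    exact hd ⟨j', hj', hα, h0⟩
  have hsplit : ∀ p : I, (∃ (j : Fin l) (i : Fin q), p = (j, i.castSucc)) ∨
      ∃ j : Fin l, p = (j, Fin.last q) := by
    rintro ⟨j, i⟩
    refine Fin.lastCases ?_ (fun i => ?_) i
    · exact Or.inr ⟨j, rfl⟩
    · exact Or.inl ⟨j, i, rfl⟩
  have hsmooth : ∀ p, ContDiffOn ℝ 1 (z p) V := by
    intro p
    rcases hsplit p with ⟨j, i, rfl⟩ | ⟨j, rfl⟩
    · by_cases hd : dead j i
      · have : z (j, i.castSucc) = fun _ => 1 := by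
          funext b
          rw [hzm, if_pos hd]
        rw [this]
        exact contDiffOn_const
      · have : z (j, i.castSucc) = fun b => ∏ j' ∈ Finset.range ((j : ℕ) + 1),
            (φ j').eval b ^ α j i j' := by
          funext b
          rw [hzm, if_neg hd]
        rw [this]
        exact (contDiff_prod fun j' _ => (poly_contDiff (φ j')).pow _).contDiffOn
    · by_cases hd : (j : ℕ) + 1 < l ∧ φ ((j : ℕ) + 1) ≠ 0
      · have : z (j, Fin.last q) = fun b => (φ ((j : ℕ) + 1)).eval b := by
          funext b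
          rw [hzv, if_pos hd]
        rw [this]
        exact (poly_contDiff _).contDiffOn
      · have : z (j, Fin.last q) = fun _ => 1 := by
          funext b
          rw [hzv, if_neg hd]
        rw [this]
        exact contDiffOn_const
  have hne : ∀ p, ∀ b ∈ V, z p b ≠ 0 := by
    intro p b hb
    rcases hsplit p with ⟨j, i, rfl⟩ | ⟨j, rfl⟩
    · rw [hzm]
      split_ifs with hd
      · exact one_ne_zero
      · refine Finset.prod_ne_zero_iff.2 fun j' hj' => ?_
        have h1 := Finset.mem_range.1 hj'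
        by_cases h0 : α j i j' = 0
        · rw [h0, pow_zero]
          exact one_ne_zero
        · have := j.2
          exact pow_ne_zero _ (hb j' (by omega) (hpos j i hd j' (by omega) h0))
    · rw [hzv]
      split_ifs with hd
      · exact hb _ hd.1 hd.2
      · exact one_ne_zero
  -- the relations
  have hrel : ∀ p, (∃ (c a₀ : ℝ) (A : I → ℝ), (∀ p', rk p ≤ rk p' → A p' = 0) ∧
        ∀ b ∈ V, Real.log (z p b) = c + a₀ * Real.log b + ∑ p', A p' * Real.log (z p' b)) ∨
      (∃ P : MvPolynomial I ℝ, P.totalDegree ≤ d ∧ (∀ p', rk p ≤ rk p' → p' ∉ P.vars) ∧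
        ∀ b ∈ V, z p b = MvPolynomial.eval (fun p' => z p' b) P) := by
    have htriv : ∀ p, (∀ b, z p b = 1) → (∃ (c a₀ : ℝ) (A : I → ℝ),
        (∀ p', rk p ≤ rk p' → A p' = 0) ∧
        ∀ b ∈ V, Real.log (z p b) = c + a₀ * Real.log b + ∑ p', A p' * Real.log (z p' b)) := by
      intro p hp
      refine ⟨0, 0, fun _ => 0, fun _ _ => rfl, fun b _ => ?_⟩
      rw [hp, Real.log_one]
      simp
    intro p
    rcases hsplit p with ⟨j, i, rfl⟩ | ⟨j, rfl⟩
    · left
      by_cases hd : dead j i
      · exact htriv _ fun b => by rw [hzm, if_pos hd]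
      · -- the logarithm of a monomial
        let A : I → ℝ := fun p' =>
          if (p'.2 : ℕ) = q ∧ (p'.1 : ℕ) + 1 ≤ j then (α j i ((p'.1 : ℕ) + 1) : ℝ) else 0
        refine ⟨0, α j i 0, A, ?_, ?_⟩
        · intro p' hp'
          rw [hrkm] at hp'
          show (if _ then _ else _) = _
          rw [if_neg]
          rintro ⟨h1, h2⟩
          have h3 : rk p' = 2 * (p'.1 : ℕ) + 1 := by
            show (if (p'.2 : ℕ) < q then _ else _) = _
            rw [if_neg (by omega)]
          omega
        · intro b hb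
          rw [hzm, if_neg hd]
          have hall : ∀ j' ∈ Finset.range ((j : ℕ) + 1), (φ j').eval b ^ α j i j' ≠ 0 := by
            intro j' hj'
            have h1 := Finset.mem_range.1 hj'
            by_cases h0 : α j i j' = 0
            · rw [h0, pow_zero]
              exact one_ne_zero
            · have := j.2
              exact pow_ne_zero _ (hb j' (by omega) (hpos j i hd j' (by omega) h0))
          rw [Real.log_prod hall, Finset.sum_range_succ']
          have e0 : Real.log ((φ 0).eval b ^ α j i 0) = (α j i 0 : ℝ) * Real.log b := by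
            rw [Real.log_pow, h.1, Polynomial.eval_X]
          rw [e0, zero_add, add_comm]
          congr 1
          -- the sum over the index type
          have e1 : ∑ p' : I, A p' * Real.log (z p' b) =
              ∑ j₁ : Fin l, A (j₁, Fin.last q) * Real.log (z (j₁, Fin.last q) b) := by
            rw [Fintype.sum_prod_type]
            refine Finset.sum_congr rfl fun j₁ _ => ?_
            rw [Fin.sum_univ_castSucc]
            rw [Finset.sum_eq_zero, zero_add]
            intro i' _
            have : A (j₁, i'.castSucc) = 0 := by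
              show (if _ then _ else _) = _
              rw [if_neg]
              rintro ⟨h1, -⟩
              have h2 := i'.2
              simp only [Fin.val_castSucc] at h1
              omega
            rw [this, zero_mul]
          rw [e1]
          have e2 : ∀ j₁ : Fin l, A (j₁, Fin.last q) * Real.log (z (j₁, Fin.last q) b) =
              if (j₁ : ℕ) < j then
                Real.log ((φ ((j₁ : ℕ) + 1)).eval b ^ α j i ((j₁ : ℕ) + 1)) else 0 := by
            intro j₁
            show (if _ then _ else _) * _ = _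
            by_cases h1 : (j₁ : ℕ) < j
            · rw [if_pos ⟨by simp, h1⟩, if_pos h1, Real.log_pow]
              by_cases h0 : α j i ((j₁ : ℕ) + 1) = 0
              · rw [h0]
                simp
              · have h2 := j.2
                have h3 := hpos j i hd _ (by omega) h0
                rw [hzv, if_pos ⟨by omega, h3⟩]
            · rw [if_neg (fun hh => h1 (by have := hh.2; dsimp only at this; omega)),
                if_neg h1, zero_mul]
          rw [Finset.sum_congr rfl fun j₁ _ => e2 j₁]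
          rw [← Finset.sum_range (n := l) (f := fun m => if m < (j : ℕ) then
            Real.log ((φ (m + 1)).eval b ^ α j i (m + 1)) else 0)]
          rw [← Finset.sum_filter]
          refine Finset.sum_congr ?_ fun _ _ => rfl
          ext m
          have := j.2
          simp only [Finset.mem_range, Finset.mem_filter]
          omega
    · by_cases hd : (j : ℕ) + 1 < l ∧ φ ((j : ℕ) + 1) ≠ 0
      · right
        refine ⟨MvPolynomial.rename (fun i : Fin q => ((j, i.castSucc) : I)) (F' j),
          (MvPolynomial.totalDegree_rename_le _ _).trans ((hF'd j).trans (hFd j)), ?_, ?_⟩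
        · intro p' hp' hmem
          obtain ⟨i, -, rfl⟩ := Finset.mem_image.1 (MvPolynomial.vars_rename _ _ hmem)
          rw [hrkv, hrkm] at hp'
          omega
        · intro b _
          rw [hzv, if_pos hd]
          exact hval j b
      · left
        exact htriv _ fun b => by rw [hzv, if_neg hd]
  -- the last gate
  have hlast : ∀ b, (φ l).eval b = MvPolynomial.eval (fun p => z p b)
      (MvPolynomial.rename (fun i : Fin q => (((⟨l - 1, by omega⟩ : Fin l), i.castSucc) : I))
        (F' ⟨l - 1, by omega⟩)) := by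
    intro b
    rw [← hval]
    congr 2
    show l = l - 1 + 1
    omega
  have hcard : Fintype.card I = l * (q + 1) := by
    show Fintype.card (Fin l × Fin (q + 1)) = _
    rw [Fintype.card_prod, Fintype.card_fin, Fintype.card_fin]
  have hN : ∀ δ : ℝ, {b | b ∈ V ∧ (φ l).eval b - δ = 0 ∧
      deriv (fun b => (φ l).eval b) b ≠ 0}.encard ≤ (R1 (l * (q + 1)) d : ℕ) := by
    intro δ
    have h1 := redG' (I := I) rk hVo hV0 hsmooth hne (d := d) hrel
      (MvPolynomial.rename (fun i : Fin q => (((⟨l - 1, by omega⟩ : Fin l), i.castSucc) : I))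
        (F' ⟨l - 1, by omega⟩))
      ((MvPolynomial.totalDegree_rename_le _ _).trans ((hF'd _).trans (hFd _))) δ
    rw [hcard] at h1
    simp only [← hlast] at h1
    exact h1
  have hc : ContDiffOn ℝ 1 (fun b => (φ l).eval b) V := (poly_contDiff (φ l)).contDiffOn
  have h2 := reg hVo hc hN (Z := {b : ℝ | b ∈ good φ l ∧ φ l ≠ 0 ∧ (φ l).eval b = 0}) ?_ ?_
  · refine h2.trans (le_of_eq ?_)
    push_cast
    rfl
  · rintro b ⟨hb, -, hz⟩
    exact ⟨hb, hz⟩
  · rintro b ⟨hb, h0, hz⟩ O hO
    by_contra hcon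
    push Not at hcon
    exact h0 (Polynomial.eq_zero_of_infinite_isRoot _ ((infinite_of_mem_nhds b hO).mono
      fun x hx => hcon x hx))

theorem R1_mono {r r' d : ℕ} (h : r ≤ r') : R1 r d ≤ R1 r' d := by
  unfold R1
  refine Nat.mul_le_mul (Nat.pow_le_pow_right (by omega) (by omega)) ?_
  exact (Nat.pow_le_pow_left (by omega) _).trans (Nat.pow_le_pow_right (by omega)
    (Nat.pow_le_pow_left (by omega) 2))

theorem R1_pos (r d : ℕ) : 1 ≤ R1 r d := by
  unfold R1
  exact Nat.mul_pos (Nat.pow_pos (by omega)) (Nat.pow_pos (by omega))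

/-- **Zeros of a chain of gates** -/
theorem gzeros {φ : ℕ → Polynomial ℝ} {q d s : ℕ} (h : IsRG φ q d s) :
    {b : ℝ | ∃ l ≤ s, φ l ≠ 0 ∧ (φ l).eval b = 0}.encard ≤
      ((1 + ∑ l ∈ Finset.range s, 2 * R1 ((l + 1) * (q + 1)) d : ℕ) : ℕ∞) := by
  have key : ∀ t ≤ s, {b : ℝ | ∃ l ≤ t, φ l ≠ 0 ∧ (φ l).eval b = 0}.encard ≤
      ((1 + ∑ l ∈ Finset.range t, 2 * R1 ((l + 1) * (q + 1)) d : ℕ) : ℕ∞) := by
    intro t
    induction t with
    | zero =>
      intro _
      have hs : {b : ℝ | ∃ l ≤ 0, φ l ≠ 0 ∧ (φ l).eval b = 0} ⊆ {0} := by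
        rintro b ⟨l, hl, -, hz⟩
        obtain rfl : l = 0 := by omega
        rw [h.1, Polynomial.eval_X] at hz
        exact hz
      refine (encard_le_encard hs).trans ?_
      rw [encard_singleton]
      simp
    | succ t ih =>
      intro ht
      have hs : {b : ℝ | ∃ l ≤ t + 1, φ l ≠ 0 ∧ (φ l).eval b = 0} ⊆
          {b : ℝ | ∃ l ≤ t, φ l ≠ 0 ∧ (φ l).eval b = 0} ∪
          {b : ℝ | b ∈ good φ (t + 1) ∧ φ (t + 1) ≠ 0 ∧ (φ (t + 1)).eval b = 0} := by
        rintro b ⟨l, hl, h0, hz⟩
        by_cases hb : ∃ l ≤ t, φ l ≠ 0 ∧ (φ l).eval b = 0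
        · exact Or.inl hb
        · right
          have hl' : l = t + 1 := by
            by_contra hne
            exact hb ⟨l, by omega, h0, hz⟩
          subst hl'
          refine ⟨fun j hj h0' hz' => hb ⟨j, by omega, h0', hz'⟩, h0, hz⟩
      refine (encard_le_encard hs).trans ((encard_union_le _ _).trans ?_)
      refine (add_le_add (ih (by omega)) (gzeros_step h (by omega) ht)).trans (le_of_eq ?_)
      rw [Finset.sum_range_succ]
      push_cast
      ring
  exact key s le_rfl

/-- the closed form -/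
theorem gzeros' {φ : ℕ → Polynomial ℝ} {q d s : ℕ} (h : IsRG φ q d s) :
    {b : ℝ | ∃ l ≤ s, φ l ≠ 0 ∧ (φ l).eval b = 0}.encard ≤
      (((2 * s + 1) * R1 (s * (q + 1)) d : ℕ) : ℕ∞) := by
  refine (gzeros h).trans (Nat.cast_le.2 ?_)
  have h1 : ∑ l ∈ Finset.range s, 2 * R1 ((l + 1) * (q + 1)) d ≤
      ∑ _l ∈ Finset.range s, 2 * R1 (s * (q + 1)) d := by
    refine Finset.sum_le_sum fun l hl => ?_
    have := Finset.mem_range.1 hl
    exact Nat.mul_le_mul_left _ (R1_mono (Nat.mul_le_mul_right _ (by omega)))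
  rw [Finset.sum_const, Finset.card_range, smul_eq_mul] at h1
  have h2 := R1_pos (s * (q + 1)) d
  nlinarith

end Pool.Agent.Lib.MP_641cb6_lc.KG
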