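import Pool.Agent.Lib.MP_641cb6_lc.KG.Defs
import Pool.Agent.Lib.MP_641cb6_lc.KH.Red

/-!
# RREDG: the real reduction with logarithmic and polynomial rows
-/

set_option autoImplicit false

namespace Pool.Agent.Lib.MP_641cb6_lc.KG

open MvPolynomial Set Topology Filter
open Pool.Agent.Lib.MP_641cb6_lc.KH (LogType PolyType bd kh nz jac)
open Pool.Agent.Lib.MP_641cb6_lc.KC (logType_const logType_add logType_smul logType_log)

/-! ### arithmetic of the bound -/

private lemma step {n W D d B : ℕ} (hn : 1 ≤ n) (hW : W ≤ 2 * n) (hD : D ≤ 2 * n)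
    (hB : 2 * n + 4 ≤ B) (hd : d + 1 ≤ B) :
    n * (D + d) + 2 * W + 2 + 1 ≤ (2 * n + 4) * B := by
  obtain ⟨C, rfl⟩ : ∃ C, B = C + 1 := ⟨B - 1, by omega⟩
  have h2 : n * (D + d) ≤ n * (2 * n + C) := Nat.mul_le_mul_left n (by omega)
  nlinarith

private lemma aux {n W D c : ℕ} (hn : 1 ≤ n) (hW : W ≤ 2 * n) (hD : D ≤ 2 * n) (hc : 1 ≤ c)
    (k : ℕ) : ∀ d j : ℕ, d + 1 ≤ c * (2 * n + 4) ^ (j + 1) →
      bd n W D k d ≤ (2 * n + 4) ^ k * (c * (2 * n + 4) ^ (j + k + 1)) ^ n := by
  induction k with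
  | zero =>
    intro d j hd
    simp only [bd, pow_zero, one_mul, Nat.add_zero]
    exact Nat.pow_le_pow_left hd n
  | succ k ih =>
    intro d j hd
    have h1 : 2 * n + 4 ≤ (2 * n + 4) ^ (j + 1) := Nat.le_self_pow (by omega) _
    have h2 : 2 * n + 4 ≤ c * (2 * n + 4) ^ (j + 1) := by nlinarith
    have h4 := step hn hW hD h2 hd
    have h := ih _ (j + 1) (by
      refine h4.trans (le_of_eq ?_)
      rw [pow_succ (2 * n + 4) (j + 1)]
      ring)
    have h3 : 3 ≤ 2 * n + 4 := by omega
    calc bd n W D (k + 1) d = 3 * bd n W D k (n * (D + d) + 2 * W + 2) := rfl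
      _ ≤ (2 * n + 4) * ((2 * n + 4) ^ k * (c * (2 * n + 4) ^ (j + 1 + k + 1)) ^ n) :=
        Nat.mul_le_mul h3 h
      _ = (2 * n + 4) ^ (k + 1) * (c * (2 * n + 4) ^ (j + (k + 1) + 1)) ^ n := by
        rw [show j + 1 + k + 1 = j + (k + 1) + 1 by ring, pow_succ (2 * n + 4) k]
        ring

/-- the bound for `k` functions of logarithmic type and polynomials of degree at most `d` -/
theorem bd_leG {n W D k : ℕ} (d : ℕ) (hn : 1 ≤ n) (hW : W ≤ 2 * n) (hD : D ≤ 2 * n)
    (hk : k ≤ n) : bd n W D k d ≤ (d + 1) ^ n * (2 * n + 4) ^ (n + 1) ^ 2 := by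
  have h := aux hn hW hD (c := d + 1) (by omega) k d 0 (by
    have : 1 ≤ (2 * n + 4) ^ (0 + 1) := Nat.one_le_pow _ _ (by omega)
    nlinarith)
  refine h.trans ?_
  rw [mul_pow, ← pow_mul, mul_left_comm, ← pow_add]
  refine Nat.mul_le_mul_left _ (Nat.pow_le_pow_right (by omega) ?_)
  have h1 : (0 + k + 1) * n ≤ (n + 1) * n := Nat.mul_le_mul_right _ (by omega)
  nlinarith

/-! ### the rows -/

variable {r : ℕ}

/-- the denominator: the product of the variables -/
noncomputable def wG (r : ℕ) : MvPolynomial (Fin (r + 1)) ℝ := ∏ k : Fin (r + 1), X k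

lemma deg_prodX (s : Finset (Fin (r + 1))) :
    (∏ k ∈ s, X k : MvPolynomial (Fin (r + 1)) ℝ).totalDegree ≤ s.card := by
  refine (totalDegree_finsetProd _ _).trans ?_
  refine (Finset.sum_le_card_nsmul s _ 1 fun i _ => ?_).trans ?_
  · rw [totalDegree_X]
  · rw [smul_eq_mul, mul_one]

lemma deg_wG : (wG r).totalDegree ≤ r + 1 := by
  have h := deg_prodX (r := r) Finset.univ
  rwa [Finset.card_univ, Fintype.card_fin] at h

lemma logXG (k : Fin (r + 1)) : LogType (wG r) r fun x => Real.log (x k) := by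
  classical
  refine logType_log (w' := ∏ j ∈ Finset.univ.erase k, X j) ?_ ?_
  · rw [wG, ← Finset.mul_prod_erase _ _ (Finset.mem_univ k)]
  · have h := deg_prodX (Finset.univ.erase k)
    rwa [Finset.card_erase_of_mem (Finset.mem_univ k), Finset.card_univ, Fintype.card_fin,
      Nat.add_sub_cancel] at h

lemma logSumG {ι : Type} (s : Finset ι) {g : ι → (Fin (r + 1) → ℝ) → ℝ}
    (hg : ∀ i, LogType (wG r) r (g i)) : LogType (wG r) r fun x => ∑ i ∈ s, g i x := by
  classical
  induction s using Finset.induction_on with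
  | empty => simpa using logType_const (wG r) (0 : ℝ)
  | insert i s hi ih =>
    have h := logType_add (hg i) ih
    convert h using 2 with x
    rw [Finset.sum_insert hi]

/-- the logarithmic row -/
noncomputable def rowL (i : Fin r) (c a₀ : ℝ) (A : Fin r → ℝ) (x : Fin (r + 1) → ℝ) : ℝ :=
  Real.log (x i.succ) + (-1) * (c + a₀ * Real.log (x 0) + ∑ j, A j * Real.log (x j.succ))

lemma rowL_type (i : Fin r) (c a₀ : ℝ) (A : Fin r → ℝ) :
    LogType (wG r) r (rowL i c a₀ A) :=
  logType_add (logXG i.succ) (logType_smul (-1) (logType_add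
    (logType_add (logType_const _ c) (logType_smul a₀ (logXG 0)))
    (logSumG Finset.univ (g := fun j x => A j * Real.log (x j.succ))
      (fun j => logType_smul (A j) (logXG j.succ)))))

/-- the polynomial row -/
noncomputable def rowP (i : Fin r) (p : MvPolynomial (Fin r) ℝ) (x : Fin (r + 1) → ℝ) : ℝ :=
  x i.succ - eval (fun j => x j.succ) p

lemma rowP_type (i : Fin r) {p : MvPolynomial (Fin r) ℝ} {d : ℕ} (hp : p.totalDegree ≤ d) :
    PolyType (d + 1) (rowP i p) := by
  refine ⟨X i.succ - rename Fin.succ p, ?_, fun x => ?_⟩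
  · refine (totalDegree_sub _ _).trans (max_le ?_ ?_)
    · rw [totalDegree_X]
      omega
    · exact (totalDegree_rename_le _ _).trans (hp.trans (by omega))
  · rw [rowP, map_sub, eval_X, eval_rename]
    rfl

/-- the values of a polynomial only depend on its variables -/
lemma eval_congr_vars {σ : Type} {p : MvPolynomial σ ℝ} {x y : σ → ℝ}
    (h : ∀ j ∈ p.vars, x j = y j) : eval x p = eval y p := by
  have := eval₂Hom_congr' (f₁ := RingHom.id ℝ) (f₂ := RingHom.id ℝ) (g₁ := x) (g₂ := y)
    (p₁ := p) (p₂ := p) rfl (fun i hi _ => h i hi) rfl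
  exact this

lemma line_at (x u : Fin (r + 1) → ℝ) (k : Fin (r + 1)) (t : ℝ) :
    (x + t • u) k = x k + t * u k := by simp

/-- a direction in the kernel of the logarithmic row -/
lemma rowL_dir {i : Fin r} {c a₀ : ℝ} {A : Fin r → ℝ} {x u : Fin (r + 1) → ℝ}
    (hx : ∀ k, x k ≠ 0) (hu0 : u 0 = 0) (hu : ∀ j, A j ≠ 0 → u j.succ = 0)
    {L : (Fin (r + 1) → ℝ) →L[ℝ] ℝ} (hL : HasFDerivAt (rowL i c a₀ A) L x) (hLu : L u = 0) :
    u i.succ = 0 := by
  have h1 : HasDerivAt (fun t : ℝ => rowL i c a₀ A (x + t • u)) (L u) 0 := hL.hasLineDerivAt u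
  have h2 : (fun t : ℝ => rowL i c a₀ A (x + t • u)) = fun t : ℝ =>
      Real.log (x i.succ + t * u i.succ) +
        (-1) * (c + a₀ * Real.log (x 0) + ∑ j, A j * Real.log (x j.succ)) := by
    funext t
    unfold rowL
    simp only [line_at, hu0, mul_zero, add_zero]
    congr 3
    refine Finset.sum_congr rfl fun j _ => ?_
    by_cases hj : A j = 0
    · rw [hj, zero_mul, zero_mul]
    · rw [hu j hj, mul_zero, add_zero]
  have h3 : HasDerivAt (fun t : ℝ => x i.succ + t * u i.succ) (u i.succ) 0 := by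
    simpa using ((hasDerivAt_id (0 : ℝ)).mul_const (u i.succ)).const_add (x i.succ)
  have h4 := (h3.log (by rw [zero_mul, add_zero]; exact hx _)).add_const
    ((-1) * (c + a₀ * Real.log (x 0) + ∑ j, A j * Real.log (x j.succ)))
  rw [h2] at h1
  have h5 := h1.unique h4
  rw [hLu, zero_mul, add_zero] at h5
  have h6 := (div_eq_zero_iff.1 h5.symm).resolve_right (hx _)
  exact h6

/-- a direction in the kernel of the polynomial row -/
lemma rowP_dir {i : Fin r} {p : MvPolynomial (Fin r) ℝ} {x u : Fin (r + 1) → ℝ}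
    (hu : ∀ j ∈ p.vars, u j.succ = 0)
    {L : (Fin (r + 1) → ℝ) →L[ℝ] ℝ} (hL : HasFDerivAt (rowP i p) L x) (hLu : L u = 0) :
    u i.succ = 0 := by
  have h1 : HasDerivAt (fun t : ℝ => rowP i p (x + t • u)) (L u) 0 := hL.hasLineDerivAt u
  have h2 : (fun t : ℝ => rowP i p (x + t • u)) = fun t : ℝ =>
      (x i.succ + t * u i.succ) - eval (fun j => x j.succ) p := by
    funext t
    unfold rowP
    rw [line_at]
    congr 1
    refine eval_congr_vars fun j hj => ?_
    rw [line_at, hu j hj, mul_zero, add_zero]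
  have h3 : HasDerivAt (fun t : ℝ => x i.succ + t * u i.succ) (u i.succ) 0 := by
    simpa using ((hasDerivAt_id (0 : ℝ)).mul_const (u i.succ)).const_add (x i.succ)
  have h4 := h3.sub_const (eval (fun j => x j.succ) p)
  rw [h2] at h1
  have h5 := h1.unique h4
  rw [hLu] at h5
  exact h5.symm

/-- differentiability of the rows -/
lemma polyType_diff {n d : ℕ} {g : (Fin n → ℝ) → ℝ} (h : PolyType d g) (x : Fin n → ℝ) :
    DifferentiableAt ℝ g x :=
  ((KH.polyType_contDiff h).differentiable (by norm_num)).differentiableAt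

/-- the curve -/
noncomputable def crv (z : Fin r → ℝ → ℝ) (b : ℝ) : Fin (r + 1) → ℝ := Fin.cons b fun i => z i b

/-- **The real reduction.** -/
theorem redG (rk : Fin r → ℕ) {V : Set ℝ} (hV : IsOpen V) (hV0 : ∀ b ∈ V, b ≠ 0)
    {z : Fin r → ℝ → ℝ} (hs : ∀ i, ContDiffOn ℝ 1 (z i) V) (hp : ∀ i, ∀ b ∈ V, z i b ≠ 0) {d : ℕ}
    (hrel : ∀ i, (∃ (c a₀ : ℝ) (A : Fin r → ℝ), (∀ j, rk i ≤ rk j → A j = 0) ∧
        ∀ b ∈ V, Real.log (z i b) = c + a₀ * Real.log b + ∑ j, A j * Real.log (z j b)) ∨
      (∃ p : MvPolynomial (Fin r) ℝ, p.totalDegree ≤ d ∧ (∀ j, rk i ≤ rk j → j ∉ p.vars) ∧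
        ∀ b ∈ V, z i b = eval (fun j => z j b) p))
    (P : MvPolynomial (Fin r) ℝ) (hP : P.totalDegree ≤ d) (δ : ℝ) :
    {b | b ∈ V ∧ eval (fun j => z j b) P - δ = 0 ∧
      deriv (fun b => eval (fun j => z j b) P) b ≠ 0}.encard ≤ (R1 r d : ℕ) := by
  classical
  -- the rows
  have hrow : ∀ i : Fin r, ∃ (lg : Bool) (F : (Fin (r + 1) → ℝ) → ℝ),
      (lg = true → LogType (wG r) r F) ∧ (lg = false → PolyType (d + 1) F) ∧
      (∀ b ∈ V, F (crv z b) = 0) ∧
      (∀ b ∈ V, ∀ u : Fin (r + 1) → ℝ, u 0 = 0 → (∀ j, rk j < rk i → u j.succ = 0) →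
        ∀ L : (Fin (r + 1) → ℝ) →L[ℝ] ℝ, HasFDerivAt F L (crv z b) → L u = 0 →
          u i.succ = 0) := by
    intro i
    rcases hrel i with ⟨c, a₀, A, hA, he⟩ | ⟨p, hpd, hpv, he⟩
    · refine ⟨true, rowL i c a₀ A, fun _ => rowL_type i c a₀ A, fun h => by simp at h, ?_, ?_⟩
      · intro b hb
        have := he b hb
        show Real.log (z i b) + (-1) * (c + a₀ * Real.log b + ∑ j, A j * Real.log (z j b)) = 0
        rw [this]
        ring
      · intro b hb u hu0 hu L hL hLu
        refine rowL_dir ?_ hu0 (fun j hj => hu j ?_) hL hLu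
        · intro k
          refine Fin.cases ?_ (fun i => ?_) k
          · exact hV0 b hb
          · exact hp i b hb
        · by_contra hcon
          exact hj (hA j (not_lt.1 hcon))
    · refine ⟨false, rowP i p, fun h => by simp at h, fun _ => rowP_type i hpd, ?_, ?_⟩
      · intro b hb
        show z i b - eval (fun j => z j b) p = 0
        rw [← he b hb, sub_self]
      · intro b hb u hu0 hu L hL hLu
        refine rowP_dir (fun j hj => hu j ?_) hL hLu
        by_contra hcon
        exact hpv j (not_lt.1 hcon) hj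
  choose lg R hR1 hR2 hR3 hR4 using hrow
  have hP0 : PolyType (d + 1) fun x : Fin (r + 1) → ℝ => eval (fun j => x j.succ) P - δ := by
    refine ⟨rename Fin.succ P - C δ, ?_, fun x => ?_⟩
    · refine (totalDegree_sub _ _).trans (max_le ?_ ?_)
      · exact (totalDegree_rename_le _ _).trans (hP.trans (by omega))
      · rw [totalDegree_C]
        omega
    · rw [map_sub, eval_C, eval_rename]
      rfl
  set F : Fin (r + 1) → (Fin (r + 1) → ℝ) → ℝ :=
    Fin.cons (fun x => eval (fun j => x j.succ) P - δ) R with hF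
  set S : Finset (Fin (r + 1)) :=
    (Finset.univ.filter fun i : Fin r => lg i = true).map ⟨Fin.succ, Fin.succ_injective r⟩
    with hS
  have hmem : ∀ i : Fin r, i.succ ∈ S ↔ lg i = true := by
    intro i
    rw [hS, Finset.mem_map]
    constructor
    · rintro ⟨j, hj, hji⟩
      have : j = i := Fin.succ_injective r hji
      subst this
      exact (Finset.mem_filter.1 hj).2
    · intro h
      exact ⟨i, Finset.mem_filter.2 ⟨Finset.mem_univ _, h⟩, rfl⟩
  have hmem0 : (0 : Fin (r + 1)) ∉ S := by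
    rw [hS, Finset.mem_map]
    rintro ⟨j, -, hj⟩
    exact absurd hj (Fin.succ_ne_zero j)
  have hcard : S.card ≤ r + 1 := by
    have := Finset.card_le_univ S
    rwa [Fintype.card_fin] at this
  have hFL : ∀ i ∈ S, LogType (wG r) r (F i) := by
    intro i
    refine Fin.cases ?_ (fun i => ?_) i
    · intro h
      exact absurd h hmem0
    · intro h
      rw [hF, Fin.cons_succ]
      exact hR1 i ((hmem i).1 h)
  have hFP : ∀ i, i ∉ S → PolyType (d + 1) (F i) := by
    intro i
    refine Fin.cases ?_ (fun i => ?_) i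
    · intro _
      rw [hF, Fin.cons_zero]
      exact hP0
    · intro h
      rw [hF, Fin.cons_succ]
      refine hR2 i ?_
      rw [hmem] at h
      simpa using h
  have hkh := kh (deg_wG (r := r)) S.card (d + 1) S F rfl hFL hFP
  have hbd : bd (r + 1) (r + 1) r S.card (d + 1) ≤ R1 r d :=
    bd_leG (n := r + 1) (W := r + 1) (D := r) (d + 1) (by omega) (by omega) (by omega) hcard
  have hinj : Function.Injective (crv z) := by
    intro b b' hb
    have h0 : crv z b 0 = crv z b' 0 := by rw [hb]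
    exact h0
  rw [← hinj.encard_image]
  refine (Set.encard_le_encard ?_).trans (hkh.trans (by exact_mod_cast hbd))
  rintro _ ⟨b, ⟨hb, hb0, hbd⟩, rfl⟩
  have hne : ∀ k, crv z b k ≠ 0 := by
    intro k
    refine Fin.cases ?_ (fun i => ?_) k
    · exact hV0 b hb
    · exact hp i b hb
  have hw : eval (crv z b) (wG r) ≠ 0 := by
    rw [wG, map_prod]
    refine Finset.prod_ne_zero_iff.mpr fun k _ => ?_
    rw [eval_X]
    exact hne k
  have hdiff : ∀ i, DifferentiableAt ℝ (F i) (crv z b) := by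
    intro i
    by_cases hi : i ∈ S
    · obtain ⟨q, _, hq⟩ := hFL i hi
      exact (hq _ hw).differentiableAt
    · exact polyType_diff (hFP i hi) _
  refine ⟨hw, ?_, ?_⟩
  · intro i
    refine Fin.cases ?_ (fun i => ?_) i
    · rw [hF, Fin.cons_zero]
      exact hb0
    · rw [hF, Fin.cons_succ]
      exact hR3 i b hb
  · intro hdet
    obtain ⟨v, hv0, hv⟩ := Matrix.exists_mulVec_eq_zero_iff.mpr hdet
    have hrow : ∀ i, fderiv ℝ (F i) (crv z b) v = 0 := by
      intro i
      rw [← KH.Red.jac_mulVec, hv]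
      rfl
    -- the tangent vector
    set g : Fin (r + 1) → ℝ := Fin.cons 1 (fun i => deriv (z i) b) with hg
    have hcrv : HasDerivAt (crv z) g b := by
      rw [hasDerivAt_pi]
      intro k
      refine Fin.cases ?_ (fun i => ?_) k
      · rw [hg, Fin.cons_zero]
        exact hasDerivAt_id b
      · rw [hg, Fin.cons_succ]
        exact (((hs i).differentiableOn (by norm_num)).differentiableAt
          (hV.mem_nhds hb)).hasDerivAt
    have hcomp : ∀ i, HasDerivAt (fun b => F i (crv z b)) (fderiv ℝ (F i) (crv z b) g) b :=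
      fun i => (hdiff i).hasFDerivAt.comp_hasDerivAt b hcrv
    have hzero : ∀ i : Fin r, fderiv ℝ (F i.succ) (crv z b) g = 0 := by
      intro i
      have h1 : (fun b => F i.succ (crv z b)) =ᶠ[𝓝 b] fun _ => 0 := by
        filter_upwards [hV.mem_nhds hb] with s hs'
        rw [hF, Fin.cons_succ]
        exact hR3 i s hs'
      exact (hcomp i.succ).unique ((hasDerivAt_const b (0 : ℝ)).congr_of_eventuallyEq h1)
    set u : Fin (r + 1) → ℝ := v - v 0 • g with hu
    have hu0 : u 0 = 0 := by
      rw [hu, Pi.sub_apply, Pi.smul_apply, hg, Fin.cons_zero, smul_eq_mul, mul_one, sub_self]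
    have hind : ∀ n : ℕ, ∀ i : Fin r, rk i = n → u i.succ = 0 := by
      intro n
      induction n using Nat.strong_induction_on with
      | _ n ih =>
        intro i hi
        refine hR4 i b hb u hu0 (fun j hj => ih (rk j) (by omega) j rfl)
          (fderiv ℝ (F i.succ) (crv z b)) ?_ ?_
        · have := (hdiff i.succ).hasFDerivAt
          rwa [show R i = F i.succ by rw [hF, Fin.cons_succ]]
        · rw [hu, map_sub, map_smul, hrow, hzero, smul_zero, sub_zero]
    have hu' : u = 0 := by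
      funext k
      refine Fin.cases ?_ (fun i => ?_) k
      · exact hu0
      · exact hind _ i rfl
    have hv' : v = v 0 • g := by
      rw [hu, sub_eq_zero] at hu'
      exact hu'
    have h0 : fderiv ℝ (F 0) (crv z b) g = deriv (fun b => eval (fun j => z j b) P) b := by
      have h1 := hcomp 0
      have h2 : (fun b => F 0 (crv z b)) = fun b => eval (fun j => z j b) P - δ := by
        funext s
        rw [hF, Fin.cons_zero]
        rfl
      rw [h2] at h1
      have h3 := h1.add_const δ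
      simp only [sub_add_cancel] at h3
      exact h3.deriv.symm
    have h5 := hrow 0
    rw [hv', map_smul, h0, smul_eq_mul] at h5
    rcases mul_eq_zero.1 h5 with h6 | h6
    · exact hv0 (by rw [hv', h6, zero_smul])
    · exact hbd h6

/-- the real reduction for a finite type of indices -/
theorem redG' {I : Type} [Fintype I] (rk : I → ℕ) {V : Set ℝ} (hV : IsOpen V)
    (hV0 : ∀ b ∈ V, b ≠ 0) {z : I → ℝ → ℝ} (hs : ∀ i, ContDiffOn ℝ 1 (z i) V)
    (hp : ∀ i, ∀ b ∈ V, z i b ≠ 0) {d : ℕ}
    (hrel : ∀ i, (∃ (c a₀ : ℝ) (A : I → ℝ), (∀ j, rk i ≤ rk j → A j = 0) ∧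
        ∀ b ∈ V, Real.log (z i b) = c + a₀ * Real.log b + ∑ j, A j * Real.log (z j b)) ∨
      (∃ p : MvPolynomial I ℝ, p.totalDegree ≤ d ∧ (∀ j, rk i ≤ rk j → j ∉ p.vars) ∧
        ∀ b ∈ V, z i b = eval (fun j => z j b) p))
    (P : MvPolynomial I ℝ) (hP : P.totalDegree ≤ d) (δ : ℝ) :
    {b | b ∈ V ∧ eval (fun j => z j b) P - δ = 0 ∧
      deriv (fun b => eval (fun j => z j b) P) b ≠ 0}.encard ≤
      (R1 (Fintype.card I) d : ℕ) := by
  classical
  set e := Fintype.equivFin I with he
  have h1 : ∀ (p : MvPolynomial I ℝ) (b : ℝ),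
      eval (fun j => z (e.symm j) b) (rename e p) = eval (fun j => z j b) p := by
    intro p b
    rw [eval_rename]
    congr 1
    congr 1
    funext j
    simp
  have h2 := redG (fun i => rk (e.symm i)) hV hV0 (z := fun i => z (e.symm i))
    (fun i => hs _) (fun i => hp _) (d := d) ?_ (rename e P)
    ((totalDegree_rename_le _ _).trans hP) δ
  · simp only [h1] at h2
    exact h2
  · intro i
    rcases hrel (e.symm i) with ⟨c, a₀, A, hA, h3⟩ | ⟨p, hpd, hpv, h3⟩
    · left
      refine ⟨c, a₀, fun j => A (e.symm j), fun j hj => hA _ hj, fun b hb => ?_⟩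
      rw [h3 b hb]
      congr 1
      exact (Equiv.sum_comp e.symm fun j => A j * Real.log (z j b)).symm
    · right
      refine ⟨rename e p, (totalDegree_rename_le _ _).trans hpd, fun j hj hmem => ?_,
        fun b hb => ?_⟩
      · obtain ⟨j', hj', rfl⟩ := Finset.mem_image.1 (vars_rename e p hmem)
        rw [e.symm_apply_apply] at hj
        exact hpv j' hj hj'
      · rw [h1]
        exact h3 b hb

end Pool.Agent.Lib.MP_641cb6_lc.KG
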