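import Pool.Agent.Lib.MP_641cb6_lc.KG.Sub
import Pool.Agent.Lib.MP_641cb6_lc.KG.Sim
import Pool.Agent.Lib.MP_641cb6_lc.KG.RChain
import Pool.Agent.Lib.MP_641cb6_lc.KH.FamReal

/-!
# REALG: trees with gates and order branching
-/

set_option autoImplicit false

namespace Pool.Agent.Lib.MP_641cb6_lc.KG

open Pool.Agent.Lib.MP_641cb6_lc Set
open Pool.Agent.Lib.MP_641cb6_lc.KD (Deps en en_surj)
open Pool.Agent.Lib.MP_641cb6_lc.KH (exists_test_fam line_of_vanish pset_open pset_nonempty
  rootSum_above dec_run_test dec_run_answer)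

/-- the node of the decision tree that belongs to an instruction -/
noncomputable def rnode {n : ℕ} (T : GTree ℝ) (h : List Bool) :
    Ins ℝ → Node ((Fin n → ℝ) × ℝ)
  | .const _ => .test fun _ => 0
  | .mul _ _ => .test fun _ => 0
  | .div _ j => .test fun x => -(pf ((sym n T h).tpol j) x) ^ 2
  | .gate _ _ _ => .test fun _ => 0
  | .test i => .test (pf ((sym n T h).tpol i))
  | .answer b => .answer b

/-- the decision tree of a computation tree -/
noncomputable def rtree (n : ℕ) (T : GTree ℝ) : DecTree ((Fin n → ℝ) × ℝ) :=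
  fun h => rnode T h (T h)

theorem pf_analytic {n : ℕ} (P : Pol ℝ n) : AnalyticOnNhd ℝ (fun x => pf P x) univ :=
  polyFun_analytic P

theorem rtree_analytic {n : ℕ} (T : GTree ℝ) (h : List Bool) (g : (Fin n → ℝ) × ℝ → ℝ)
    (hg : rtree n T h = .test g) : AnalyticOnNhd ℝ g univ := by
  unfold rtree at hg
  cases hT : T h with
  | const c =>
    rw [hT] at hg
    simp only [rnode, Node.test.injEq] at hg
    subst hg
    exact analyticOnNhd_const
  | mul i j =>
    rw [hT] at hg
    simp only [rnode, Node.test.injEq] at hg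
    subst hg
    exact analyticOnNhd_const
  | div i j =>
    rw [hT] at hg
    simp only [rnode, Node.test.injEq] at hg
    subst hg
    exact ((pf_analytic _).pow 2).neg
  | gate r F i =>
    rw [hT] at hg
    simp only [rnode, Node.test.injEq] at hg
    subst hg
    exact analyticOnNhd_const
  | test i =>
    rw [hT] at hg
    simp only [rnode, Node.test.injEq] at hg
    subst hg
    exact pf_analytic _
  | answer b =>
    rw [hT] at hg
    simp [rnode] at hg

theorem rtree_run {n : ℕ} (T : GTree ℝ) (x : (Fin n → ℝ) × ℝ) (k : ℕ) :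
    (rtree n T).run x k = (T.run (fun v : ℝ => 0 ≤ v) x k).hist := by
  induction k with
  | zero => rfl
  | succ k ih =>
    have e2 : T.run (fun v : ℝ => 0 ≤ v) x (k + 1) =
      T.step (fun v : ℝ => 0 ≤ v) (T.run (fun v : ℝ => 0 ≤ v) x k) := rfl
    rw [e2]
    have h0 := tpol_zero (fun v : ℝ => 0 ≤ v) T x k
    have h1 := tpol_nonneg (fun v : ℝ => 0 ≤ v) T x k
    generalize T.run (fun v : ℝ => 0 ≤ v) x k = s at h0 h1 ih ⊢
    have e3 : rtree n T ((rtree n T).run x k) = rnode T s.hist (T s.hist) := by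
      rw [ih]
      rfl
    unfold GTree.step
    cases hT : T s.hist with
    | const c =>
      rw [hT] at e3
      rw [dec_run_test e3, ih]
      simp
    | mul i j =>
      rw [hT] at e3
      rw [dec_run_test e3, ih]
      simp
    | div i j =>
      rw [hT] at e3
      rw [dec_run_test e3, ih]
      simp only [List.cons.injEq, and_true]
      rw [decide_eq_decide, h0 j]
      constructor
      · intro h
        have h2 := sq_nonneg (pf ((sym n T s.hist).tpol j) x)
        exact pow_eq_zero_iff (two_ne_zero) |>.1 (by linarith)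
      · intro h
        rw [h]
        norm_num
    | gate r F i =>
      rw [hT] at e3
      rw [dec_run_test e3, ih]
      simp
    | test i =>
      rw [hT] at e3
      rw [dec_run_test e3, ih]
      simp only [List.cons.injEq, and_true]
      rw [decide_eq_decide]
      exact (h1 i).symm
    | answer b =>
      rw [hT] at e3
      rw [dec_run_answer e3, ih]

/-- a test polynomial that vanishes on the boundary but not everywhere: a gate on which the tested
value depends does so too -/
theorem gate_of_vanish {n m a D : ℕ} (hn : 1 ≤ n) {T : GTree ℝ} (hT : T.Bounded a D)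
    (h : List Bool) (i : ℕ)
    (hne : ∃ x, pf ((sym n T h).tpol i) x ≠ 0)
    (hvan : ∀ t, pf ((sym n T h).tpol i) (par n m t) = 0) :
    ∃ σ ∈ (deps n T h).val i, (∃ x, pf ((sym n T h).atom (n + 1 + σ)) x ≠ 0) ∧
      ∀ t, pf ((sym n T h).atom (n + 1 + σ)) (par n m t) = 0 := by
  classical
  obtain ⟨x, hx⟩ := hne
  rw [pf_tpol] at hx
  obtain ⟨hc, hp⟩ := mul_ne_zero_iff.1 hx
  have hp' := Finset.prod_ne_zero_iff.1 hp
  -- an atom vanishes on the whole boundary
  obtain ⟨l, hl, hl0, hlv⟩ : ∃ l < n + 1 + (sym n T h).atoms.length,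
      (((sym n T h).val i).2 l).natAbs ≠ 0 ∧ ∀ t, (sym n T h).ev (par n m t) l = 0 := by
    by_contra hcon
    push Not at hcon
    let A : Fin (n + 1 + (sym n T h).atoms.length) → Set (Fin n → ℝ) := fun l =>
      if (((sym n T h).val i).2 l).natAbs ≠ 0 then {t | (sym n T h).ev (par n m t) l ≠ 0}
      else univ
    have hana : ∀ l, AnalyticOnNhd ℝ (fun t => (sym n T h).ev (par n m t) l) univ := fun l =>
      (pf_analytic ((sym n T h).atom l)).comp (par_analytic n m) (mapsTo_univ _ _)
    have hAo : ∀ l, IsOpen (A l) := by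
      intro l
      simp only [A]
      split_ifs
      · exact isOpen_ne_fun (cont_of_analytic (hana l)) continuous_const
      · exact isOpen_univ
    have hAd : ∀ l, Dense (A l) := by
      intro l
      simp only [A]
      split_ifs with h1
      · exact dense_ne_zero (hana l) (hcon l l.2 h1)
      · exact dense_univ
    obtain ⟨t, ht⟩ := (dense_iInter_of_isOpen hAo hAd).nonempty
    rw [mem_iInter] at ht
    have h1 := hvan t
    rw [pf_tpol] at h1
    have h2 := (mul_eq_zero.1 h1).resolve_left hc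
    obtain ⟨l, hl, h3⟩ := Finset.prod_eq_zero_iff.1 h2
    have h4 := ht ⟨l, Finset.mem_range.1 hl⟩
    have h5 : (((sym n T h).val i).2 l).natAbs ≠ 0 := by
      intro h9
      rw [h9, pow_zero] at h3
      exact one_ne_zero h3
    simp only [A] at h4
    rw [if_pos h5] at h4
    exact h4 (eq_zero_of_pow_eq_zero h3)
  -- it is not an input
  have hnl : n + 1 ≤ l := by
    by_contra hcon
    have h1 := hlv 0
    rcases Nat.lt_or_ge l n with h2 | h2
    · unfold SSt.ev SSt.atom pf at h1
      rw [dif_pos h2] at h1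
      simp [par] at h1
    · have h3 : l = n := by omega
      unfold SSt.ev SSt.atom pf at h1
      rw [dif_neg (by omega), if_pos h3] at h1
      simp [par] at h1
      omega
  obtain ⟨σ, rfl⟩ : ∃ σ, l = n + 1 + σ := ⟨l - (n + 1), by omega⟩
  refine ⟨σ, ?_, ⟨x, fun h0 => ?_⟩, hlv⟩
  · have h1 := ((rel n hT h).supp i (n + 1 + σ) fun h0 => by
      rw [h0] at hl0
      exact hl0 rfl).2 (by omega)
    rwa [Nat.add_sub_cancel_left] at h1
  · refine hp' _ (Finset.mem_range.2 hl) ?_
    have h1 : (sym n T h).ev x (n + 1 + σ) = 0 := h0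
    rw [h1, zero_pow hl0]

/-- the zeros of a gate on a line are counted by the gates on which it depends -/
theorem line_le_gate {n a D : ℕ} {T : GTree ℝ} (hT : T.Bounded a D) (h : List Bool) {σ : ℕ}
    (hσ : σ < (sym n T h).atoms.length) (x : Fin n → ℝ) {b' : ℝ}
    (hb : pf ((sym n T h).atom (n + 1 + σ)) (x, b') ≠ 0) :
    {b | pf ((sym n T h).atom (n + 1 + σ)) (x, b) = 0}.encard ≤
      (((2 * ((deps n T h).sum σ).card + 1) * R1 (((deps n T h).sum σ).card * (a + 2)) D : ℕ) :
        ℕ∞) := by
  have R := rel n hT h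
  have hch := line_sub R x ((deps n T h).sum σ)
    (fun l hl => lt_of_le_of_lt (R.bds σ l hl) hσ) (R.cls σ)
  refine le_trans (encard_le_encard ?_) (gzeros' hch)
  intro b hb0
  obtain ⟨j, hj1, hj2, hj3⟩ := en_surj _ (R.selfs σ (by rw [R.lens]; exact hσ))
  have e1 : lineG (sym n T h) x (en ((deps n T h).sum σ) j) =
      ((sym n T h).atom (n + 1 + σ)).map (MvPolynomial.eval x) := by
    rw [hj3, lineG, show n + (σ + 1) = n + 1 + σ by omega]
  refine ⟨j, by omega, ?_, ?_⟩
  · show lineG (sym n T h) x (en ((deps n T h).sum σ) j) ≠ 0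
    rw [e1]
    intro h0
    apply hb
    show Polynomial.eval b' (((sym n T h).atom (n + 1 + σ)).map (MvPolynomial.eval x)) = 0
    rw [h0, Polynomial.eval_zero]
  · show (lineG (sym n T h) x (en ((deps n T h).sum σ) j)).eval b = 0
    rw [e1]
    exact hb0

/-- many gates for a gate on which a tested value depends -/
theorem real_gate_aux {n m a D : ℕ} (hn : 1 ≤ n) {T : GTree ℝ} (hT : T.Bounded a D)
    (h : List Bool) (i : ℕ)
    (hne : ∃ x, pf ((sym n T h).tpol i) x ≠ 0)
    (hvan : ∀ t, pf ((sym n T h).tpol i) (par n m t) = 0) :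
    ∃ σ ∈ (deps n T h).val i, 2 ^ (m * n) ≤
      (2 * ((deps n T h).sum σ).card + 1) * R1 (((deps n T h).sum σ).card * (a + 2)) D := by
  obtain ⟨σ, hσ, hne', hvan'⟩ := gate_of_vanish hn hT h i hne hvan
  obtain ⟨x, ⟨b', hb'⟩, hcard⟩ := line_of_vanish
    (pf_analytic ((sym n T h).atom (n + 1 + σ))) hne' hvan'
  refine ⟨σ, hσ, ?_⟩
  have R := rel n hT h
  have h3 := hcard.trans (line_le_gate hT h (by rw [← R.lens]; exact R.bdv i σ hσ) x hb')
  exact_mod_cast h3

/-- **Order branching**: some tested value depends on a gate that depends on many gates. -/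
theorem real_gate {n m N a D : ℕ} (hn : 1 ≤ n) (T : Fin N → GTree ℝ)
    (hTb : ∀ w, (T w).Bounded a D) (Φ : (Fin N → Bool) → Prop)
    (hdec : Decides (fun v : ℝ => 0 ≤ v) T Φ (RootSum n m)) :
    ∃ (w : Fin N) (x : (Fin n → ℝ) × ℝ) (s : ℕ),
      UsesGate (fun v : ℝ => 0 ≤ v) (T w) x s ∧
      2 ^ (m * n) ≤ (2 * s + 1) * R1 (s * (a + 2)) D := by
  have hdec' : ∀ x, ∃ (k : Fin N → ℕ) (b : Fin N → Bool),
      (∀ w, rtree n (T w) ((rtree n (T w)).run x (k w)) = .answer (b w)) ∧
        (Φ b ↔ x ∈ RootSum n m) := by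
    intro x
    obtain ⟨k, b, hk, hb⟩ := hdec x
    refine ⟨k, b, fun w => ?_, hb⟩
    rw [rtree_run]
    unfold rtree
    rw [hk w]
    rfl
  obtain ⟨w, x, k, g, hg, hne, hvan⟩ := exists_test_fam (T := fun w => rtree n (T w))
    (fun w h g hg => rtree_analytic (T w) h g hg) (pset_open n m) (pset_nonempty n m)
    (fun t _ => par_mem t) (fun t ht => rootSum_above t ht) hdec'
  have hg' : rtree n (T w) ((rtree n (T w)).run x k) = .test g := hg
  rw [rtree_run] at hg'
  unfold rtree at hg'
  cases hT : (T w) ((T w).run (fun v : ℝ => 0 ≤ v) x k).hist with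
  | const c =>
    rw [hT] at hg'
    simp only [rnode, Node.test.injEq] at hg'
    subst hg'
    obtain ⟨y, hy⟩ := hne
    exact absurd rfl hy
  | mul i j =>
    rw [hT] at hg'
    simp only [rnode, Node.test.injEq] at hg'
    subst hg'
    obtain ⟨y, hy⟩ := hne
    exact absurd rfl hy
  | div i j =>
    rw [hT] at hg'
    simp only [rnode, Node.test.injEq] at hg'
    obtain ⟨σ, h1, h2⟩ := real_gate_aux (m := m) hn (hTb w)
      ((T w).run (fun v : ℝ => 0 ≤ v) x k).hist j
      (by
        obtain ⟨y, hy⟩ := hne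
        refine ⟨y, fun h0 => hy ?_⟩
        rw [← hg']
        show -(pf _ y) ^ 2 = 0
        rw [h0]
        simp)
      (by
        intro t
        have h0 := hvan t
        rw [← hg'] at h0
        simpa using h0)
    exact ⟨w, x, _, ⟨k, j, σ, by rw [hT]; rfl, h1, rfl⟩, h2⟩
  | gate r F i =>
    rw [hT] at hg'
    simp only [rnode, Node.test.injEq] at hg'
    subst hg'
    obtain ⟨y, hy⟩ := hne
    exact absurd rfl hy
  | test i =>
    rw [hT] at hg'
    simp only [rnode, Node.test.injEq] at hg'
    subst hg'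
    obtain ⟨σ, h1, h2⟩ := real_gate_aux (m := m) hn (hTb w)
      ((T w).run (fun v : ℝ => 0 ≤ v) x k).hist i hne hvan
    exact ⟨w, x, _, ⟨k, i, σ, by rw [hT]; rfl, h1, rfl⟩, h2⟩
  | answer b =>
    rw [hT] at hg'
    simp [rnode] at hg'

end Pool.Agent.Lib.MP_641cb6_lc.KG
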