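import Pool.Agent.Lib.MP_641cb6_lc.KG.Real

/-!
# NUMG, real side: the polynomial form
-/

set_option autoImplicit false

namespace Pool.Agent.Lib.MP_641cb6_lc.KG

open Pool.Agent.Lib.MP_641cb6_lc

theorem num_aux {A : ℕ} (hA : 1 ≤ A) : (A + 2) * (A * (A + 2) + 1) ≤ 12 * A ^ 4 := by
  have h1 : A + 2 ≤ 3 * A := by omega
  have h2 : A * (A + 2) + 1 ≤ 4 * A ^ 2 := by nlinarith
  calc (A + 2) * (A * (A + 2) + 1) ≤ 3 * A * (4 * A ^ 2) := Nat.mul_le_mul h1 h2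
    _ = 12 * A ^ 3 := by ring
    _ ≤ 12 * A ^ 4 := Nat.mul_le_mul_left _ (Nat.pow_le_pow_right hA (by omega))

/-- the arithmetic of the polynomial form -/
theorem num_real {c n s : ℕ} (hn : c + 4 ≤ n)
    (h : 2 ^ (n ^ (4 * c + 3) * n) ≤ (2 * s + 1) * R1 (s * (n ^ c + 2)) (2 ^ (n ^ c))) :
    n ^ c < s := by
  by_contra hcon
  push Not at hcon
  set A := n ^ c with hA
  have hA1 : 1 ≤ A := Nat.one_le_pow _ _ (by omega)
  have hAn : A ≤ 2 ^ (n * c) := by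
    rw [hA, pow_mul]
    exact Nat.pow_le_pow_left (Nat.lt_two_pow_self).le c
  have h1 : (2 * s + 1) * R1 (s * (A + 2)) (2 ^ A) ≤ (2 * A + 1) * R1 (A * (A + 2)) (2 ^ A) :=
    Nat.mul_le_mul (by omega) (R1_mono (Nat.mul_le_mul_right _ hcon))
  -- the three factors
  have f1 : 2 * A + 1 ≤ 2 ^ (2 + n * c) := by
    rw [pow_add]
    nlinarith
  have f2 : (2 ^ A + 2) ^ (A * (A + 2) + 1) ≤ 2 ^ (12 * A ^ 4) := by
    have e1 : 2 ^ A + 2 ≤ 2 ^ (A + 2) := by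
      rw [pow_add]
      have := Nat.one_le_two_pow (n := A)
      omega
    calc (2 ^ A + 2) ^ (A * (A + 2) + 1) ≤ (2 ^ (A + 2)) ^ (A * (A + 2) + 1) :=
          Nat.pow_le_pow_left e1 _
      _ = 2 ^ ((A + 2) * (A * (A + 2) + 1)) := by rw [← pow_mul]
      _ ≤ 2 ^ (12 * A ^ 4) := by
          refine Nat.pow_le_pow_right (by norm_num) ?_
          exact num_aux hA1
  have f3 : (2 * (A * (A + 2)) + 6) ^ (A * (A + 2) + 2) ^ 2 ≤
      2 ^ ((4 + 2 * (n * c)) * (25 * A ^ 4)) := by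
    have e1 : 2 * (A * (A + 2)) + 6 ≤ 2 ^ (4 + 2 * (n * c)) := by
      have e2 : (2 : ℕ) ^ (4 + 2 * (n * c)) = 16 * (2 ^ (n * c)) ^ 2 := by
        rw [pow_add, mul_comm 2 (n * c), pow_mul]
        norm_num
      rw [e2]
      have e3 : A ^ 2 ≤ (2 ^ (n * c)) ^ 2 := Nat.pow_le_pow_left hAn 2
      nlinarith
    have e4 : (A * (A + 2) + 2) ^ 2 ≤ 25 * A ^ 4 := by
      have e5 : A * (A + 2) + 2 ≤ 5 * A ^ 2 := by nlinarith
      calc (A * (A + 2) + 2) ^ 2 ≤ (5 * A ^ 2) ^ 2 := Nat.pow_le_pow_left e5 2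
        _ = 25 * A ^ 4 := by ring
    calc (2 * (A * (A + 2)) + 6) ^ (A * (A + 2) + 2) ^ 2
        ≤ (2 ^ (4 + 2 * (n * c))) ^ (A * (A + 2) + 2) ^ 2 := Nat.pow_le_pow_left e1 _
      _ ≤ (2 ^ (4 + 2 * (n * c))) ^ (25 * A ^ 4) := Nat.pow_le_pow_right (by positivity) e4
      _ = 2 ^ ((4 + 2 * (n * c)) * (25 * A ^ 4)) := by rw [← pow_mul]
  have h2 : 2 ^ (n ^ (4 * c + 3) * n) ≤
      2 ^ ((2 + n * c) + (12 * A ^ 4 + (4 + 2 * (n * c)) * (25 * A ^ 4))) := by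
    rw [pow_add 2 (2 + n * c), pow_add 2 (12 * A ^ 4)]
    refine h.trans (h1.trans (Nat.mul_le_mul f1 ?_))
    unfold R1
    exact Nat.mul_le_mul f2 f3
  have h3 := (Nat.pow_le_pow_iff_right (by norm_num)).1 h2
  have h4 : n ^ (4 * c + 3) * n = n ^ 4 * A ^ 4 := by
    rw [hA]
    ring
  rw [h4] at h3
  have h5 : 1 ≤ A ^ 4 := Nat.one_le_pow _ _ hA1
  have h6 : n ^ 4 * A ^ 4 ≤ (114 + 51 * (n * c)) * A ^ 4 := by nlinarith [Nat.zero_le (n * c)]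
  have h7 : n ^ 4 ≤ 114 + 51 * (n * c) := Nat.le_of_mul_le_mul_right h6 h5
  obtain ⟨e, rfl⟩ : ∃ e, n = e + 4 := ⟨n - 4, by omega⟩
  have h8 : (e + 4) * c ≤ (e + 4) * e := Nat.mul_le_mul_left _ (by omega)
  have h9 : 114 + 51 * ((e + 4) * e) < (e + 4) ^ 4 := by
    have e1 : (e + 4) ^ 4 = e ^ 4 + 16 * e ^ 3 + 96 * e ^ 2 + 256 * e + 256 := by ring
    have e2 : 114 + 51 * ((e + 4) * e) = 51 * e ^ 2 + 204 * e + 114 := by ring
    rw [e1, e2]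
    have := Nat.zero_le (e ^ 4)
    have := Nat.zero_le (e ^ 3)
    omega
  omega

/-- **Order branching, polynomial form**: all polynomials of degree at most `2 ^ (n ^ c)` in at most
`n ^ c` values are primitive operations. -/
theorem real_gate_poly {c n N : ℕ} (hn : c + 4 ≤ n) (T : Fin N → GTree ℝ)
    (hTb : ∀ w, (T w).Bounded (n ^ c) (2 ^ (n ^ c))) (Φ : (Fin N → Bool) → Prop)
    (hdec : Decides (fun v : ℝ => 0 ≤ v) T Φ (RootSum n (n ^ (4 * c + 3)))) :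
    ∃ (w : Fin N) (x : (Fin n → ℝ) × ℝ) (s : ℕ),
      UsesGate (fun v : ℝ => 0 ≤ v) (T w) x s ∧ n ^ c < s := by
  obtain ⟨w, x, s, h1, h2⟩ := real_gate (by omega) T hTb Φ hdec
  exact ⟨w, x, s, h1, num_real hn h2⟩

end Pool.Agent.Lib.MP_641cb6_lc.KG
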