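import Pool.Agent.Lib.MP_641cb6_lc.KG.Defs
import Pool.Agent.Lib.MP_641cb6_lc.KC.Verify
import Pool.Agent.Lib.MP_641cb6_lc.KH.Fam

/-!
# UPG: trees with additions as trees with gates
-/

set_option autoImplicit false

namespace Pool.Agent.Lib.MP_641cb6_lc.KG

open Pool.Agent.Lib.MP_641cb6_lc.KD (Deps)
open Pool.Agent.Lib.MP_641cb6_lc.KH (Instr CompTree State)

variable {K : Type} [Field K]

/-- an addition as a gate -/
noncomputable def toIns : Instr K → Ins K
  | .const c => .const c
  | .mul i j => .mul i j
  | .div i j => .div i j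
  | .add c d i j => .gate 2
      (MvPolynomial.C c * MvPolynomial.X 0 + MvPolynomial.C d * MvPolynomial.X 1) ![i, j]
  | .test i => .test i
  | .answer b => .answer b

/-- a tree with additions as a tree with gates -/
noncomputable def toG (T : CompTree K) : GTree K := fun h => toIns (T h)

theorem toG_bounded (T : CompTree K) : (toG T).Bounded 2 1 := by
  intro h r F i hh
  unfold toG at hh
  cases hT : T h with
  | const c =>
    rw [hT] at hh
    simp [toIns] at hh
  | mul i j =>
    rw [hT] at hh
    simp [toIns] at hh
  | div i j =>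
    rw [hT] at hh
    simp [toIns] at hh
  | add c d i j =>
    rw [hT] at hh
    simp only [toIns, Ins.gate.injEq] at hh
    obtain ⟨rfl, hF, -⟩ := hh
    rw [heq_eq_eq] at hF
    subst hF
    refine ⟨le_rfl, (MvPolynomial.totalDegree_add _ _).trans (max_le ?_ ?_)⟩
    · refine (MvPolynomial.totalDegree_mul _ _).trans ?_
      rw [MvPolynomial.totalDegree_C, MvPolynomial.totalDegree_X]
    · refine (MvPolynomial.totalDegree_mul _ _).trans ?_
      rw [MvPolynomial.totalDegree_C, MvPolynomial.totalDegree_X]
  | test i =>
    rw [hT] at hh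
    simp [toIns] at hh
  | answer b =>
    rw [hT] at hh
    simp [toIns] at hh

theorem toG_run (P : K → Prop) (T : CompTree K) {n : ℕ} (x : (Fin n → K) × K) (k : ℕ) :
    (toG T).run P x k = ⟨(T.run P x k).hist, (T.run P x k).vals⟩ := by
  induction k with
  | zero => rfl
  | succ k ih =>
    have e1 : (toG T).run P x (k + 1) = (toG T).step P ((toG T).run P x k) := rfl
    have e2 : T.run P x (k + 1) = T.step P (T.run P x k) := rfl
    rw [e1, e2, ih]
    generalize T.run P x k = s
    unfold GTree.step CompTree.step
    have e3 : toG T s.hist = toIns (T s.hist) := rfl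
    simp only [e3]
    cases T s.hist with
    | const c => rfl
    | mul i j => rfl
    | div i j => rfl
    | add c d i j =>
      simp only [toIns, St.mk.injEq, true_and, List.append_cancel_left_eq, List.cons.injEq,
        and_true, map_add, map_mul, MvPolynomial.eval_C, MvPolynomial.eval_X, smul_eq_mul]
      rfl
    | test i => rfl
    | answer b => rfl

theorem toG_deps (T : CompTree K) (n : ℕ) (h : List Bool) :
    deps n (toG T) h = KD.deps n T h := by
  induction h with
  | nil => rfl
  | cons o h ih =>
    have e1 : deps n (toG T) (o :: h) = next (toG T h) (deps n (toG T) h) := rfl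
    have e2 : KD.deps n T (o :: h) = (KD.deps n T h).next (T h) := rfl
    rw [e1, e2, ih]
    generalize KD.deps n T h = d
    unfold toG
    cases T h with
    | const c => rfl
    | mul i j => rfl
    | div i j => rfl
    | add c e i j =>
      have e3 : (Finset.univ.biUnion fun k : Fin 2 => d.val (![i, j] k)) = d.val i ∪ d.val j := by
        ext a
        simp [Fin.exists_fin_two]
      simp only [toIns, next, Deps.next, e3]
    | test i => rfl
    | answer b => rfl

theorem toG_branches (ins : Instr K) (i : ℕ) : Branches (toIns ins) i ↔ KD.Branches ins i := by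
  cases ins <;> rfl

/-- additions and gates on which tested values depend -/
theorem toG_uses (P : K → Prop) (T : CompTree K) {n : ℕ} (x : (Fin n → K) × K) (s : ℕ) :
    UsesGate P (toG T) x s ↔ KD.UsesSum P T x s := by
  unfold UsesGate KD.UsesSum
  simp only [toG_run, toG_deps]
  constructor
  · rintro ⟨k, i, a, h1, h2⟩
    exact ⟨k, i, a, (toG_branches _ _).1 h1, h2⟩
  · rintro ⟨k, i, a, h1, h2⟩
    exact ⟨k, i, a, (toG_branches _ _).2 h1, h2⟩

theorem toG_answer (T : CompTree K) (h : List Bool) (b : Bool) :
    toG T h = .answer b ↔ T h = .answer b := by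
  unfold toG
  cases T h <;> simp [toIns]

/-- verification with additions is verification with gates -/
theorem toG_verifies {P : K → Prop} {V : CompTree K} {k t n : ℕ} {S : Set ((Fin n → K) × K)}
    (h : KC.Verifies P V k t S) : Verifies P (toG V) k t S := by
  obtain ⟨h1, h2⟩ := h
  refine ⟨fun x => ?_, fun x => ?_⟩
  · obtain ⟨b, hb⟩ := h1 x
    refine ⟨b, ?_⟩
    rw [toG_run, toG_answer]
    exact hb
  · rw [h2 x]
    simp only [toG_run, toG_answer]

/-- joint decisions -/
theorem toG_decides {P : K → Prop} {n N : ℕ} {T : Fin N → CompTree K}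
    {Φ : (Fin N → Bool) → Prop} {S : Set ((Fin n → K) × K)}
    (h : KH.DecidesJointly P T Φ S) : Decides P (fun w => toG (T w)) Φ S := by
  intro x
  obtain ⟨k, b, h1, h2⟩ := h x
  refine ⟨k, b, fun w => ?_, h2⟩
  rw [toG_run, toG_answer]
  exact h1 w

end Pool.Agent.Lib.MP_641cb6_lc.KG
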